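import Mathlib

/-!
Definitions for the bound on the numerical dimension of a nef adjoint divisor by dynamical degrees.
`K` is the function field of `X`; linear systems are finite dimensional subspaces of `K`.
-/

namespace Pool.Agent.Lib.MP_bc213e_ag.Dyn

open Filter

variable {K : Type} [Field K] [Algebra ℂ K]

/-- The linear system `L` defines a birational map: the ratios of its members generate `K`. -/
def Birational (L : Submodule ℂ K) : Prop :=
  IntermediateField.adjoin ℂ {φ | ∃ a ∈ L, ∃ b ∈ L, φ = a / b} = ⊤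

/-- The difference operator `h ↦ (W ↦ h (x W) - h (y W))`. -/
def dif (x y : Submodule ℂ K) (h : Submodule ℂ K → ℤ) (W : Submodule ℂ K) : ℤ :=
  h (x * W) - h (y * W)

/-- The intersection number `(x - y)^j · L^(n-j)`: the eventual value of the mixed `n`-th
difference of the multigraded Hilbert function `W ↦ dim W` at `W = (x y L)^r`. -/
noncomputable def inter (n j : ℕ) (x y L : Submodule ℂ K) : ℤ :=
  limUnder atTop fun r : ℕ =>
    (dif x y)^[j] ((dif L 1)^[n - j] fun W => (Module.finrank ℂ W : ℤ)) ((x * y * L) ^ r)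

/-- The logarithm of the `k`-th dynamical degree: `lim (1/t) log ((f^t)^* L)^k · L^(n-k)`. -/
noncomputable def ldeg (n : ℕ) (f : K →ₐ[ℂ] K) (L : Submodule ℂ K) (k : ℕ) : ℝ :=
  limUnder atTop fun t : ℕ => Real.log (inter n k (L.map (f ^ t).toLinearMap) 1 L) / t

/-- The largest pole order along `w` of a member of `U`. -/
noncomputable def pole (U : Submodule ℂ K) (w : Valuation K (WithZero (Multiplicative ℤ))) : ℤ :=
  sSup {a | ∃ g ∈ U, g ≠ 0 ∧ a = WithZero.log (w g)}

/-- `M - N` is nef: for arbitrarily small `k / m` some linear system `V` generates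
`m (M - N) + k (M + N)` everywhere. -/
def Nef (M N : Submodule ℂ K) : Prop :=
  ∀ ε : ℝ, 0 < ε → ∃ (m k : ℕ) (V : Submodule ℂ K), 0 < m ∧ (k : ℝ) ≤ ε * m ∧ V.FG ∧ V ≠ ⊥ ∧
    ∀ w : Valuation K (WithZero (Multiplicative ℤ)), (∀ c : ℂ, w (algebraMap ℂ K c) ≤ 1) →
      pole V w = m * (pole M w - pole N w) + k * pole (M * N) w

/-- The logarithmic Jacobian `det (δ_a u_b / u_b)`, the coefficient of
`dlog u_1 ∧ ... ∧ dlog u_n` with respect to the form `ω` dual to `δ`. -/
noncomputable def ljac {n : ℕ} (δ : Fin n → Derivation ℂ K K) (u : Fin n → K) : K :=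
  (Matrix.of fun a b => δ a (u b) / u b).det

/-- The coefficient of `w` in `div ω`, plus one. -/
noncomputable def lcan {n : ℕ} (δ : Fin n → Derivation ℂ K K)
    (w : Valuation K (WithZero (Multiplicative ℤ))) : ℤ :=
  sSup {a | ∃ u, ljac δ u ≠ 0 ∧ a = WithZero.log (w (ljac δ u))}

/-- `q` times the log discrepancy of `w` for the pair with `q (K_X + Δ) = M - N`. -/
noncomputable def logDisc {n : ℕ} (δ : Fin n → Derivation ℂ K K) (q : ℕ) (M N : Submodule ℂ K)
    (w : Valuation K (WithZero (Multiplicative ℤ))) : ℤ :=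
  q * lcan δ w - (pole M w - pole N w)

/-- The centre of `w` on the image of `X` under the linear system `L` has dimension at least
`n - 1`: `w` is trivial or a multiple of the order along a prime divisor of the normalisation. -/
def OnModel (n : ℕ) (L : Submodule ℂ K) (w : Valuation K (WithZero (Multiplicative ℤ))) : Prop :=
  (∀ c : ℂ, w (algebraMap ℂ K c) ≤ 1) ∧ ∃ g ∈ L, (∀ l ∈ L, w l ≤ w g) ∧
    ∃ y : Fin (n - 1) → K, (∀ i, y i ∈ L) ∧ ∀ Q : MvPolynomial (Fin (n - 1)) ℂ, Q ≠ 0 →
      w (MvPolynomial.aeval (fun i => y i / g) Q) = 1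

end Pool.Agent.Lib.MP_bc213e_ag.Dyn
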