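import Mathlib

/-!
Finite dimensional subspaces of a field extension `K / k`: integral dependence, big and
birational systems.
-/

namespace Pool.Agent.Lib.MP_bc213e_ag.Dyn

open Submodule

variable {k K : Type} [Field k] [Field K] [Algebra k K]

/-- The line spanned by `q`. -/
def sc (k : Type) {K : Type} [Field k] [Field K] [Algebra k K] (q : K) : Submodule k K :=
  span k {q}

/-- Integral dependence of `U` on `W`. -/
def Dep (U W : Submodule k K) : Prop := ∃ Z : Submodule k K, Z.FG ∧ Z ≠ ⊥ ∧ U * Z ≤ W * Z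

/-- Big linear systems. -/
def Big (x : Submodule k K) : Prop :=
  x.FG ∧ x ≠ ⊥ ∧ ∀ z : Submodule k K, z.FG → ∃ q : K, q ≠ 0 ∧ ∃ c : ℕ, Dep (sc k q * z) (x ^ c)

/-- Birational linear systems. -/
def Bir (x : Submodule k K) : Prop :=
  x.FG ∧ x ≠ ⊥ ∧ ∀ z : Submodule k K, z.FG → ∃ c : ℕ, ∃ q ∈ x ^ c, q ≠ 0 ∧ sc k q * z ≤ x ^ c

/-- Function fields of dimension `n`. -/
structure FF (k K : Type) [Field k] [Field K] [Algebra k K] (n : ℕ) : Prop where
  dim : Algebra.trdeg k K = n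
  bir : ∃ B : Submodule k K, Bir B

theorem sc_mul (a b : K) : sc k (a * b) = sc k a * sc k b := by
  rw [sc, sc, sc, span_mul_span, Set.singleton_mul_singleton]

theorem sc_one : sc k (1 : K) = 1 := by rw [sc, one_eq_span]

theorem sc_pow (a : K) (m : ℕ) : sc k (a ^ m) = sc k a ^ m := by
  induction m with
  | zero => rw [pow_zero, pow_zero, sc_one]
  | succ m ih => rw [pow_succ, pow_succ, sc_mul, ih]

theorem sc_fg (a : K) : (sc k a).FG := fg_span_singleton a

theorem sc_ne {a : K} (ha : a ≠ 0) : sc k a ≠ ⊥ := by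
  rw [sc, Ne, span_singleton_eq_bot]
  exact ha

theorem mem_sc (a : K) : a ∈ sc k a := mem_span_singleton_self a

theorem sc_le {a : K} {U : Submodule k K} : sc k a ≤ U ↔ a ∈ U := span_singleton_le_iff_mem a U

theorem sc_mul_le {a : K} {U W : Submodule k K} : sc k a * U ≤ W ↔ ∀ u ∈ U, a * u ∈ W := by
  constructor
  · exact fun h u hu => h (mul_mem_mul (mem_sc a) hu)
  · intro h
    refine mul_le.2 fun m hm u hu => ?_
    obtain ⟨c, rfl⟩ := mem_span_singleton.1 hm
    rw [smul_mul_assoc]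
    exact W.smul_mem c (h u hu)

theorem mul_ne_bot' {U W : Submodule k K} (hU : U ≠ ⊥) (hW : W ≠ ⊥) : U * W ≠ ⊥ := by
  obtain ⟨a, ha, ha0⟩ := (Submodule.ne_bot_iff U).1 hU
  obtain ⟨b, hb, hb0⟩ := (Submodule.ne_bot_iff W).1 hW
  exact (Submodule.ne_bot_iff _).2 ⟨a * b, mul_mem_mul ha hb, mul_ne_zero ha0 hb0⟩

theorem one_ne_bot' : (1 : Submodule k K) ≠ ⊥ := sc_one (k := k) (K := K) ▸ sc_ne one_ne_zero

theorem pow_ne_bot' {U : Submodule k K} (hU : U ≠ ⊥) (m : ℕ) : U ^ m ≠ ⊥ := by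
  induction m with
  | zero => rw [pow_zero]; exact one_ne_bot'
  | succ m ih => rw [pow_succ]; exact mul_ne_bot' ih hU

theorem fg_one' : (1 : Submodule k K).FG := sc_one (k := k) (K := K) ▸ sc_fg 1

theorem finrank_sc_mul {q : K} (hq : q ≠ 0) (U : Submodule k K) :
    Module.finrank k (sc k q * U : Submodule k K) = Module.finrank k U := by
  have e : sc k q * U = U.map (LinearMap.mulLeft k q) := by
    refine le_antisymm (sc_mul_le.2 fun u hu => ⟨u, hu, rfl⟩) ?_
    rintro _ ⟨u, hu, rfl⟩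
    exact mul_mem_mul (mem_sc q) hu
  rw [e]
  exact (Submodule.equivMapOfInjective _ (mul_right_injective₀ hq) U).finrank_eq.symm

theorem Dep.of_le {U W : Submodule k K} (h : U ≤ W) : Dep U W := by
  exact ⟨1, fg_one', one_ne_bot', mul_le_mul_left h 1⟩

theorem Dep.rfl {U : Submodule k K} : Dep U U := by
  exact Dep.of_le le_rfl

theorem Dep.trans {U V W : Submodule k K} (h : Dep U V) (h' : Dep V W) : Dep U W := by
  obtain ⟨Z, hZ, hZ', h⟩ := h
  obtain ⟨Y, hY, hY', h'⟩ := h'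
  refine ⟨Z * Y, hZ.mul hY, mul_ne_bot' hZ' hY', ?_⟩
  calc U * (Z * Y) = U * Z * Y := by ring
    _ ≤ V * Z * Y := mul_le_mul_left h Y
    _ = V * Y * Z := by ring
    _ ≤ W * Y * Z := mul_le_mul_left h' Z
    _ = W * (Z * Y) := by ring

theorem Dep.mul {U V U' V' : Submodule k K} (h : Dep U V) (h' : Dep U' V') :
    Dep (U * U') (V * V') := by
  obtain ⟨Z, hZ, hZ', h⟩ := h
  obtain ⟨Y, hY, hY', h'⟩ := h'
  refine ⟨Z * Y, hZ.mul hY, mul_ne_bot' hZ' hY', ?_⟩
  calc U * U' * (Z * Y) = U * Z * (U' * Y) := by ring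
    _ ≤ V * Z * (V' * Y) := mul_le_mul' h h'
    _ = V * V' * (Z * Y) := by ring

theorem Dep.pow {U V : Submodule k K} (h : Dep U V) (m : ℕ) : Dep (U ^ m) (V ^ m) := by
  induction m with
  | zero => rw [pow_zero, pow_zero]; exact Dep.rfl
  | succ m ih => rw [pow_succ, pow_succ]; exact ih.mul h

theorem Dep.sup {U U' W : Submodule k K} (h : Dep U W) (h' : Dep U' W) : Dep (U ⊔ U') W := by
  obtain ⟨Z, hZ, hZ', h⟩ := h
  obtain ⟨Y, hY, hY', h'⟩ := h'
  refine ⟨Z * Y, hZ.mul hY, mul_ne_bot' hZ' hY', ?_⟩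
  rw [Submodule.sup_mul]
  refine sup_le ?_ ?_
  · calc U * (Z * Y) = U * Z * Y := by ring
      _ ≤ W * Z * Y := mul_le_mul_left h Y
      _ = W * (Z * Y) := by ring
  · calc U' * (Z * Y) = U' * Y * Z := by ring
      _ ≤ W * Y * Z := mul_le_mul_left h' Z
      _ = W * (Z * Y) := by ring

theorem Dep.cancel {U W Y : Submodule k K} (h : Dep (U * Y) (W * Y)) (hY : Y.FG) (hY' : Y ≠ ⊥) :
    Dep U W := by
  obtain ⟨Z, hZ, hZ', h⟩ := h
  refine ⟨Y * Z, hY.mul hZ, mul_ne_bot' hY' hZ', ?_⟩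
  rwa [← mul_assoc, ← mul_assoc]

theorem dep_span {s : Set K} (hs : s.Finite) {W : Submodule k K}
    (h : ∀ a ∈ s, Dep (sc k a) W) : Dep (span k s) W := by
  induction s, hs using Set.Finite.induction_on with
  | empty => rw [span_empty]; exact Dep.of_le bot_le
  | insert _ _ ih =>
    rw [span_insert]
    exact (h _ (Set.mem_insert _ _)).sup (ih fun a ha => h a (Set.mem_insert_of_mem _ ha))

theorem dep_of_forall {U W : Submodule k K} (hU : U.FG) (h : ∀ a ∈ U, Dep (sc k a) W) :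
    Dep U W := by
  obtain ⟨s, rfl⟩ := hU
  exact dep_span s.finite_toSet fun a ha => h a (subset_span ha)

/-- Elements that depend on `1` are integral over `k` (`isIntegral_of_smul_mem_submodule`). -/
theorem Dep.isIntegral {U : Submodule k K} (h : Dep U 1) {a : K} (ha : a ∈ U) :
    IsIntegral k a := by
  obtain ⟨Z, hZ, hZ', h⟩ := h
  rw [one_mul] at h
  exact isIntegral_of_smul_mem_submodule Z hZ' hZ a fun z hz => h (mul_mem_mul ha hz)

theorem sup_pow_le_aux (P Q : Submodule k K) (a b m : ℕ) (h : a + b ≤ m) :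
    (P ⊔ Q) ^ m ≤ P ^ a * (P ⊔ Q) ^ (m - a) ⊔ Q ^ b * (P ⊔ Q) ^ (m - b) := by
  induction m generalizing a b with
  | zero =>
    obtain rfl : a = 0 := by omega
    rw [pow_zero P, one_mul]
    exact le_sup_left
  | succ m ih =>
    rcases a with _ | a
    · rw [pow_zero P, one_mul]
      exact le_sup_left
    rcases b with _ | b
    · rw [pow_zero Q, one_mul]
      exact le_sup_right
    rw [pow_succ' (P ⊔ Q) m, Submodule.sup_mul]
    refine sup_le ?_ ?_
    · refine (mul_le_mul_right (ih a (b + 1) (by omega)) P).trans ?_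
      rw [Submodule.mul_sup]
      refine sup_le_sup ?_ ?_
      · rw [← mul_assoc, ← pow_succ', show m + 1 - (a + 1) = m - a by omega]
      · rw [mul_left_comm, show m + 1 - (b + 1) = m - (b + 1) + 1 by omega, pow_succ' (P ⊔ Q)]
        exact mul_le_mul_right (mul_le_mul_left le_sup_left _) _
    · refine (mul_le_mul_right (ih (a + 1) b (by omega)) Q).trans ?_
      rw [Submodule.mul_sup]
      refine sup_le_sup ?_ ?_
      · rw [mul_left_comm, show m + 1 - (a + 1) = m - (a + 1) + 1 by omega, pow_succ' (P ⊔ Q)]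
        exact mul_le_mul_right (mul_le_mul_left le_sup_right _) _
      · rw [← mul_assoc, ← pow_succ', show m + 1 - (b + 1) = m - b by omega]

/-- Pigeonhole: a long product of generators contains a `c`-th power. Sketch: induction on `s`;
`(P ⊔ Q)^(a+b) ≤ P^a (P ⊔ Q)^b ⊔ Q^b (P ⊔ Q)^a`. -/
theorem pow_le_span_pow (s : Finset K) {c : ℕ} (hc : 0 < c) :
    ∃ N : ℕ, span k (s : Set K) ^ (N + c) ≤
      span k ((fun a => a ^ c) '' (s : Set K)) * span k (s : Set K) ^ N := by
  classical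
  induction s using Finset.induction_on with
  | empty =>
    refine ⟨0, ?_⟩
    rw [Finset.coe_empty, span_empty, zero_add, Submodule.bot_pow hc.ne']
    exact bot_le
  | insert a s _ ih =>
    obtain ⟨N, hN⟩ := ih
    refine ⟨N + c, ?_⟩
    rw [Finset.coe_insert, Set.image_insert_eq, span_insert, span_insert]
    refine (sup_pow_le_aux (span k {a}) (span k (s : Set K)) c (N + c) (N + c + c)
      (by omega)).trans (sup_le ?_ ?_)
    · rw [show N + c + c - c = N + c by omega]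
      refine mul_le_mul_left ?_ _
      exact (sc_pow a c).ge.trans le_sup_left
    · rw [show N + c + c - (N + c) = c by omega]
      calc span k (s : Set K) ^ (N + c) * (span k {a} ⊔ span k (s : Set K)) ^ c
          ≤ span k ((fun a => a ^ c) '' (s : Set K)) * span k (s : Set K) ^ N *
            (span k {a} ⊔ span k (s : Set K)) ^ c := mul_le_mul_left hN _
        _ ≤ (span k {a ^ c} ⊔ span k ((fun a => a ^ c) '' (s : Set K))) *
            (span k {a} ⊔ span k (s : Set K)) ^ N * (span k {a} ⊔ span k (s : Set K)) ^ c :=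
            mul_le_mul_left (mul_le_mul' le_sup_right (pow_le_pow_left' le_sup_right N)) _
        _ = _ := by rw [mul_assoc, ← pow_add]

theorem one_mem_pow_aux {x : Submodule k K} (h1 : (1 : K) ∈ x) (c : ℕ) : (1 : K) ∈ x ^ c := by
  simpa using Submodule.pow_mem_pow x h1 c

theorem pow_mono_aux {x : Submodule k K} (h1 : (1 : K) ∈ x) {c c' : ℕ} (h : c ≤ c') :
    x ^ c ≤ x ^ c' := by
  obtain ⟨d, rfl⟩ := Nat.exists_eq_add_of_le h
  intro a ha
  rw [pow_add, ← mul_one a]
  exact mul_mem_mul ha (one_mem_pow_aux h1 d)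

theorem mem_pow_of_mem_adjoin {x : Submodule k K} (h1 : (1 : K) ∈ x) {a : K}
    (ha : a ∈ Algebra.adjoin k (x : Set K)) : ∃ c : ℕ, ∀ c' ≥ c, a ∈ x ^ c' := by
  suffices h : ∃ c : ℕ, a ∈ x ^ c from h.imp fun c hc c' hc' => pow_mono_aux h1 hc' hc
  induction ha using Algebra.adjoin_induction with
  | mem a ha => exact ⟨1, by rwa [pow_one]⟩
  | algebraMap r => exact ⟨0, by rw [pow_zero]; exact Submodule.algebraMap_mem r⟩
  | add a b _ _ ha hb =>
    obtain ⟨c, hc⟩ := ha
    obtain ⟨d, hd⟩ := hb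
    exact ⟨c + d, add_mem (pow_mono_aux h1 (by omega) hc) (pow_mono_aux h1 (by omega) hd)⟩
  | mul a b _ _ ha hb =>
    obtain ⟨c, hc⟩ := ha
    obtain ⟨d, hd⟩ := hb
    exact ⟨c + d, by rw [pow_add]; exact mul_mem_mul hc hd⟩

/-- Sketch: the coefficients of a monic equation of degree `d` lie in `x^c` for large `c`
(`Algebra.adjoin_induction`, the powers of `x` increase); take `Z = span {ψ^i : i < d}`. -/
theorem dep_of_isIntegral {x : Submodule k K} (h1 : (1 : K) ∈ x) {ψ : K}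
    (hψ : IsIntegral (Algebra.adjoin k (x : Set K)) ψ) :
    ∃ c : ℕ, ∀ c' ≥ c, Dep (sc k ψ) (x ^ c') := by
  obtain ⟨p, hp, hp0⟩ := hψ
  choose c hc using fun i => mem_pow_of_mem_adjoin h1 (p.coeff i).2
  refine ⟨(Finset.range p.natDegree).sup c, fun c' hc' => ?_⟩
  have hd : 0 < p.natDegree := by
    refine Nat.pos_of_ne_zero fun h0 => ?_
    rw [hp.natDegree_eq_zero.1 h0, Polynomial.eval₂_one] at hp0
    exact one_ne_zero hp0
  have hm : ∀ i < p.natDegree, ψ ^ i ∈ span k (Set.range fun i : Fin p.natDegree => ψ ^ (i : ℕ)) :=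
    fun i hi => subset_span ⟨⟨i, hi⟩, rfl⟩
  refine ⟨span k (Set.range fun i : Fin p.natDegree => ψ ^ (i : ℕ)),
    fg_span (Set.finite_range _), (Submodule.ne_bot_iff _).2 ⟨_, hm 0 hd, by simp⟩, ?_⟩
  rw [sc, span_mul_span, span_le]
  rintro _ ⟨a, rfl, _, ⟨i, rfl⟩, rfl⟩
  change a * a ^ (i : ℕ) ∈ _
  rw [← pow_succ']
  rcases Nat.lt_or_ge (i + 1) p.natDegree with hi | hi
  · rw [← one_mul (a ^ _)]
    exact mul_mem_mul (one_mem_pow_aux h1 c') (hm _ hi)
  · have hi' : (i : ℕ) + 1 = p.natDegree := le_antisymm i.2 hi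
    rw [hi']
    rw [Polynomial.eval₂_eq_sum_range, Finset.sum_range_succ, hp.coeff_natDegree, map_one,
      one_mul] at hp0
    rw [eq_neg_of_add_eq_zero_right hp0]
    refine neg_mem (sum_mem fun l hl => mul_mem_mul (hc l c' ?_) (hm l (Finset.mem_range.1 hl)))
    exact (Finset.le_sup (f := c) hl).trans hc'

/-- Sketch: `Algebra.IsAlgebraic.exists_integral_multiples` for a finite generating set of `z`. -/
theorem big_of_isAlgebraic {x : Submodule k K} (hx : x.FG) (h1 : (1 : K) ∈ x)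
    (h : Algebra.IsAlgebraic (Algebra.adjoin k (x : Set K)) K) : Big x := by
  classical
  refine ⟨hx, (Submodule.ne_bot_iff _).2 ⟨1, h1, one_ne_zero⟩, ?_⟩
  rintro _ ⟨s, rfl⟩
  obtain ⟨y, hy, hs⟩ :=
    Algebra.IsAlgebraic.exists_integral_multiples (Algebra.adjoin k (x : Set K)) s
  choose! c hc using fun a (ha : a ∈ s) => dep_of_isIntegral h1 (hs a ha)
  refine ⟨y, fun h0 => hy (Subtype.ext h0), s.sup c, ?_⟩
  rw [sc, span_mul_span]
  refine dep_span ((Set.finite_singleton _).mul s.finite_toSet) ?_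
  rintro _ ⟨_, rfl, a, ha, rfl⟩
  exact hc a ha _ (Finset.le_sup (f := c) ha)

theorem Bir.big {x : Submodule k K} (h : Bir x) : Big x := by
  refine ⟨h.1, h.2.1, fun z hz => ?_⟩
  obtain ⟨c, q, -, hq, hc⟩ := h.2.2 z hz
  exact ⟨q, hq, c, Dep.of_le hc⟩

theorem Big.mul {x y : Submodule k K} (h : Big x) (hy : y.FG) (hy' : y ≠ ⊥) : Big (x * y) := by
  refine ⟨h.1.mul hy, mul_ne_bot' h.2.1 hy', fun z hz => ?_⟩
  obtain ⟨q, hq, c, hc⟩ := h.2.2 z hz
  obtain ⟨g, hg, hg0⟩ := (Submodule.ne_bot_iff y).1 hy'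
  refine ⟨q * g ^ c, mul_ne_zero hq (pow_ne_zero _ hg0), c, ?_⟩
  rw [sc_mul, mul_right_comm, mul_pow]
  exact hc.mul (Dep.of_le (sc_le.2 (Submodule.pow_mem_pow _ hg c)))

theorem Bir.mul {x y : Submodule k K} (h : Bir x) (hy : y.FG) (hy' : y ≠ ⊥) : Bir (x * y) := by
  refine ⟨h.1.mul hy, mul_ne_bot' h.2.1 hy', fun z hz => ?_⟩
  obtain ⟨c, q, hqx, hq, hc⟩ := h.2.2 z hz
  obtain ⟨g, hg, hg0⟩ := (Submodule.ne_bot_iff y).1 hy'
  refine ⟨c, q * g ^ c, ?_, mul_ne_zero hq (pow_ne_zero _ hg0), ?_⟩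
  · rw [mul_pow]
    exact mul_mem_mul hqx (Submodule.pow_mem_pow _ hg c)
  · rw [sc_mul, mul_right_comm, mul_pow]
    exact mul_le_mul' hc (sc_le.2 (Submodule.pow_mem_pow _ hg c))

theorem Big.pow {x : Submodule k K} (h : Big x) {m : ℕ} (hm : 0 < m) : Big (x ^ m) := by
  obtain ⟨m, rfl⟩ : ∃ l, m = l + 1 := ⟨m - 1, by omega⟩
  rw [pow_succ']
  exact h.mul (h.1.pow m) (pow_ne_bot' h.2.1 m)

theorem Big.of_dep {x y : Submodule k K} (h : Big y) (hx : x.FG) (hx' : x ≠ ⊥) {q : K}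
    (hq : q ≠ 0) {c : ℕ} (hd : Dep (sc k q * y) (x ^ c)) : Big x := by
  refine ⟨hx, hx', fun z hz => ?_⟩
  obtain ⟨p, hp, d, hpd⟩ := h.2.2 z hz
  refine ⟨q ^ d * p, mul_ne_zero (pow_ne_zero _ hq) hp, c * d, ?_⟩
  rw [sc_mul, mul_assoc, pow_mul, sc_pow]
  refine (Dep.rfl.mul hpd).trans ?_
  rw [← mul_pow]
  exact hd.pow d

/-- Sketch: take `τ` transcendental (`Algebra.trdeg_ne_zero_iff` or `trdeg_eq_zero`),
`z = span {1, τ}`; then `sc (q' q^c) * z` depends on `1`, so `q' q^c` and `q' q^c τ` are integral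
over `k` and `τ` is algebraic. -/
theorem Big.not_dep_one {x : Submodule k K} (h : Big x) (hK : Algebra.trdeg k K ≠ 0) {q : K}
    (hq : q ≠ 0) : ¬ Dep (sc k q * x) 1 := by
  intro hd
  apply hK
  have : Algebra.IsAlgebraic k K := ⟨fun τ => by
    obtain ⟨p, hp, c, hc⟩ := h.2.2 (sc k 1 ⊔ sc k τ) ((sc_fg _).sup (sc_fg _))
    have h1 : Dep (sc k (q ^ c * p) * (sc k 1 ⊔ sc k τ)) 1 := by
      rw [sc_mul, mul_assoc, sc_pow]
      refine (Dep.rfl.mul hc).trans ?_
      rw [← mul_pow]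
      simpa using hd.pow c
    have h2 := h1.isIntegral (mul_mem_mul (mem_sc _) (mem_sup_left (mem_sc 1)))
    have h3 := h1.isIntegral (mul_mem_mul (mem_sc _) (mem_sup_right (mem_sc τ)))
    have h4 : τ = q ^ c * p * τ * (q ^ c * p * 1)⁻¹ := by
      field_simp
    rw [h4]
    exact h3.isAlgebraic.mul h2.isAlgebraic.inv⟩
  exact trdeg_eq_zero

/-- A birational system generates the field. -/
theorem Bir.adjoin_eq_top {L : Submodule k K} (h : Bir L) {g : K} (hg : g ∈ L) (hg0 : g ≠ 0) :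
    IntermediateField.adjoin k {φ | ∃ a ∈ L, φ = a / g} = ⊤ := by
  have key : ∀ c : ℕ, ∀ a ∈ L ^ c,
      a / g ^ c ∈ IntermediateField.adjoin k {φ | ∃ a ∈ L, φ = a / g} := by
    intro c
    induction c with
    | zero =>
      intro a ha
      rw [pow_zero, Submodule.mem_one] at ha
      obtain ⟨r, rfl⟩ := ha
      rw [pow_zero, div_one]
      exact IntermediateField.algebraMap_mem _ r
    | succ c ih =>
      intro a ha
      rw [pow_succ] at ha
      refine Submodule.mul_induction_on ha (fun m hm l hl => ?_) fun a b ha hb => ?_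
      · rw [pow_succ, mul_div_mul_comm]
        exact mul_mem (ih m hm) (IntermediateField.subset_adjoin _ _ ⟨l, hl, rfl⟩)
      · rw [add_div]
        exact add_mem ha hb
  rw [eq_top_iff]
  intro φ _
  obtain ⟨c, q, hq, hq0, hc⟩ := h.2.2 (sc k φ) (sc_fg φ)
  have e : φ = (q * φ / g ^ c) / (q / g ^ c) := by field_simp
  rw [e]
  exact div_mem (key c _ (hc (mul_mem_mul (mem_sc q) (mem_sc φ)))) (key c q hq)

/-- Sketch: with `g ∈ P`, `g ≠ 0`, the subalgebra `F` generated by the quotients `p / g`, `p` in a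
finite generating set, is finite dimensional and closed under inverses
(`Subalgebra.inv_mem_of_algebraic`); `P^c ≤ sc (g^c) * F`, so `F = ⊤`, `⊤` is finitely generated
and `sc q * ⊤ ≤ P^c` for some `c`. -/
theorem Bir.eventually_top {P : Submodule k K} (h : Bir P) (hK : Algebra.trdeg k K = 0) :
    FiniteDimensional k K ∧ ∀ U : Submodule k K, U ≠ ⊥ →
      ∀ᶠ r : ℕ in Filter.atTop, P ^ r * U = ⊤ := by
  have halg : Algebra.IsAlgebraic k K := trdeg_eq_zero_iff.1 hK
  obtain ⟨g, hg, hg0⟩ := (Submodule.ne_bot_iff P).1 h.2.1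
  obtain ⟨s, hs⟩ := h.1
  have hfd : FiniteDimensional k K := by
    have h1 := h.adjoin_eq_top hg hg0
    have h2 : IntermediateField.adjoin k ((fun a => a / g) '' (s : Set K)) = ⊤ := by
      rw [eq_top_iff, ← h1, IntermediateField.adjoin_le_iff]
      rintro _ ⟨a, ha, rfl⟩
      rw [← hs] at ha
      induction ha using span_induction with
      | mem a ha => exact IntermediateField.subset_adjoin _ _ ⟨a, ha, rfl⟩
      | zero => rw [zero_div]; exact zero_mem _
      | add a b _ _ ha hb => rw [add_div]; exact add_mem ha hb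
      | smul c a _ ha =>
        rw [smul_div_assoc]
        exact IntermediateField.smul_mem _ ha
    have : Finite ((fun a => a / g) '' (s : Set K)) := (s.finite_toSet.image _).to_subtype
    have h3 : FiniteDimensional k (IntermediateField.adjoin k ((fun a => a / g) '' (s : Set K))) :=
      IntermediateField.finiteDimensional_adjoin fun a _ => (halg.isAlgebraic a).isIntegral
    rw [h2] at h3
    exact IntermediateField.topEquiv.toLinearEquiv.finiteDimensional
  refine ⟨hfd, fun U hU => ?_⟩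
  obtain ⟨c, q, -, hq, hc⟩ := h.2.2 ⊤ Module.Finite.fg_top
  obtain ⟨u, hu, hu0⟩ := (Submodule.ne_bot_iff U).1 hU
  refine Filter.eventually_atTop.2 ⟨c, fun r hr => ?_⟩
  obtain ⟨d, rfl⟩ := Nat.exists_eq_add_of_le hr
  rw [eq_top_iff, pow_add]
  intro a _
  have e : a = q * (a / (q * g ^ d * u)) * g ^ d * u := by field_simp
  rw [e]
  exact mul_mem_mul (mul_mem_mul (hc (mul_mem_mul (mem_sc q) mem_top))
    (Submodule.pow_mem_pow _ hg d)) hu

/-- Sketch: the elements `a / b` with `a, b ∈ L^c` for some `c` form an intermediate field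
(`IntermediateField.adjoin_induction`); take a common denominator. -/
theorem bir_of_adjoin {L : Submodule k K} (hL : L.FG) (hL' : L ≠ ⊥)
    (h : IntermediateField.adjoin k {φ | ∃ a ∈ L, ∃ b ∈ L, φ = a / b} = ⊤) : Bir L := by
  obtain ⟨g, hg, hg0⟩ := (Submodule.ne_bot_iff L).1 hL'
  have key : ∀ φ ∈ IntermediateField.adjoin k {φ | ∃ a ∈ L, ∃ b ∈ L, φ = a / b},
      ∃ c : ℕ, ∃ q ∈ L ^ c, q ≠ 0 ∧ q * φ ∈ L ^ c := by
    intro φ hφ
    induction hφ using IntermediateField.adjoin_induction with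
    | mem φ hφ =>
      obtain ⟨a, ha, b, hb, rfl⟩ := hφ
      by_cases hb0 : b = 0
      · exact ⟨1, g, by rwa [pow_one], hg0, by simp [hb0]⟩
      · exact ⟨1, b, by rwa [pow_one], hb0, by rwa [pow_one, mul_div_cancel₀ _ hb0]⟩
    | algebraMap r =>
      refine ⟨0, 1, by rw [pow_zero]; exact Submodule.one_le.1 le_rfl, one_ne_zero, ?_⟩
      rw [pow_zero, one_mul]
      exact Submodule.algebraMap_mem r
    | add a b _ _ ha hb =>
      obtain ⟨c, p, hp, hp0, hc⟩ := ha
      obtain ⟨d, q, hq, hq0, hd⟩ := hb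
      refine ⟨c + d, p * q, by rw [pow_add]; exact mul_mem_mul hp hq, mul_ne_zero hp0 hq0, ?_⟩
      rw [show p * q * (a + b) = p * a * q + p * (q * b) by ring, pow_add]
      exact add_mem (mul_mem_mul hc hq) (mul_mem_mul hp hd)
    | inv a _ ha =>
      obtain ⟨c, p, hp, hp0, hc⟩ := ha
      by_cases ha0 : a = 0
      · exact ⟨c, p, hp, hp0, by simp [ha0]⟩
      · exact ⟨c, p * a, hc, mul_ne_zero hp0 ha0, by rwa [mul_inv_cancel_right₀ ha0]⟩
    | mul a b _ _ ha hb =>
      obtain ⟨c, p, hp, hp0, hc⟩ := ha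
      obtain ⟨d, q, hq, hq0, hd⟩ := hb
      refine ⟨c + d, p * q, by rw [pow_add]; exact mul_mem_mul hp hq, mul_ne_zero hp0 hq0, ?_⟩
      rw [show p * q * (a * b) = p * a * (q * b) by ring, pow_add]
      exact mul_mem_mul hc hd
  refine ⟨hL, hL', ?_⟩
  rintro _ ⟨s, rfl⟩
  classical
  induction s using Finset.induction_on with
  | empty =>
    refine ⟨1, g, by rwa [pow_one], hg0, ?_⟩
    rw [Finset.coe_empty, span_empty, Submodule.mul_bot]
    exact bot_le
  | insert a s _ ih =>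
    obtain ⟨c, p, hp, hp0, hc⟩ := ih
    obtain ⟨d, q, hq, hq0, hd⟩ := key a (h ▸ IntermediateField.mem_top)
    refine ⟨c + d, p * q, by rw [pow_add]; exact mul_mem_mul hp hq, mul_ne_zero hp0 hq0, ?_⟩
    rw [Finset.coe_insert, span_insert, Submodule.mul_sup, pow_add]
    refine sup_le ?_ ?_
    · change sc k (p * q) * sc k a ≤ _
      rw [← sc_mul, sc_le, mul_assoc]
      exact mul_mem_mul hp hd
    · rw [sc_mul, mul_right_comm]
      exact mul_le_mul' hc (sc_le.2 hq)

section Map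

variable {K₁ : Type} [Field K₁] [Algebra k K₁]

/-- Pull-back of linear systems as a monoid homomorphism. -/
noncomputable def pb (f : K₁ →ₐ[k] K) : Submodule k K₁ →* Submodule k K where
  toFun U := U.map f.toLinearMap
  map_one' := Submodule.map_one f
  map_mul' U W := Submodule.map_mul U W f

theorem pb_apply (f : K₁ →ₐ[k] K) (U : Submodule k K₁) : pb f U = U.map f.toLinearMap := rfl

theorem pb_mono (f : K₁ →ₐ[k] K) : Monotone (pb f) := fun _ _ h => map_mono h

theorem pb_fg (f : K₁ →ₐ[k] K) {U : Submodule k K₁} (h : U.FG) : (pb f U).FG := h.map _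

theorem pb_ne (f : K₁ →ₐ[k] K) {U : Submodule k K₁} (h : U ≠ ⊥) : pb f U ≠ ⊥ := by
  obtain ⟨a, ha, ha0⟩ := (Submodule.ne_bot_iff U).1 h
  exact (Submodule.ne_bot_iff _).2 ⟨f a, ⟨a, ha, rfl⟩, (map_ne_zero f).2 ha0⟩

theorem pb_sc (f : K₁ →ₐ[k] K) (q : K₁) : pb f (sc k q) = sc k (f q) := by
  rw [pb_apply, sc, Submodule.map_span, Set.image_singleton]
  rfl

theorem pb_comp {K₂ : Type} [Field K₂] [Algebra k K₂] (f : K₁ →ₐ[k] K) (f' : K₂ →ₐ[k] K₁)
    (U : Submodule k K₂) : pb (f.comp f') U = pb f (pb f' U) := by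
  rw [pb_apply, pb_apply, pb_apply, ← Submodule.map_comp]
  rfl

theorem Dep.map_pb {U W : Submodule k K₁} (h : Dep U W) (f : K₁ →ₐ[k] K) :
    Dep (pb f U) (pb f W) := by
  obtain ⟨Z, hZ, hZ', h⟩ := h
  refine ⟨pb f Z, pb_fg f hZ, pb_ne f hZ', ?_⟩
  rw [← map_mul, ← map_mul]
  exact pb_mono f h

/-- Sketch: a transcendence basis `τ` of `K₁` is finite with `n` elements, its image is
algebraically independent with `n` elements, hence a transcendence basis of `K`
(`AlgebraicIndependent.isTranscendenceBasis_of_trdeg_le_of_finite`). So `pb f y` is big for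
`y = span (insert 1 (range τ))` by `big_of_isAlgebraic`; conclude by `Big.of_dep`. -/
theorem Big.map_pb {n : ℕ} (h₁ : Algebra.trdeg k K₁ = n) (h : Algebra.trdeg k K = n)
    (f : K₁ →ₐ[k] K) {x : Submodule k K₁} (hx : Big x) : Big (pb f x) := by
  obtain ⟨ι, τ, hτ⟩ := exists_isTranscendenceBasis' k K₁
  have hc : Cardinal.mk ι = n := hτ.cardinalMk_eq_trdeg.trans h₁
  have : Finite ι := Cardinal.mk_lt_aleph0_iff.1 (hc ▸ Cardinal.natCast_lt_aleph0)
  have hb : IsTranscendenceBasis k (f ∘ τ) :=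
    (hτ.1.map' (f := f) f.toRingHom.injective).isTranscendenceBasis_of_trdeg_le_of_finite
      (by rw [h, hc])
  have hy : (span k (insert 1 (Set.range τ))).FG := fg_span ((Set.finite_range τ).insert 1)
  have h1 : (1 : K) ∈ pb f (span k (insert 1 (Set.range τ))) :=
    ⟨1, subset_span (Set.mem_insert _ _), map_one f⟩
  have hle : Algebra.adjoin k (Set.range (f ∘ τ)) ≤
      Algebra.adjoin k (pb f (span k (insert 1 (Set.range τ))) : Set K) := by
    refine Algebra.adjoin_mono ?_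
    rintro _ ⟨i, rfl⟩
    exact ⟨τ i, subset_span (Set.mem_insert_of_mem _ ⟨i, rfl⟩), rfl⟩
  have hbig : Big (pb f (span k (insert 1 (Set.range τ)))) :=
    big_of_isAlgebraic (pb_fg f hy) h1 ⟨fun a =>
      (hb.isAlgebraic.isAlgebraic a).tower_top_of_subalgebra_le hle⟩
  obtain ⟨q, hq, c, hd⟩ := hx.2.2 _ hy
  have hd' := hd.map_pb f
  rw [map_mul, map_pow, pb_sc] at hd'
  exact hbig.of_dep (pb_fg f hx.1) (pb_ne f hx.2.1) ((map_ne_zero f).2 hq) hd'

/-- The degree of a field embedding. -/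
noncomputable def deg (f : K₁ →+* K) : ℕ :=
  @Module.finrank K₁ K _ _ f.toAlgebra.toModule

end Map

end Pool.Agent.Lib.MP_bc213e_ag.Dyn
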