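import Pool.Agent.Lib.MP_bc213e_ag.Dyn.Defs
import Pool.Agent.Lib.MP_bc213e_ag.Dyn.Dep
import Pool.Agent.Lib.MP_bc213e_ag.TCI.W
import Pool.Agent.Lib.MP_bc213e_ag.TCI.Trp

/-!
Pole orders, the Hartogs principle on a model, and pull-back of logarithmic forms.
-/

namespace Pool.Agent.Lib.MP_bc213e_ag.Dyn

open Submodule WithZero

variable {K : Type} [Field K] [Algebra ℂ K]

section Pole

variable {w : Valuation K ℤᵐ⁰}

theorem pole_eq {U : Submodule ℂ K} {g : K} (hg : g ∈ U) (hg0 : g ≠ 0) (h : ∀ u ∈ U, w u ≤ w g) :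
    pole U w = log (w g) := by
  refine IsGreatest.csSup_eq ⟨⟨g, hg, hg0, rfl⟩, ?_⟩
  rintro _ ⟨u, hu, hu0, rfl⟩
  exact (log_le_log ((_root_.map_ne_zero w).2 hu0) ((_root_.map_ne_zero w).2 hg0)).2 (h u hu)

/-- Sketch: take a generator `g` of maximal value (`Finset.exists_max_image`), all members have
value at most `w g` (`span_induction`), `g ≠ 0` as `U ≠ ⊥`; `IsGreatest.csSup_eq`. -/
theorem exists_pole (hw : ∀ c : ℂ, w (algebraMap ℂ K c) ≤ 1) {U : Submodule ℂ K} (hU : U.FG)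
    (hU' : U ≠ ⊥) : ∃ g ∈ U, g ≠ 0 ∧ (∀ u ∈ U, w u ≤ w g) ∧ pole U w = log (w g) := by
  obtain ⟨s, rfl⟩ := hU
  have hne : s.Nonempty := by
    rw [Finset.nonempty_iff_ne_empty]
    rintro rfl
    exact hU' (by simp)
  obtain ⟨g, hg, hmax⟩ := s.exists_max_image (fun a => w a) hne
  have hall : ∀ u ∈ span ℂ (s : Set K), w u ≤ w g := by
    intro u hu
    induction hu using span_induction with
    | mem a ha => exact hmax a ha
    | zero => rw [map_zero]; exact zero_le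
    | add a b _ _ ha hb => exact (w.map_add a b).trans (max_le ha hb)
    | smul c a _ ha =>
      rw [Algebra.smul_def, map_mul]
      exact (mul_le_of_le_one_left' (hw c)).trans ha
  have hg0 : g ≠ 0 := by
    rintro rfl
    refine hU' ((Submodule.eq_bot_iff _).2 fun u hu => ?_)
    have := hall u hu
    rwa [map_zero, le_zero_iff, map_eq_zero] at this
  exact ⟨g, subset_span hg, hg0, hall, pole_eq (subset_span hg) hg0 hall⟩

theorem pole_mul (hw : ∀ c : ℂ, w (algebraMap ℂ K c) ≤ 1) {U W : Submodule ℂ K} (hU : U.FG)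
    (hU' : U ≠ ⊥) (hW : W.FG) (hW' : W ≠ ⊥) : pole (U * W) w = pole U w + pole W w := by
  obtain ⟨g, hg, hg0, h1, e1⟩ := exists_pole hw hU hU'
  obtain ⟨g', hg', hg0', h2, e2⟩ := exists_pole hw hW hW'
  rw [e1, e2, ← log_mul ((_root_.map_ne_zero w).2 hg0) ((_root_.map_ne_zero w).2 hg0'), ← map_mul]
  refine pole_eq (mul_mem_mul hg hg') (mul_ne_zero hg0 hg0') fun u hu => ?_
  refine Submodule.mul_induction_on hu (fun a ha b hb => ?_) fun a b ha hb => ?_
  · rw [map_mul, map_mul]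
    exact mul_le_mul' (h1 a ha) (h2 b hb)
  · exact (w.map_add a b).trans (max_le ha hb)

theorem pole_sc (hw : ∀ c : ℂ, w (algebraMap ℂ K c) ≤ 1) {q : K} (hq : q ≠ 0) :
    pole (sc ℂ q) w = log (w q) := by
  refine pole_eq (mem_sc q) hq fun u hu => ?_
  obtain ⟨c, rfl⟩ := mem_span_singleton.1 hu
  rw [Algebra.smul_def, map_mul]
  exact mul_le_of_le_one_left' (hw c)

theorem pole_pow (hw : ∀ c : ℂ, w (algebraMap ℂ K c) ≤ 1) {U : Submodule ℂ K} (hU : U.FG)
    (hU' : U ≠ ⊥) (m : ℕ) : pole (U ^ m) w = m * pole U w := by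
  induction m with
  | zero => rw [pow_zero, ← sc_one, pole_sc hw one_ne_zero, map_one, log_one]; simp
  | succ m ih =>
    rw [pow_succ, pole_mul hw (hU.pow m) (pow_ne_bot' hU' m) hU hU', ih]
    push_cast
    ring

theorem Dep.pole_le (hw : ∀ c : ℂ, w (algebraMap ℂ K c) ≤ 1) {U W : Submodule ℂ K} (hU : U.FG)
    (hU' : U ≠ ⊥) (hW : W.FG) (h : Dep U W) : pole U w ≤ pole W w := by
  obtain ⟨Z, hZ, hZ', h⟩ := h
  have hW' : W ≠ ⊥ := by
    rintro rfl
    rw [Submodule.bot_mul, le_bot_iff] at h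
    exact mul_ne_bot' hU' hZ' h
  obtain ⟨g, hg, hg0, -, e1⟩ := exists_pole hw (hU.mul hZ) (mul_ne_bot' hU' hZ')
  obtain ⟨g', -, hg0', h2, e2⟩ := exists_pole hw (hW.mul hZ) (mul_ne_bot' hW' hZ')
  have h3 := (log_le_log ((_root_.map_ne_zero w).2 hg0) ((_root_.map_ne_zero w).2 hg0')).2
    (h2 g (h hg))
  rw [← e1, ← e2, pole_mul hw hU hU' hZ hZ', pole_mul hw hW hW' hZ hZ'] at h3
  omega

theorem pole_pb (f : K →ₐ[ℂ] K) (U : Submodule ℂ K) :
    pole (pb f U) w = pole U (w.comap f) := by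
  unfold pole
  congr 1
  ext a
  constructor
  · rintro ⟨_, ⟨g, hg, rfl⟩, hg0, rfl⟩
    exact ⟨g, hg, fun h => hg0 (by rw [h, map_zero]), rfl⟩
  · rintro ⟨g, hg, hg0, rfl⟩
    exact ⟨f g, ⟨g, hg, rfl⟩, (_root_.map_ne_zero f).2 hg0, rfl⟩

end Pole

variable {n : ℕ}

/-- The set whose supremum is `lcan`. -/
def lset (δ : Fin n → Derivation ℂ K K) (w : Valuation K ℤᵐ⁰) : Set ℤ :=
  {a | ∃ u, ljac δ u ≠ 0 ∧ a = log (w (ljac δ u))}

theorem lcan_eq (δ : Fin n → Derivation ℂ K K) (w : Valuation K ℤᵐ⁰) :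
    lcan δ w = sSup (lset δ w) := rfl

omit [Algebra ℂ K] in
theorem exists_unif (w : Valuation K ℤᵐ⁰) : ∃ π : K, π ≠ 0 ∧ w π ≤ 1 ∧
    ∀ u : K, u ≠ 0 → ∃ (c : K) (r : ℤ), w c = 1 ∧ u = c * π ^ r := by
  have hne : ∀ {u : K}, u ≠ 0 → w u ≠ 0 := fun hu => (_root_.map_ne_zero w).2 hu
  let H : AddSubgroup ℤ :=
    { carrier := {a | ∃ u : K, u ≠ 0 ∧ a = log (w u)}
      add_mem' := by
        rintro _ _ ⟨u, hu, rfl⟩ ⟨v, hv, rfl⟩
        exact ⟨u * v, mul_ne_zero hu hv, by rw [map_mul, log_mul (hne hu) (hne hv)]⟩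
      zero_mem' := ⟨1, one_ne_zero, by rw [map_one, log_one]⟩
      neg_mem' := by
        rintro _ ⟨u, hu, rfl⟩
        exact ⟨u⁻¹, inv_ne_zero hu, by rw [map_inv₀, log_inv]⟩ }
  obtain ⟨a, ha⟩ := Int.subgroup_cyclic H
  have key : ∀ π : K, π ≠ 0 → (a = log (w π) ∨ a = -log (w π)) →
      ∀ u : K, u ≠ 0 → ∃ (c : K) (r : ℤ), w c = 1 ∧ u = c * π ^ r := by
    intro π hπ h u hu
    have h1 : log (w u) ∈ H := ⟨u, hu, rfl⟩
    rw [ha, AddSubgroup.mem_closure_singleton] at h1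
    obtain ⟨m, hm⟩ := h1
    obtain ⟨r, hr⟩ : ∃ r : ℤ, log (w u) = r • log (w π) := by
      rcases h with h | h
      · exact ⟨m, by rw [← hm, h]⟩
      · exact ⟨-m, by rw [← hm, h, smul_neg, neg_smul]⟩
    refine ⟨u / π ^ r, r, ?_, (div_mul_cancel₀ _ (zpow_ne_zero _ hπ)).symm⟩
    rw [← exp_log (hne (div_ne_zero hu (zpow_ne_zero r hπ))), map_div₀, map_zpow₀,
      log_div (hne hu) (zpow_ne_zero _ (hne hπ)), log_zpow, hr, sub_self, exp_zero]
  obtain ⟨π, hπ, h⟩ : a ∈ H := ha ▸ AddSubgroup.mem_closure_singleton_self a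
  rcases le_total (w π) 1 with h1 | h1
  · exact ⟨π, hπ, h1, key π hπ (Or.inl h)⟩
  · refine ⟨π⁻¹, inv_ne_zero hπ, ?_, key _ (inv_ne_zero hπ) (Or.inr ?_)⟩
    · rw [map_inv₀]
      exact inv_le_one_of_one_le₀ h1
    · rw [map_inv₀, log_inv, neg_neg, h]

/-- Sketch: the group of the `log (w u)`, `u ≠ 0`, is a subgroup of `ℤ`, hence cyclic
(`Int.subgroup_cyclic`): there is `π ≠ 0`, `w π ≤ 1`, such that each `u ≠ 0` is `c * π^r` with
`w c = 1`, `r : ℤ`. Then `π * (δ u / u) = (π / c) δ c + r δ π`. Expand the determinant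
multilinearly in the columns (`MultilinearMap.map_add_univ` for `Matrix.detRowAlternating` and the
transposed matrix): `w (π^n * ljac δ u) ≤ w ϖ`. -/
theorem bddAbove_lset (δ : Fin n → Derivation ℂ K K) {w : Valuation K ℤᵐ⁰}
    (hw : ∀ c : ℂ, w (algebraMap ℂ K c) ≤ 1) {ϖ : K}
    (h : ∀ u : Fin n → K, (∀ a, w (u a) ≤ 1) → w (Matrix.of fun a b => δ a (u b)).det ≤ w ϖ) :
    BddAbove (lset δ w) := by
  classical
  obtain ⟨π, hπ0, hπ, hu⟩ := exists_unif w
  refine ⟨log (w ϖ) - n * log (w π), ?_⟩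
  rintro _ ⟨u, hu0, rfl⟩
  have hb : ∀ b, u b ≠ 0 := fun b hb => hu0 (Matrix.det_eq_zero_of_column_eq_zero b fun a => by
    rw [Matrix.of_apply, hb, div_zero])
  choose c r hc hcr using fun b => hu (u b) (hb b)
  have hc0 : ∀ b, c b ≠ 0 := fun b h0 => by
    have := hc b
    rw [h0, map_zero] at this
    exact zero_ne_one this
  have e1 : π ^ n * ljac δ u = Matrix.detRowAlternating
      ((fun b => (π / c b) • fun a => δ a (c b)) + fun b => ((r b : K)) • fun a => δ a π) := by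
    have e2 := Matrix.det_mul_row (fun _ : Fin n => π) (Matrix.of fun a b => δ a (u b) / u b)
    rw [Finset.prod_const, Finset.card_univ, Fintype.card_fin] at e2
    rw [ljac, ← e2, ← Matrix.det_transpose]
    refine congrArg Matrix.det ?_
    ext b a
    have h1 := hc0 b
    have h2 : π ^ r b ≠ 0 := zpow_ne_zero _ hπ0
    simp only [Matrix.transpose_apply, Matrix.of_apply, Pi.add_apply, Pi.smul_apply, smul_eq_mul]
    rw [hcr b, Derivation.leibniz, Derivation.leibniz_zpow, zpow_sub_one₀ hπ0]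
    simp only [smul_eq_mul, zsmul_eq_mul]
    field_simp
    ring
  have e3 : w (π ^ n * ljac δ u) ≤ w ϖ := by
    rw [e1, AlternatingMap.map_add_univ]
    refine w.map_sum_le fun s _ => ?_
    have e4 : s.piecewise (fun b => (π / c b) • fun a => δ a (c b))
        (fun b => ((r b : K)) • fun a => δ a π) =
        fun b => s.piecewise (fun b => π / c b) (fun b => (r b : K)) b •
          fun a => δ a (s.piecewise c (fun _ => π) b) := by
      funext b
      by_cases hs : b ∈ s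
      · simp only [Finset.piecewise_eq_of_mem _ _ _ hs]
      · simp only [Finset.piecewise_eq_of_notMem _ _ _ hs]
    rw [e4, AlternatingMap.map_smul_univ, smul_eq_mul, map_mul, map_prod]
    refine (mul_le_of_le_one_left' (Finset.prod_le_one' fun b _ => ?_)).trans ?_
    · by_cases hs : b ∈ s
      · rw [Finset.piecewise_eq_of_mem _ _ _ hs, map_div₀, hc, div_one]
        exact hπ
      · rw [Finset.piecewise_eq_of_notMem _ _ _ hs, ← map_intCast (algebraMap ℂ K)]
        exact hw _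
    · have := h (s.piecewise c fun _ => π) fun b => by
        by_cases hs : b ∈ s
        · rw [Finset.piecewise_eq_of_mem _ _ _ hs, hc]
        · rw [Finset.piecewise_eq_of_notMem _ _ _ hs]
          exact hπ
      rwa [← Matrix.det_transpose] at this
  have h1 : w (π ^ n * ljac δ u) ≠ 0 :=
    (_root_.map_ne_zero w).2 (mul_ne_zero (pow_ne_zero _ hπ0) hu0)
  have h2 := (log_le_log h1 fun h0 => h1 (le_zero_iff.1 (h0 ▸ e3))).2 e3
  rw [map_mul, map_pow, log_mul (pow_ne_zero _ ((_root_.map_ne_zero w).2 hπ0))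
    ((_root_.map_ne_zero w).2 hu0), log_pow, nsmul_eq_mul] at h2
  linarith

/-- Sketch: if the determinant vanishes, a nontrivial combination of the `δ a` kills all `τ b`
(`Matrix.exists_vecMul_eq_zero_iff`), so it is zero by `TCI.der_eq_zero`. -/
theorem jac_ne_zero {δ : Fin n → Derivation ℂ K K} (hδ : LinearIndependent K δ) {τ : Fin n → K}
    (hτ : IsTranscendenceBasis ℂ τ) : (Matrix.of fun a b => δ a (τ b)).det ≠ 0 := by
  intro h0
  obtain ⟨v, hv, h⟩ := Matrix.exists_vecMul_eq_zero_iff.2 h0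
  refine hv (funext (Fintype.linearIndependent_iff.1 hδ v (TCI.der_eq_zero τ hτ _ fun b => ?_)))
  rw [TCI.Der2_sum]
  exact congrFun h b

theorem chain_rule {E : Type} [Field E] [Algebra ℂ E] {τ : Fin n → K}
    (hτ : IsTranscendenceBasis ℂ τ) {d : Fin n → Derivation ℂ K K}
    (hd : ∀ a b, d a (τ b) = if a = b then 1 else 0) (δ : Derivation ℂ E E) (f : K →ₐ[ℂ] E)
    (u : K) : δ (f u) = ∑ b, δ (f (τ b)) * f (d b u) := by
  let _ : Algebra K E := f.toRingHom.toAlgebra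
  have : IsScalarTower ℂ K E := IsScalarTower.of_algebraMap_eq fun c => (f.commutes c).symm
  have h0 := TCI.der_eq_zero τ hτ (δ.compAlgebraMap K -
    ∑ b, δ (f (τ b)) • (Algebra.linearMap K E).compDer (d b)) fun a => by
      rw [Derivation.sub_apply, TCI.Der2_sum, Finset.sum_eq_single a]
      · change δ (f (τ a)) - δ (f (τ a)) * f (d a (τ a)) = 0
        rw [hd, if_pos rfl, map_one, mul_one, sub_self]
      · intro b _ hb
        change δ (f (τ b)) * f (d b (τ a)) = 0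
        rw [hd, if_neg hb, map_zero, mul_zero]
      · exact fun h => absurd (Finset.mem_univ a) h
  have h1 := congrArg (fun D : Derivation ℂ K E => D u) h0
  simp only [Derivation.sub_apply, TCI.Der2_sum, Derivation.zero_apply] at h1
  exact sub_eq_zero.1 h1

theorem ljac_chain {τ : Fin n → K} (hτ : IsTranscendenceBasis ℂ τ) {d : Fin n → Derivation ℂ K K}
    (hd : ∀ a b, d a (τ b) = if a = b then 1 else 0) (δ : Fin n → Derivation ℂ K K)
    (f : K →ₐ[ℂ] K) (u : Fin n → K) :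
    ljac δ (fun b => f (u b)) = (Matrix.of fun a b => δ a (f (τ b))).det * f (ljac d u) := by
  rw [ljac, ljac, AlgHom.map_det, ← Matrix.det_mul]
  congr 1
  ext a b
  rw [Matrix.mul_apply, Matrix.of_apply, chain_rule hτ hd, Finset.sum_div]
  refine Finset.sum_congr rfl fun c _ => ?_
  simp only [Matrix.of_apply, AlgHom.mapMatrix_apply, Matrix.map_apply, map_div₀, mul_div_assoc]

/-- Chain rule. Sketch: let `τ` be a transcendence basis with dual derivations `d`
(`TCI.exists_trBasis`, `TCI.exists_dual`). The map `u ↦ δ a (f u) - ∑ b, δ a (f (τ b)) * f (d b u)`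
is a derivation with values in `K` as a module through `f` and kills `τ`, so it vanishes: either
`TCI.der_eq_zero` for a copy of `K` with `Module.compHom`, or directly: it vanishes on
`ℂ(τ)` by induction, and on algebraic elements by differentiating the minimal polynomial.
Then `jac (f u) = jac (f τ) * f (det (d u))`, `jac u = jac τ * det (d u)` (`TCI.det_der_expand`),
`J = jac (f τ) / f (jac τ)`, and `f τ` is a transcendence basis (`TCI.isTrBasis_of_card`). -/
theorem exists_J (dim : Algebra.trdeg ℂ K = n) {δ : Fin n → Derivation ℂ K K}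
    (hδ : LinearIndependent K δ) (f : K →ₐ[ℂ] K) :
    ∃ J : K, J ≠ 0 ∧ ∀ u : Fin n → K, ljac δ (fun b => f (u b)) = J * f (ljac δ u) := by
  obtain ⟨τ, hτ⟩ := TCI.exists_trBasis dim
  obtain ⟨d, hd⟩ := TCI.exists_dual τ hτ
  have hfτ : IsTranscendenceBasis ℂ fun b => f (τ b) :=
    TCI.isTrBasis_of_card _ (hτ.1.map' (f := f) f.toRingHom.injective) (by simp [dim])
  have h1 := jac_ne_zero hδ hτ
  refine ⟨(Matrix.of fun a b => δ a (f (τ b))).det / f (Matrix.of fun a b => δ a (τ b)).det,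
    div_ne_zero (jac_ne_zero hδ hfτ) ((_root_.map_ne_zero f).2 h1), fun u => ?_⟩
  have h2 := ljac_chain hτ hd δ (AlgHom.id ℂ K) u
  simp only [AlgHom.id_apply] at h2
  have h3 := (_root_.map_ne_zero f).2 h1
  rw [ljac_chain hτ hd δ f u, h2, map_mul]
  field_simp

theorem lset_nonempty (dim : Algebra.trdeg ℂ K = n) {δ : Fin n → Derivation ℂ K K}
    (hδ : LinearIndependent K δ) (w : Valuation K ℤᵐ⁰) : (lset δ w).Nonempty := by
  obtain ⟨τ, hτ⟩ := TCI.exists_trBasis dim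
  refine ⟨_, τ, ?_, rfl⟩
  have e := Matrix.det_mul_row (fun b => (τ b)⁻¹) (Matrix.of fun a b => δ a (τ b))
  simp only [Matrix.of_apply, ← div_eq_inv_mul] at e
  rw [ljac, e]
  exact mul_ne_zero (Finset.prod_ne_zero_iff.2 fun b _ => inv_ne_zero (hτ.1.ne_zero b))
    (jac_ne_zero hδ hτ)

theorem lcan_comap_le (dim : Algebra.trdeg ℂ K = n) {δ : Fin n → Derivation ℂ K K}
    (hδ : LinearIndependent K δ) {f : K →ₐ[ℂ] K} {J : K} (hJ0 : J ≠ 0)
    (hJ : ∀ u : Fin n → K, ljac δ (fun b => f (u b)) = J * f (ljac δ u)) {w : Valuation K ℤᵐ⁰}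
    (hw : BddAbove (lset δ w)) : lcan δ (w.comap f) ≤ lcan δ w - log (w J) := by
  refine csSup_le (lset_nonempty dim hδ _) ?_
  rintro _ ⟨u, hu, rfl⟩
  have h1 := (_root_.map_ne_zero f).2 hu
  have h2 : log (w (ljac δ fun b => f (u b))) ≤ lcan δ w :=
    le_csSup hw ⟨_, hJ u ▸ mul_ne_zero hJ0 h1, rfl⟩
  rw [hJ, map_mul, log_mul ((_root_.map_ne_zero w).2 hJ0) ((_root_.map_ne_zero w).2 h1)] at h2
  exact le_sub_iff_add_le'.2 h2

theorem exists_sep_poly {t : Fin n → K} (ht : IsTranscendenceBasis ℂ t) (a : K) :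
    ∃ p : Polynomial (MvPolynomial (Fin n) ℂ), p.eval₂ (MvPolynomial.aeval t).toRingHom a = 0 ∧
      p.derivative.eval₂ (MvPolynomial.aeval t).toRingHom a ≠ 0 := by
  classical
  have hex : ∃ m, ∃ p : Polynomial (MvPolynomial (Fin n) ℂ), p ≠ 0 ∧
      p.eval₂ (MvPolynomial.aeval t).toRingHom a = 0 ∧ p.natDegree = m := by
    let _ : Algebra (MvPolynomial (Fin n) ℂ) K := (MvPolynomial.aeval t).toRingHom.toAlgebra
    obtain ⟨p, hp, h0⟩ : IsAlgebraic (MvPolynomial (Fin n) ℂ) a :=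
      (isAlgebraic_ringHom_iff_of_comp_eq ht.1.aevalEquiv.toRingEquiv (RingHom.id K)
        Function.injective_id (RingHom.ext fun x => ht.1.algebraMap_aevalEquiv x)).1
        (ht.isAlgebraic.isAlgebraic a)
    exact ⟨_, p, hp, h0, rfl⟩
  obtain ⟨p, hp, h0, hm⟩ := Nat.find_spec hex
  refine ⟨p, h0, fun h1 => ?_⟩
  have hd : p.natDegree ≠ 0 := fun hd => by
    rw [Polynomial.eq_C_of_natDegree_eq_zero hd, Polynomial.eval₂_C] at h0
    refine hp ?_
    rw [Polynomial.eq_C_of_natDegree_eq_zero hd, algebraicIndependent_iff.1 ht.1 _ h0, map_zero]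
  refine Nat.find_min hex (hm ▸ Polynomial.natDegree_derivative_lt hd) ⟨_, fun h2 => hd ?_, h1, rfl⟩
  exact Polynomial.derivative_eq_zero.1 h2

/-- Equations with independent differentials. Sketch: choose a transcendence basis `t` among the
`v l` (`exists_isTranscendenceBasis_subset`), indexed by `Fin n`. For each `l` take a nonzero
polynomial of minimal degree over `ℂ[t]` that kills `v l`; its derivative does not kill `v l`
(characteristic zero). Write it as `G l ∈ ℂ[T, Y]`, involving only `T` and `Y l`. The Jacobian has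
the diagonal block `∂ G l / ∂ Y l ≠ 0`. -/
theorem exists_equations (dim : Algebra.trdeg ℂ K = n) {r : ℕ} (v : Fin r → K)
    (gen : IntermediateField.adjoin ℂ (Set.range v) = ⊤) :
    ∃ (s : Fin n → Fin r) (G : Fin r → MvPolynomial (Fin n ⊕ Fin r) ℂ),
      (∀ i, MvPolynomial.aeval (Sum.elim (v ∘ s) v) (G i) = 0) ∧
        LinearIndependent K fun i => TCI.jac G (Sum.elim (v ∘ s) v) i := by
  classical
  have halg : Algebra.IsAlgebraic (Algebra.adjoin ℂ (Set.range v)) K := by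
    rw [← IntermediateField.isAlgebraic_adjoin_iff_top, gen, Algebra.isAlgebraic_iff_isIntegral]
    exact Algebra.isIntegral_of_surjective IntermediateField.topEquiv.surjective
  obtain ⟨t, ht, hb⟩ := exists_isTranscendenceBasis_subset (R := ℂ) (Set.range v)
  have hc := hb.cardinalMk_eq_trdeg
  rw [dim, ← Cardinal.mk_fin, Cardinal.eq] at hc
  obtain ⟨e⟩ := hc
  choose s hs using fun a : Fin n => ht (e.symm a).2
  have hτ : IsTranscendenceBasis ℂ (v ∘ s) := by
    rw [show v ∘ s = Subtype.val ∘ e.symm from funext hs]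
    exact (isTranscendenceBasis_equiv e.symm).2 hb
  choose p hp hp' using fun l => exists_sep_poly hτ (v l)
  let ι : MvPolynomial (Fin n) ℂ →+* MvPolynomial (Fin n ⊕ Fin r) ℂ :=
    (MvPolynomial.rename Sum.inl).toRingHom
  have e1 : ∀ (l : Fin r) (P : Polynomial (MvPolynomial (Fin n) ℂ)),
      MvPolynomial.aeval (Sum.elim (v ∘ s) v) (P.eval₂ ι (MvPolynomial.X (Sum.inr l))) =
        P.eval₂ (MvPolynomial.aeval (v ∘ s)).toRingHom (v l) := by
    intro l P
    have := Polynomial.hom_eval₂ P ι (MvPolynomial.aeval (Sum.elim (v ∘ s) v)).toRingHom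
      (MvPolynomial.X (Sum.inr l))
    refine this.trans ?_
    congr 1
    · refine RingHom.ext fun c => ?_
      exact MvPolynomial.aeval_rename _ _ c
    · exact MvPolynomial.aeval_X _ _
  have e2 : ∀ (j : Fin r) (c : MvPolynomial (Fin n) ℂ),
      MvPolynomial.pderiv (Sum.inr j) (ι c) = 0 := by
    intro j c
    induction c using MvPolynomial.induction_on with
    | C a => simp [ι]
    | add a b ha hb => rw [map_add, map_add, ha, hb, add_zero]
    | mul_X a i ha =>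
      rw [map_mul, MvPolynomial.pderiv_mul, ha, zero_mul, zero_add]
      simp [ι]
  have e3 : ∀ (j l : Fin r) (P : Polynomial (MvPolynomial (Fin n) ℂ)),
      MvPolynomial.pderiv (Sum.inr j) (P.eval₂ ι (MvPolynomial.X (Sum.inr l))) =
        if l = j then P.derivative.eval₂ ι (MvPolynomial.X (Sum.inr l)) else 0 := by
    intro j l P
    induction P using Polynomial.induction_on' with
    | add a b ha hb =>
      rw [Polynomial.eval₂_add, map_add, ha, hb, map_add, Polynomial.eval₂_add]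
      split_ifs <;> simp
    | monomial m c =>
      rw [Polynomial.eval₂_monomial, MvPolynomial.pderiv_mul, e2, zero_mul, zero_add,
        MvPolynomial.pderiv_pow, Polynomial.derivative_monomial, Polynomial.eval₂_monomial]
      split_ifs with h
      · rw [h, MvPolynomial.pderiv_X_self, map_mul, map_natCast]
        ring
      · rw [MvPolynomial.pderiv_X_of_ne (fun h' => h (Sum.inr_injective h')), mul_zero, mul_zero]
  refine ⟨s, fun l => (p l).eval₂ ι (MvPolynomial.X (Sum.inr l)), fun l => (e1 l _).trans (hp l),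
    Fintype.linearIndependent_iff.2 fun g hg l => ?_⟩
  have h1 := congrFun hg (Sum.inr l)
  rw [Finset.sum_apply, Finset.sum_eq_single l] at h1
  · rw [Pi.smul_apply, TCI.jac, Matrix.of_apply, e3, if_pos rfl, e1, smul_eq_mul] at h1
    exact (mul_eq_zero.1 h1).resolve_right (hp' l)
  · intro i _ hi
    rw [Pi.smul_apply, TCI.jac, Matrix.of_apply, e3, if_neg hi, map_zero, smul_zero]
  · exact fun h => absurd (Finset.mem_univ l) h

/-- Sketch: `TCI.thmW` for `Sum.elim (v ∘ s) v` with `exists_equations`, `TCI.exists_varpi`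
(`TCI.der_aeval` gives `jac * (δ v)ᵀ = 0`), `TCI.res_indep` with `X = Empty`, `bddAbove_lset`. -/
theorem hartogs_chart (dim : Algebra.trdeg ℂ K = n) (δ : Fin n → Derivation ℂ K K) {r : ℕ}
    (v : Fin r → K) (gen : IntermediateField.adjoin ℂ (Set.range v) = ⊤) (Φ : K)
    (h : ∀ w : Valuation K ℤᵐ⁰, (∀ c : ℂ, w (algebraMap ℂ K c) ≤ 1) → (∀ l, w (v l) ≤ 1) →
      (∃ s : Fin (n - 1) → Fin r, ∀ Q : MvPolynomial (Fin (n - 1)) ℂ, Q ≠ 0 →
        w (MvPolynomial.aeval (fun i => v (s i)) Q) = 1) → BddAbove (lset δ w) → w Φ ≤ 1) :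
    IsIntegral (Algebra.adjoin ℂ (Set.range v)) Φ := by
  classical
  obtain ⟨s, G, hG, hli⟩ := exists_equations dim v gen
  have hr : Set.range (Sum.elim (v ∘ s) v) = Set.range v := by
    rw [Set.Sum.elim_range, Set.union_eq_right]
    exact Set.range_comp_subset_range s v
  obtain ⟨ϖ, hϖ⟩ := TCI.exists_varpi (Equiv.refl _)
    (Matrix.of fun a l => δ a (Sum.elim (v ∘ s) v l)) (TCI.jac G (Sum.elim (v ∘ s) v)) hli (by
      ext i a
      have := TCI.der_aeval (δ a) (Sum.elim (v ∘ s) v) (G i)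
      rw [hG, map_zero] at this
      exact this.symm)
  rw [← hr]
  refine TCI.thmW (Equiv.refl _) _ (hr ▸ gen) (by simp [dim]) G hG δ ϖ hϖ Φ fun w hw => ?_
  refine h w hw.base (fun l => hw.gens (Sum.inr l)) ?_ (bddAbove_lset δ hw.base hw.form)
  obtain ⟨i, T, hT⟩ := hw.res
  obtain ⟨s', hs'⟩ := TCI.res_indep w hw.base _ _ (Empty.elim : Empty → K) hw.gens hw.gens
    (fun j => j.elim) (fun l => ⟨1, Empty.elim, one_pos, by simp⟩) T hT (d := n - 1) (by simp)
  refine ⟨fun a => Sum.elim s id (s' a), fun Q hQ => ?_⟩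
  rw [← hs' Q hQ]
  congr 3
  funext a
  beta_reduce
  cases s' a <;> rfl

/-- Sketch: by `dep_of_forall` take `φ ∈ U`, `φ ≠ 0`. Let `l i` generate `L`. For each `g = l j ≠ 0`
apply `hartogs_chart` to `v i = l i / g`, `Φ = φ / g^N` (`Bir.adjoin_eq_top`, `pole_eq`,
`exists_pole`). With `x = span (range v) = sc g⁻¹ * L`, `dep_of_isIntegral` gives
`Dep (sc (φ g^c)) (L^(N+c))` for all large `c`. Take a common `c > 0`, `dep_span`,
`pow_le_span_pow`, `Dep.cancel`. -/
theorem hartogs (dim : Algebra.trdeg ℂ K = n) (δ : Fin n → Derivation ℂ K K) {L : Submodule ℂ K}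
    (hL : Bir L) {U : Submodule ℂ K} (hU : U.FG) (hU' : U ≠ ⊥) (N : ℕ)
    (h : ∀ w, OnModel n L w → BddAbove (lset δ w) → pole U w ≤ N * pole L w) :
    Dep U (L ^ N) := by
  classical
  refine dep_of_forall hU fun φ hφ => ?_
  obtain ⟨r, l, hl⟩ := fg_iff_exists_fin_generating_family.1 hL.1
  have hlm : ∀ i, l i ∈ L := fun i => hl ▸ subset_span ⟨i, rfl⟩
  have key : ∀ j, ∃ c : ℕ, ∀ c' ≥ c, Dep (sc ℂ (φ * l j ^ (c' + 1))) (L ^ N * L ^ (c' + 1)) := by
    intro j
    by_cases hg0 : l j = 0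
    · refine ⟨0, fun c' _ => Dep.of_le (sc_le.2 ?_)⟩
      rw [hg0, zero_pow c'.succ_ne_zero, mul_zero]
      exact zero_mem _
    have hx : span ℂ (Set.range fun i => l i / l j) = sc ℂ (l j)⁻¹ * L := by
      rw [← hl, sc, span_mul_span, Set.singleton_mul, ← Set.range_comp]
      simp only [div_eq_inv_mul]
      rfl
    have hmem : ∀ a ∈ L, a / l j ∈ span ℂ (Set.range fun i => l i / l j) := fun a ha => by
      rw [hx, div_eq_inv_mul]
      exact mul_mem_mul (mem_sc _) ha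
    have hint := hartogs_chart dim δ (fun i => l i / l j) (by
      rw [eq_top_iff, ← hL.adjoin_eq_top (hlm j) hg0, IntermediateField.adjoin_le_iff]
      rintro _ ⟨a, ha, rfl⟩
      exact span_le (p := (IntermediateField.adjoin ℂ _).toSubalgebra.toSubmodule).2
        (IntermediateField.subset_adjoin _ _) (hmem a ha)) (φ / l j ^ N) fun w hw hv hs hb => by
      have hg : w (l j) ≠ 0 := (_root_.map_ne_zero w).2 hg0
      have hmax : ∀ a ∈ L, w a ≤ w (l j) := fun a ha => by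
        have := TCI.val_le_one_of_mem_adjoin w hw (T := Set.range fun i => l i / l j)
          (by rintro _ ⟨i, rfl⟩; exact hv i) (Algebra.span_le_adjoin _ _ (hmem a ha))
        rwa [map_div₀, div_le_one₀ (zero_lt_iff.2 hg)] at this
      obtain ⟨s, hs⟩ := hs
      have h1 := h w ⟨hw, l j, hlm j, hmax, fun i => l (s i), fun i => hlm _, hs⟩ hb
      obtain ⟨g, -, hg0', h2, e⟩ := exists_pole hw hU hU'
      rw [e, pole_eq (hlm j) hg0 hmax, ← nsmul_eq_mul, ← log_pow,
        log_le_log ((_root_.map_ne_zero w).2 hg0') (pow_ne_zero _ hg)] at h1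
      rw [map_div₀, map_pow, div_le_one₀ (zero_lt_iff.2 (pow_ne_zero _ hg))]
      exact (h2 φ hφ).trans h1
    rw [← Algebra.adjoin_span] at hint
    obtain ⟨c, hc⟩ := dep_of_isIntegral (by simpa [hg0] using hmem _ (hlm j)) hint
    refine ⟨c, fun c' hc' => ?_⟩
    have h1 := (hc (c' + 1) (by omega)).mul (Dep.rfl (U := sc ℂ (l j ^ (N + (c' + 1)))))
    rw [← sc_mul, hx, mul_pow, ← sc_pow, mul_right_comm, ← sc_mul] at h1
    rw [show φ * l j ^ (c' + 1) = φ / l j ^ N * l j ^ (N + (c' + 1)) by field_simp; ring]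
    refine h1.trans (Dep.of_le (mul_le_mul_left (sc_le.2 ?_) _))
    rw [pow_add (l j) N, mul_left_comm, ← mul_pow, inv_mul_cancel₀ hg0, one_pow, mul_one]
    exact Submodule.pow_mem_pow _ (hlm j) N
  choose c hc using key
  obtain ⟨m, hm⟩ := pow_le_span_pow (k := ℂ) (Finset.univ.image l)
    (Nat.succ_pos (Finset.univ.sup c))
  rw [Finset.coe_image, Finset.coe_univ, Set.image_univ, hl] at hm
  have h1 : Dep (sc ℂ φ * span ℂ ((fun a => a ^ (Finset.univ.sup c).succ) '' Set.range l))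
      (L ^ N * L ^ (Finset.univ.sup c + 1)) := by
    rw [sc, span_mul_span]
    refine dep_span ((Set.finite_singleton _).mul ((Set.finite_range l).image _)) ?_
    rintro _ ⟨_, rfl, _, ⟨_, ⟨j, rfl⟩, rfl⟩, rfl⟩
    exact hc j _ (Finset.le_sup (f := c) (Finset.mem_univ j))
  refine Dep.cancel (Y := L ^ (m + (Finset.univ.sup c).succ)) ?_ (hL.1.pow _)
    (pow_ne_bot' hL.2.1 _)
  refine (Dep.of_le (mul_le_mul_right hm _)).trans ?_
  rw [← mul_assoc, add_comm m, pow_add, ← mul_assoc]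
  exact h1.mul Dep.rfl

/-- Sketch: `hartogs` for `U * L` and the birational system `W * L` with `N = 1`; `Dep.cancel`. -/
theorem dep_of_pole_le (dim : Algebra.trdeg ℂ K = n) (δ : Fin n → Derivation ℂ K K)
    {L : Submodule ℂ K} (hL : Bir L) {U W : Submodule ℂ K} (hU : U.FG) (hU' : U ≠ ⊥) (hW : W.FG)
    (hW' : W ≠ ⊥) (h : ∀ w : Valuation K ℤᵐ⁰, (∀ c : ℂ, w (algebraMap ℂ K c) ≤ 1) →
      pole U w ≤ pole W w) : Dep U W := by
  have hb : Bir (W * L) := mul_comm L W ▸ hL.mul hW hW'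
  refine Dep.cancel (Y := L) ?_ hL.1 hL.2.1
  rw [← pow_one (W * L)]
  refine hartogs dim δ hb (hU.mul hL.1) (mul_ne_bot' hU' hL.2.1) 1 fun w hw _ => ?_
  have := h w hw.1
  rw [pole_mul hw.1 hU hU' hL.1 hL.2.1, pole_mul hw.1 hW hW' hL.1 hL.2.1]
  push_cast
  omega

/-- The pull-back of `M - N` is bounded by `M - N`. Sketch: `sc ψ * pb f L ≤ L^c` by `hL`. Write
`J^q = J₁`. For a good `w` and `w' = w.comap f`: `pole V w' + m pole N w' ≤ m pole M w' + κ pole L w'`
(`Dep.pole_le`), `pole M w' - pole N w' ≤ pole M w - pole N w - q log (w J)` (`dyn`,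
`lcan_comap_le`), `log (w ψ) + pole L w' ≤ c pole L w`. So `hartogs` applies to
`U = sc (J^(q m) ψ^κ) * pb f V * N^m * N^m` and the exponent `m + c κ`; cancel `N^m`. -/
theorem dep_pb (dim : Algebra.trdeg ℂ K = n) {δ : Fin n → Derivation ℂ K K}
    (hδ : LinearIndependent K δ) {M N : Submodule ℂ K} (hM : M.FG) (hM' : M ≠ ⊥) (hN : N.FG)
    (hN' : N ≠ ⊥) (hL : Bir (M * N)) (q : ℕ) (f : K →ₐ[ℂ] K)
    (dyn : ∀ w, OnModel n (M * N) w → logDisc δ q M N w ≤ logDisc δ q M N (w.comap f)) :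
    ∃ c : ℕ, ∀ (V : Submodule ℂ K) (m κ : ℕ), V.FG → V ≠ ⊥ →
      Dep (V * N ^ m) (M ^ m * (M * N) ^ κ) →
        ∃ ψ : K, ψ ≠ 0 ∧ Dep (sc ℂ ψ * pb f V * N ^ m) (M ^ m * (M * N) ^ (c * κ)) := by
  obtain ⟨c, ψ, -, hψ, hc⟩ := hL.2.2 _ (pb_fg f hL.1)
  obtain ⟨J, hJ0, hJ⟩ := exists_J dim hδ f
  refine ⟨c, fun V m κ hV hV' hd => ?_⟩
  have h0 : J ^ (q * m) * ψ ^ κ ≠ 0 := mul_ne_zero (pow_ne_zero _ hJ0) (pow_ne_zero _ hψ)
  refine ⟨_, h0, Dep.cancel (Y := N ^ m) ?_ (hN.pow m) (pow_ne_bot' hN' m)⟩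
  rw [show M ^ m * (M * N) ^ (c * κ) * N ^ m = (M * N) ^ (m + c * κ) by ring]
  have f1 := (sc_fg (k := ℂ) (J ^ (q * m) * ψ ^ κ)).mul (pb_fg f hV)
  have n1 := mul_ne_bot' (sc_ne (k := ℂ) h0) (pb_ne f hV')
  have f2 := hN.pow m
  have n2 := pow_ne_bot' hN' m
  refine hartogs dim δ hL ((f1.mul f2).mul f2) (mul_ne_bot' (mul_ne_bot' n1 n2) n2) _
    fun w hw hb => ?_
  have hw' : ∀ c : ℂ, w.comap f (algebraMap ℂ K c) ≤ 1 := fun c => by
    change w (f (algebraMap ℂ K c)) ≤ 1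
    rw [f.commutes]
    exact hw.1 c
  have h1 := hd.pole_le hw' (hV.mul f2) (mul_ne_bot' hV' n2) ((hM.pow _).mul (hL.1.pow _))
  rw [pole_mul hw' hV hV' f2 n2, pole_mul hw' (hM.pow _) (pow_ne_bot' hM' _) (hL.1.pow _)
    (pow_ne_bot' hL.2.1 _), pole_pow hw' hN hN', pole_pow hw' hM hM',
    pole_pow hw' hL.1 hL.2.1] at h1
  have h2 := dyn w hw
  have h3 := lcan_comap_le dim hδ hJ0 hJ hb
  have h4 := (Dep.of_le hc).pole_le hw.1 ((sc_fg ψ).mul (pb_fg f hL.1))
    (mul_ne_bot' (sc_ne hψ) (pb_ne f hL.2.1)) (hL.1.pow c)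
  rw [pole_mul hw.1 (sc_fg ψ) (sc_ne hψ) (pb_fg f hL.1) (pb_ne f hL.2.1), pole_sc hw.1 hψ, pole_pb,
    pole_pow hw.1 hL.1 hL.2.1] at h4
  have h5 := pole_mul hw.1 hM hM' hN hN'
  rw [logDisc, logDisc] at h2
  rw [pole_mul hw.1 (f1.mul f2) (mul_ne_bot' n1 n2) f2 n2, pole_mul hw.1 f1 n1 f2 n2,
    pole_mul hw.1 (sc_fg _) (sc_ne h0) (pb_fg f hV) (pb_ne f hV'), pole_sc hw.1 h0, pole_pb,
    pole_pow hw.1 hN hN', map_mul, map_pow, map_pow,
    log_mul (pow_ne_zero _ ((_root_.map_ne_zero w).2 hJ0))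
      (pow_ne_zero _ ((_root_.map_ne_zero w).2 hψ)), log_pow, log_pow, nsmul_eq_mul, nsmul_eq_mul]
  have h6 := mul_le_mul_of_nonneg_left h3 (Int.natCast_nonneg q)
  have h7 : pole M (w.comap f) - pole N (w.comap f) ≤ pole M w - pole N w - q * log (w J) := by
    linarith
  have h8 := mul_le_mul_of_nonneg_left h7 (Int.natCast_nonneg m)
  have h9 := mul_le_mul_of_nonneg_left h4 (Int.natCast_nonneg κ)
  have h10 : (m : ℤ) * pole (M * N) w = m * pole M w + m * pole N w := by rw [h5, mul_add]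
  push_cast
  linarith

end Pool.Agent.Lib.MP_bc213e_ag.Dyn
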