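import Pool.Agent.Lib.MP_bc213e_ag.Dyn.LemS

/-!
Intersection numbers of big linear systems.
-/

namespace Pool.Agent.Lib.MP_bc213e_ag.Dyn

open Submodule Module Filter

section

variable {S : Type} [CommMonoid S]

/-- One difference. -/
def dOp (x : S) (h : S → ℤ) : S → ℤ := fun W => h (x * W) - h W

theorem dOp_comm : LeftCommutative (dOp : S → (S → ℤ) → S → ℤ) :=
  ⟨fun x y h => by
    funext W
    simp only [dOp, mul_left_comm x y W]
    ring⟩

/-- Mixed differences. -/
def difM (T : Multiset S) (h : S → ℤ) : S → ℤ := @Multiset.foldr _ _ dOp dOp_comm h T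

theorem difM_zero (h : S → ℤ) : difM 0 h = h := rfl

theorem difM_cons (x : S) (T : Multiset S) (h : S → ℤ) (W : S) :
    difM (x ::ₘ T) h W = difM T h (x * W) - difM T h W :=
  congrFun (@Multiset.foldr_cons _ _ dOp dOp_comm h x T) W

theorem difM_cons' (x : S) (T : Multiset S) (h : S → ℤ) :
    difM (x ::ₘ T) h = difM T (dOp x h) := by
  induction T using Multiset.induction_on with
  | empty => funext W; rw [difM_cons, difM_zero, difM_zero, dOp]
  | cons y T ih =>
    funext W
    rw [Multiset.cons_swap, difM_cons, ih, difM_cons]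

/-- Transport of differences along a monoid homomorphism. Sketch: induction on `T` generalizing
`U`; `y * (P r * U) = P r * (y * U)`. -/
theorem difM_transport {S' : Type} [CommMonoid S'] (φ : S →* S') (x : S) (h : S → ℤ) (h' : S' → ℤ)
    (p : S → Prop) (P : ℕ → S) (T : Multiset S) (hT : ∀ y ∈ T, ∀ U, p U → p (y * U))
    (H : ∀ U, p U → ∀ᶠ r in atTop, h (P r * U) = h' (φ (x * (P r * U)))) (U : S) (hU : p U) :
    ∀ᶠ r in atTop, difM T h (P r * U) = difM (T.map φ) h' (φ (x * (P r * U))) := by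
  induction T using Multiset.induction_on generalizing U with
  | empty => exact H U hU
  | cons y T ih =>
    have hT' : ∀ z ∈ T, ∀ U, p U → p (z * U) := fun z hz => hT z (Multiset.mem_cons_of_mem hz)
    filter_upwards [ih hT' U hU, ih hT' _ (hT y (Multiset.mem_cons_self _ _) U hU)] with r h1 h2
    rw [Multiset.map_cons, difM_cons, difM_cons, h1, mul_left_comm y, h2, ← map_mul,
      mul_left_comm y, mul_left_comm y]

end

variable {k K : Type} [Field k] [Field K] [Algebra k K]

/-- The Hilbert function. -/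
noncomputable def hf (W : Submodule k K) : ℤ := finrank k W

/-- `d` is the eventual value of the mixed differences. -/
def IsD (T : Multiset (Submodule k K)) (d : ℤ) : Prop :=
  ∀ P U : Submodule k K, Bir P → (∀ x ∈ T, x ∣ P) → U.FG → U ≠ ⊥ →
    ∀ᶠ r : ℕ in atTop, difM T hf (P ^ r * U) = d

/-- `B * T.prod`. -/
theorem exists_bir_dvd {n : ℕ} (hF : FF k K n) (T : Multiset (Submodule k K))
    (hT : ∀ x ∈ T, Big x) : ∃ P : Submodule k K, Bir P ∧ ∀ x ∈ T, x ∣ P := by
  induction T using Multiset.induction_on with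
  | empty => exact hF.bir.imp fun B hB => ⟨hB, fun x hx => absurd hx (Multiset.notMem_zero x)⟩
  | cons y T ih =>
    obtain ⟨P, hP, h⟩ := ih fun z hz => hT z (Multiset.mem_cons_of_mem hz)
    have hy := hT y (Multiset.mem_cons_self _ _)
    refine ⟨P * y, hP.mul hy.1 hy.2.1, fun x hx => ?_⟩
    rcases Multiset.mem_cons.1 hx with rfl | hx
    · exact dvd_mul_left _ _
    · exact (h x hx).mul_right _

theorem IsD.unique {n : ℕ} (hF : FF k K n) {T : Multiset (Submodule k K)} (hT : ∀ x ∈ T, Big x)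
    {d d' : ℤ} (h : IsD T d) (h' : IsD T d') : d = d' := by
  obtain ⟨P, hP, hd⟩ := exists_bir_dvd hF T hT
  obtain ⟨r, h1, h2⟩ :=
    ((h P 1 hP hd fg_one' one_ne_bot').and (h' P 1 hP hd fg_one' one_ne_bot')).exists
  exact h1.symm.trans h2

/-- `difM_cons'`, `difM_transport` with `p U = U.FG`, `SliceData.lemS`, `map_pow`, `map_dvd`. -/
theorem IsD.of_slice {x : Submodule k K} {k' K' : Type} [Field k'] [Field K'] [Algebra k' K']
    {φ : Submodule k K →* Submodule k' K'} (hs : SliceData x φ) (hx : Big x)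
    {T : Multiset (Submodule k K)} (hT : ∀ y ∈ T, Big y) {d : ℤ} (h : IsD (T.map φ) d) :
    IsD (x ::ₘ T) d := by
  intro P U hP hd hU hU'
  have h1 := difM_transport φ x (dOp x hf) hf (fun U => U.FG) (fun r => P ^ r) T
    (fun y hy U hU => (hT y hy).1.mul hU)
    (fun U hU => hs.lemS P U hP.1 hU (hd x (Multiset.mem_cons_self _ _))) U hU
  have h2 := h (φ P) (φ (x * U)) (hs.bir _ hP) (fun y hy => by
    obtain ⟨z, hz, rfl⟩ := Multiset.mem_map.1 hy
    exact map_dvd φ (hd z (Multiset.mem_cons_of_mem hz))) (hs.fg _ (hx.1.mul hU))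
    (hs.ne _ (mul_ne_bot' hx.2.1 hU'))
  filter_upwards [h1, h2] with r h1 h2
  rw [difM_cons', h1, mul_left_comm, map_mul, map_pow, h2]

theorem isD_zero (hF : FF k K 0) : 0 < finrank k K ∧ IsD (0 : Multiset (Submodule k K))
    (finrank k K) := by
  obtain ⟨B, hB⟩ := hF.bir
  have := (hB.eventually_top (by simpa using hF.dim)).1
  refine ⟨Module.finrank_pos, fun P U hP _ _ hU' => ?_⟩
  filter_upwards [(hP.eventually_top (by simpa using hF.dim)).2 U hU'] with r hr
  rw [difM_zero, hr, hf, finrank_top]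

/-- Induction on `n` generalizing `k K T`. -/
theorem exists_isD [CharZero k] {n : ℕ} (hF : FF k K n) {T : Multiset (Submodule k K)}
    (hc : T.card = n) (hT : ∀ x ∈ T, Big x) : ∃ d : ℤ, 0 < d ∧ IsD T d := by
  induction n generalizing k K with
  | zero =>
    obtain rfl := Multiset.card_eq_zero.1 hc
    exact ⟨_, by exact_mod_cast (isD_zero hF).1, (isD_zero hF).2⟩
  | succ n ih =>
    obtain ⟨x, hx⟩ := (Multiset.card_pos_iff_exists_mem (s := T)).1 (by omega)
    obtain ⟨T, rfl⟩ := Multiset.exists_cons_of_mem hx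
    obtain ⟨k', K', _, _, _, _, φ, hF', hs⟩ := exists_slice hF (hT x hx)
    have hT' : ∀ y ∈ T, Big y := fun y hy => hT y (Multiset.mem_cons_of_mem hy)
    obtain ⟨d, hd, h⟩ := ih hF' (T := T.map φ) (by simpa using hc) fun y hy => by
      obtain ⟨z, hz, rfl⟩ := Multiset.mem_map.1 hy
      exact hs.big _ (hT' z hz)
    exact ⟨d, hd, h.of_slice hs (hT x hx) hT'⟩

open Classical in
/-- The intersection number. -/
noncomputable def D (n : ℕ) (T : Multiset (Submodule k K)) : ℤ :=
  if T.card = n ∧ ∀ x ∈ T, Big x then Classical.epsilon (IsD T) else 0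

theorem D_of_not {n : ℕ} {T : Multiset (Submodule k K)} (h : ¬ (T.card = n ∧ ∀ x ∈ T, Big x)) :
    D n T = 0 := if_neg h

variable [CharZero k] {n : ℕ}

theorem isD_D (hF : FF k K n) {T : Multiset (Submodule k K)} (hc : T.card = n)
    (hT : ∀ x ∈ T, Big x) : IsD T (D n T) := by
  rw [D, if_pos ⟨hc, hT⟩]
  exact Classical.epsilon_spec ((exists_isD hF hc hT).imp fun _ h => h.2)

theorem D_eq (hF : FF k K n) {T : Multiset (Submodule k K)} (hc : T.card = n)
    (hT : ∀ x ∈ T, Big x) {d : ℤ} (h : IsD T d) : D n T = d :=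
  (isD_D hF hc hT).unique hF hT h

theorem D_pos (hF : FF k K n) {T : Multiset (Submodule k K)} (hc : T.card = n)
    (hT : ∀ x ∈ T, Big x) : 0 < D n T := by
  obtain ⟨d, hd, h⟩ := exists_isD hF hc hT
  rwa [D_eq hF hc hT h]

theorem D_nonneg (hF : FF k K n) (T : Multiset (Submodule k K)) : 0 ≤ D n T := by
  by_cases h : T.card = n ∧ ∀ x ∈ T, Big x
  · exact (D_pos hF h.1 h.2).le
  · rw [D_of_not h]

omit [CharZero k] in
theorem big_cons {x : Submodule k K} {T : Multiset (Submodule k K)} (hx : Big x)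
    (hT : ∀ y ∈ T, Big y) : ∀ y ∈ x ::ₘ T, Big y := fun y hy => by
  rcases Multiset.mem_cons.1 hy with rfl | hy
  exacts [hx, hT y hy]

omit [CharZero k] in
theorem big_map {k' K' : Type} [Field k'] [Field K'] [Algebra k' K']
    {φ : Submodule k K → Submodule k' K'} (hφ : ∀ x, Big x → Big (φ x))
    {T : Multiset (Submodule k K)} (hT : ∀ y ∈ T, Big y) : ∀ y ∈ T.map φ, Big y := fun y hy => by
  obtain ⟨z, hz, rfl⟩ := Multiset.mem_map.1 hy
  exact hφ _ (hT z hz)

omit [CharZero k] in
theorem D_cons_of_not {x : Submodule k K} {T : Multiset (Submodule k K)}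
    (h : ¬ (T.card + 1 = n ∧ ∀ y ∈ T, Big y)) : D n (x ::ₘ T) = 0 :=
  D_of_not fun h' => h ⟨by simpa using h'.1, fun y hy => h'.2 y (Multiset.mem_cons_of_mem hy)⟩

theorem D_slice (hF : FF k K (n + 1)) {x : Submodule k K} {k' K' : Type} [Field k'] [Field K']
    [Algebra k' K'] [CharZero k'] (hF' : FF k' K' n) {φ : Submodule k K →* Submodule k' K'}
    (hs : SliceData x φ) (hx : Big x) {T : Multiset (Submodule k K)} (hT : ∀ y ∈ T, Big y) :
    D (n + 1) (x ::ₘ T) = D n (T.map φ) := by
  by_cases hc : T.card = n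
  · refine D_eq hF (by rw [Multiset.card_cons, hc]) (big_cons hx hT)
      ((isD_D hF' (by rw [Multiset.card_map, hc]) (big_map hs.big hT)).of_slice hs hx hT)
  · rw [D_of_not fun h => hc (by simpa using h.1), D_of_not fun h => hc (by simpa using h.1)]

/-- Induction on `T` generalizing `m k K`, composing the maps `φ`. -/
theorem exists_multislice {m : ℕ} (hF : FF k K (n + m)) {T : Multiset (Submodule k K)}
    (hc : T.card = m) (hT : ∀ x ∈ T, Big x) :
    ∃ (k' K' : Type) (_ : Field k') (_ : Field K') (_ : Algebra k' K') (_ : CharZero k')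
      (φ : Submodule k K →* Submodule k' K'), FF k' K' n ∧ Monotone φ ∧
      (∀ x, Big x → Big (φ x)) ∧ ∀ R : Multiset (Submodule k K), (∀ x ∈ R, Big x) →
        D (n + m) (R + T) = D n (R.map φ) := by
  induction m generalizing k K with
  | zero =>
    obtain rfl := Multiset.card_eq_zero.1 hc
    exact ⟨k, K, inferInstance, inferInstance, inferInstance, inferInstance, MonoidHom.id _, hF,
      monotone_id, fun _ h => h, fun R _ => by simp⟩
  | succ m ih =>
    obtain ⟨x, hx⟩ := (Multiset.card_pos_iff_exists_mem (s := T)).1 (by omega)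
    obtain ⟨T, rfl⟩ := Multiset.exists_cons_of_mem hx
    obtain ⟨k', K', _, _, _, _, φ, hF', hs⟩ := exists_slice (n := n + m) hF (hT x hx)
    have hT' : ∀ y ∈ T, Big y := fun y hy => hT y (Multiset.mem_cons_of_mem hy)
    obtain ⟨k'', K'', _, _, _, _, ψ, hF'', h1, h2, h3⟩ :=
      ih hF' (T := T.map φ) (by simpa using hc) (big_map hs.big hT')
    refine ⟨k'', K'', inferInstance, inferInstance, inferInstance, inferInstance, ψ.comp φ, hF'',
      h1.comp hs.mono, fun y hy => h2 _ (hs.big _ hy), fun R hR => ?_⟩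
    rw [Multiset.add_cons]
    refine (D_slice (n := n + m) hF hF' hs (hT x hx) fun y hy =>
      (Multiset.mem_add.1 hy).elim (hR y) (hT' y)).trans ?_
    rw [Multiset.map_add, h3 _ (big_map hs.big hR), Multiset.map_map]
    rfl

/-- Sketch: `difM (x y :: T) h W = difM (x :: T) h (y W) + difM (y :: T) h W`. -/
theorem D_mul (hF : FF k K n) {x y : Submodule k K} (hx : Big x) (hy : Big y)
    (T : Multiset (Submodule k K)) : D n ((x * y) ::ₘ T) = D n (x ::ₘ T) + D n (y ::ₘ T) := by
  by_cases h : T.card + 1 = n ∧ ∀ y ∈ T, Big y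
  swap
  · rw [D_cons_of_not h, D_cons_of_not h, D_cons_of_not h, add_zero]
  have hc : ∀ z : Submodule k K, (z ::ₘ T).card = n := fun z => by rw [Multiset.card_cons, h.1]
  refine D_eq hF (hc _) (big_cons (hx.mul hy.1 hy.2.1) h.2) fun P U hP hd hU hU' => ?_
  have hxy := hd _ (Multiset.mem_cons_self _ _)
  have hd' : ∀ {z}, z ∣ x * y → ∀ w ∈ z ::ₘ T, w ∣ P := fun hz w hw => by
    rcases Multiset.mem_cons.1 hw with rfl | hw
    exacts [hz.trans hxy, hd w (Multiset.mem_cons_of_mem hw)]
  filter_upwards [isD_D hF (hc x) (big_cons hx h.2) P (y * U) hP (hd' (dvd_mul_right _ _))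
    (hy.1.mul hU) (mul_ne_bot' hy.2.1 hU'),
    isD_D hF (hc y) (big_cons hy h.2) P U hP (hd' (dvd_mul_left _ _)) hU hU'] with r h1 h2
  rw [← h1, ← h2, difM_cons, difM_cons, difM_cons, mul_left_comm (P ^ r) y U, mul_assoc]
  ring

theorem D_mul_pow (hF : FF k K n) {x y : Submodule k K} (hx : Big x) (hy : Big y) (m : ℕ)
    (T : Multiset (Submodule k K)) :
    D n ((x * y ^ m) ::ₘ T) = D n (x ::ₘ T) + m * D n (y ::ₘ T) := by
  induction m with
  | zero => simp
  | succ m ih =>
    rw [pow_succ, ← mul_assoc, D_mul hF (hx.mul (hy.1.pow m) (pow_ne_bot' hy.2.1 m)) hy, ih]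
    push_cast
    ring

theorem D_pow (hF : FF k K n) {y : Submodule k K} (hy : Big y) {m : ℕ} (hm : 0 < m)
    (T : Multiset (Submodule k K)) : D n ((y ^ m) ::ₘ T) = m * D n (y ::ₘ T) := by
  obtain ⟨m, rfl⟩ : ∃ l, m = l + 1 := ⟨m - 1, by omega⟩
  rw [pow_succ', D_mul_pow hF hy hy]
  push_cast
  ring

/-- Sketch: `difM T hf (sc q * W) = difM T hf W` by induction (`finrank_sc_mul`). -/
theorem D_sc_mul (hF : FF k K n) {x : Submodule k K} (hx : Big x) {q : K} (hq : q ≠ 0)
    (T : Multiset (Submodule k K)) : D n ((sc k q * x) ::ₘ T) = D n (x ::ₘ T) := by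
  have key : ∀ (T : Multiset (Submodule k K)) (W : Submodule k K),
      difM T hf (sc k q * W) = difM T hf W := by
    intro T
    induction T using Multiset.induction_on with
    | empty => exact fun W => congrArg Nat.cast (finrank_sc_mul hq W)
    | cons y T ih => intro W; rw [difM_cons, difM_cons, mul_left_comm, ih, ih]
  by_cases h : T.card + 1 = n ∧ ∀ y ∈ T, Big y
  swap
  · rw [D_cons_of_not h, D_cons_of_not h]
  have hc : ∀ z : Submodule k K, (z ::ₘ T).card = n := fun z => by rw [Multiset.card_cons, h.1]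
  have hx' : Big (sc k q * x) := mul_comm x _ ▸ hx.mul (sc_fg q) (sc_ne hq)
  refine D_eq hF (hc _) (big_cons hx' h.2) fun P U hP hd hU hU' => ?_
  have hd' : ∀ w ∈ x ::ₘ T, w ∣ P := fun w hw => by
    rcases Multiset.mem_cons.1 hw with rfl | hw
    exacts [(dvd_mul_left _ _).trans (hd _ (Multiset.mem_cons_self _ _)),
      hd w (Multiset.mem_cons_of_mem hw)]
  filter_upwards [isD_D hF (hc x) (big_cons hx h.2) P U hP hd' hU hU'] with r h1
  rw [← h1, difM_cons, difM_cons, mul_assoc, key]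

/-- Sketch: `exists_multislice` reduces to `n = 1`, `T = 0`, where it is the monotonicity of
`finrank` (`Submodule.finrank_mono`). -/
theorem D_mono (hF : FF k K n) {x y : Submodule k K} (hx : Big x) (hy : Big y) (h : x ≤ y)
    (T : Multiset (Submodule k K)) : D n (x ::ₘ T) ≤ D n (y ::ₘ T) := by
  by_cases hT : T.card + 1 = n ∧ ∀ y ∈ T, Big y
  swap
  · rw [D_cons_of_not hT, D_cons_of_not hT]
  obtain ⟨rfl, hT⟩ := hT
  rw [add_comm] at hF ⊢
  obtain ⟨k', K', _, _, _, _, φ, hF', h1, h2, h3⟩ := exists_multislice hF rfl hT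
  have hs : ∀ {z : Submodule k K}, Big z → ∀ w ∈ ({z} : Multiset (Submodule k K)), Big w :=
    fun hz w hw => Multiset.mem_singleton.1 hw ▸ hz
  rw [← Multiset.singleton_add, ← Multiset.singleton_add, h3 _ (hs hx), h3 _ (hs hy)]
  obtain ⟨P, hP, hd⟩ := exists_bir_dvd hF' ((x ::ₘ {y}).map φ) (big_map h2 (big_cons hx (hs hy)))
  obtain ⟨r, e1, e2⟩ := ((isD_D hF' (by simp) (big_map h2 (hs hx)) P 1 hP (fun z hz => hd z (by
    simp only [Multiset.map_singleton, Multiset.mem_singleton] at hz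
    simp [hz])) fg_one' one_ne_bot').and (isD_D hF' (by simp) (big_map h2 (hs hy)) P 1 hP
      (fun z hz => hd z (by
        simp only [Multiset.map_singleton, Multiset.mem_singleton] at hz
        simp [hz])) fg_one' one_ne_bot')).exists
  rw [← e1, ← e2, Multiset.map_singleton, Multiset.map_singleton, ← Multiset.cons_zero,
    ← Multiset.cons_zero, difM_cons, difM_cons, difM_zero]
  have : Module.Finite k' (φ y * (P ^ r * 1) : Submodule k' K') :=
    Module.Finite.iff_fg.2 ((h2 y hy).1.mul ((hP.1.pow r).mul fg_one'))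
  exact sub_le_sub_right (Int.ofNat_le.2 (Submodule.finrank_mono (mul_le_mul_left (h1 h) _))) _

/-- Sketch: `x (Z y) ≤ y (Z y)`, `D_mono`, `D_mul`. -/
theorem D_dep (hF : FF k K n) {x y : Submodule k K} (hx : Big x) (hy : Big y) {q : K} (hq : q ≠ 0)
    (h : Dep (sc k q * x) y) (T : Multiset (Submodule k K)) : D n (x ::ₘ T) ≤ D n (y ::ₘ T) := by
  obtain ⟨Z, hZ, hZ', h⟩ := h
  have hx' : Big (sc k q * x) := mul_comm x _ ▸ hx.mul (sc_fg q) (sc_ne hq)
  have hw : Big (y * Z) := hy.mul hZ hZ'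
  have h1 := D_mono hF (hx'.mul hw.1 hw.2.1) (hy.mul hw.1 hw.2.1) (by
    rw [mul_left_comm, mul_left_comm y y]
    exact mul_le_mul_right h y) T
  rw [D_mul hF hx' hw, D_mul hF hy hw, D_sc_mul hF hx hq] at h1
  omega

/-- Induction on `n` with `exists_slice₂`; for `n = 0` use `Module.finrank_mul_finrank`. -/
theorem D_pb {K₁ : Type} [Field K₁] [Algebra k K₁] (h₁ : FF k K₁ n) (hF : FF k K n)
    (f : K₁ →ₐ[k] K) {T : Multiset (Submodule k K₁)} (hT : ∀ x ∈ T, Big x) :
    D n (T.map (pb f)) = deg f.toRingHom * D n T := by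
  by_cases hc : T.card = n
  swap
  · rw [D_of_not fun h => hc (by simpa using h.1), D_of_not fun h => hc h.1, mul_zero]
  induction n generalizing k K K₁ with
  | zero =>
    obtain rfl := Multiset.card_eq_zero.1 hc
    rw [Multiset.map_zero, D_eq hF rfl (by simp) (isD_zero hF).2,
      D_eq h₁ rfl (by simp) (isD_zero h₁).2]
    let _ : Algebra K₁ K := f.toRingHom.toAlgebra
    have : IsScalarTower k K₁ K := IsScalarTower.of_algebraMap_eq fun c => (f.commutes c).symm
    rw [← Module.finrank_mul_finrank k K₁ K, mul_comm]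
    push_cast
    rfl
  | succ n ih =>
    obtain ⟨x, hx⟩ := (Multiset.card_pos_iff_exists_mem (s := T)).1 (by omega)
    obtain ⟨T, rfl⟩ := Multiset.exists_cons_of_mem hx
    have hT' : ∀ y ∈ T, Big y := fun y hy => hT y (Multiset.mem_cons_of_mem hy)
    obtain ⟨k', K₁', K', _, _, _, _, _, _, φ₁, φ, f', h₁', hF', s₁, s, e, hd⟩ :=
      exists_slice₂ h₁ hF f (hT x hx)
    have hb : ∀ y, Big y → Big (pb f y) := fun y hy => hy.map_pb h₁.dim hF.dim f
    rw [Multiset.map_cons, D_slice hF hF' s (hb x (hT x hx)) (big_map hb hT'),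
      D_slice h₁ h₁' s₁ (hT x hx) hT', ← hd,
      ← ih h₁' hF' f' (big_map s₁.big hT') (by simpa using hc), Multiset.map_map, Multiset.map_map]
    congr 1
    exact Multiset.map_congr rfl fun y _ => e y

end Pool.Agent.Lib.MP_bc213e_ag.Dyn
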