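import Pool.Agent.Lib.MP_bc213e_ag.Dyn.Slice

/-!
Dimension counts on the generic hyperplane section.
-/

namespace Pool.Agent.Lib.MP_bc213e_ag.Dyn

open Submodule MvPolynomial Module Filter

variable {k K σ : Type} [Field k] [Field K] [Algebra k K] [Fintype σ]

attribute [local instance] MvPolynomial.algebraMvPolynomial

/-- Sketch: `Submodule.localized'_eq_span` with the identity map (`isLocalizedModule_id`),
`IsLocalizedModule.finrank_eq` for `N.toLocalized'`, `IsLocalization.finrank_eq`. -/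
theorem finrank_span_frac {A F M : Type} [CommRing A] [IsDomain A] [Field F] [Algebra A F]
    [IsFractionRing A F] [AddCommGroup M] [Module A M] [Module F M] [IsScalarTower A F M]
    (N : Submodule A M) : finrank F (span F (N : Set M)) = finrank A N := by
  have := isLocalizedModule_id (nonZeroDivisors A) M F
  have e : span F (N : Set M) = N.localized' F (nonZeroDivisors A) LinearMap.id := by
    rw [localized'_eq_span, LinearMap.id_coe, Set.image_id]
  rw [e, IsLocalization.finrank_eq F (nonZeroDivisors A) le_rfl,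
    IsLocalizedModule.finrank_eq (nonZeroDivisors A)
      (N.toLocalized' F (nonZeroDivisors A) LinearMap.id) le_rfl]

section

variable {g : Option σ → K} [Algebra (kk k σ) (KK K σ)]

theorem finrank_range_add_ker {A M M' : Type} [CommRing A] [IsDomain A] [AddCommGroup M]
    [Module A M] [AddCommGroup M'] [Module A M'] [Module.Finite A M] (f : M →ₗ[A] M') :
    finrank A (LinearMap.range f) + finrank A (LinearMap.ker f) = finrank A M := by
  rw [← f.quotKerEquivRange.finrank_eq]
  exact Submodule.finrank_quotient_add_finrank _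

/-- Rank-nullity. Sketch: make `KK K σ` an algebra over `A = MvPolynomial (Option σ) k` through
`kk k σ`; `ev g` is `A`-linear by `h.comm`. On `pol s V` its kernel is the image of
`pol (s * sform g) V` under the injective multiplication by `sform g` (`ev_eq_zero_iff`). Use
`LinearMap.rank_range_add_rank_ker` or `Submodule.finrank_quotient_add_finrank`, `finite_pol`,
`finrank_span_frac`. -/
theorem IsSl.finrank_pol (h : IsSl k g) {s : MvPolynomial (Option σ) K} (hs : s ≠ 0)
    {V : Submodule k K} (hV : V.FG) :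
    finrank (MvPolynomial (Option σ) k) (pol s V) =
      finrank (kk k σ) (span (kk k σ) (ev g '' (pol s V : Set (MvPolynomial (Option σ) K)))) +
        finrank (MvPolynomial (Option σ) k) (pol (s * sform g) V) := by
  let _ : Algebra (MvPolynomial (Option σ) k) (KK K σ) :=
    ((algebraMap (kk k σ) (KK K σ)).comp (algebraMap (MvPolynomial (Option σ) k) _)).toAlgebra
  have : IsScalarTower (MvPolynomial (Option σ) k) (kk k σ) (KK K σ) :=
    IsScalarTower.of_algebraMap_eq fun _ => rfl
  let e : MvPolynomial (Option σ) K →ₗ[MvPolynomial (Option σ) k] KK K σ :=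
    { toFun := ev g
      map_add' := map_add _
      map_smul' := fun a F => by
        rw [RingHom.id_apply, Algebra.smul_def, Algebra.smul_def, map_mul]
        exact congrArg (· * ev g F) (h.comm a).symm }
  have := finite_pol hs hV
  have h1 := finrank_range_add_ker (e.domRestrict (pol s V))
  rw [LinearMap.range_domRestrict, ← finrank_span_frac (F := kk k σ)] at h1
  rw [← h1]
  congr 1
  let φ : pol (s * sform g) V →ₗ[MvPolynomial (Option σ) k]
      LinearMap.ker (e.domRestrict (pol s V)) :=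
    (((LinearMap.mulLeft (MvPolynomial (Option σ) k) (sform g)).domRestrict
      (pol (s * sform g) V)).codRestrict (pol s V) fun ψ => by
        rw [mem_pol, LinearMap.domRestrict_apply, LinearMap.mulLeft_apply, ← mul_assoc]
        exact ψ.2).codRestrict _ fun ψ => (ev_eq_zero_iff h.ne _).2 (dvd_mul_right _ _)
  refine (LinearEquiv.ofBijective φ ⟨fun a b hab => Subtype.ext
    (mul_left_cancel₀ (sform_ne_zero h.ne) (congrArg (fun x => x.1.1) hab)), ?_⟩).finrank_eq.symm
  rintro ⟨⟨F, hF⟩, hF0⟩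
  obtain ⟨G, rfl⟩ := (ev_eq_zero_iff h.ne F).1 hF0
  exact ⟨⟨G, by rwa [mem_pol, mul_assoc]⟩, rfl⟩

/-- `IsSl.ev_mem`, `ev_C`, `cont_C`. -/
theorem IsSl.span_ev_pol_one (h : IsSl k g) (V : Submodule k K) :
    span (kk k σ) (ev g '' (pol (1 : MvPolynomial (Option σ) K) V :
      Set (MvPolynomial (Option σ) K))) = h.phi V := by
  refine le_antisymm (span_le.2 ?_) (span_mono ?_)
  · rintro _ ⟨F, hF, rfl⟩
    rw [SetLike.mem_coe, mem_pol, one_mul] at hF
    exact h.phi_mono hF (h.ev_mem F)
  · rintro _ ⟨a, ha, rfl⟩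
    refine ⟨C a, ?_, ev_C g a⟩
    rw [SetLike.mem_coe, mem_pol, one_mul, cont_C, sc_le]
    exact ha

/-- Sketch: induction on `l` generalizing `ψ`. If `s^(l+1) ψ` has coefficients in `V` then so has
its derivative in the variable `none`, which is `s^l ψ₁` with
`ψ₁ = (l+1) C (g none) ψ + s * pderiv none ψ`, and `ev g s = 0`; divide by `l + 1`. -/
theorem IsSl.ev_pol_pow [CharZero k] (h : IsSl k g) (V : Submodule k K) (l : ℕ)
    {ψ : MvPolynomial (Option σ) K} (hψ : ψ ∈ pol (sform g ^ l) V) :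
    algebraMap K (KK K σ) (g none) ^ l * ev g ψ ∈ h.phi V := by
  induction l generalizing ψ with
  | zero =>
    rw [mem_pol, pow_zero, one_mul] at hψ
    rw [pow_zero, one_mul]
    exact h.phi_mono hψ (h.ev_mem ψ)
  | succ l ih =>
    have : CharZero (kk k σ) := charZero_of_injective_algebraMap (algebraMap k _).injective
    have h1 : ((l + 1 : ℕ) : MvPolynomial (Option σ) K) * C (g none) * ψ +
        sform g * pderiv none ψ ∈ pol (sform g ^ l) V := by
      refine le_trans (le_of_eq ?_) ((cont_pderiv_le none _).trans hψ)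
      congr 1
      rw [pderiv_mul, pderiv_pow, pderiv_sform, Nat.add_sub_cancel]
      ring
    have h2 := ih h1
    rw [map_add, map_mul, map_mul, map_mul, (ev_eq_zero_iff h.ne _).2 dvd_rfl, zero_mul, add_zero,
      map_natCast, ev_C] at h2
    have h3 := smul_mem _ ((l + 1 : ℕ) : kk k σ)⁻¹ h2
    have h4 : ((l + 1 : ℕ) : KK K σ) ≠ 0 := by
      rw [← map_natCast (algebraMap (kk k σ) (KK K σ)), map_ne_zero]
      exact Nat.cast_ne_zero.2 l.succ_ne_zero
    rw [Algebra.smul_def, map_inv₀, map_natCast] at h3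
    convert h3 using 1
    field_simp
    ring

/-- Sketch: `finrank_pol` with `s = 1`, `span_ev_pol_one`, `finrank_pol_one`; eventually
`pol (1 * sform g) (x * W) = pol 1 W` by `sat_eventually`, `cont_mul_le`, `cont_sform_le`. -/
theorem IsSl.lemS (h : IsSl k g) {P U : Submodule k K} (hP : P.FG) (hU : U.FG)
    (hx : span k (Set.range g) ∣ P) :
    ∀ᶠ r : ℕ in atTop, (finrank k (span k (Set.range g) * (P ^ r * U) : Submodule k K) : ℤ) -
      finrank k (P ^ r * U : Submodule k K) =
        finrank (kk k σ) (h.phi (span k (Set.range g) * (P ^ r * U))) := by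
  have hx' : (span k (Set.range g)).FG := fg_span (Set.finite_range g)
  filter_upwards [sat_eventually h.ne hP hU hx] with r hr
  have hW : (P ^ r * U).FG := (hP.pow r).mul hU
  have h1 := h.finrank_pol one_ne_zero (hx'.mul hW)
  have h2 : pol (1 * sform g) (span k (Set.range g) * (P ^ r * U)) = pol 1 (P ^ r * U) := by
    ext ψ
    rw [mem_pol, mem_pol, one_mul, one_mul]
    exact ⟨hr ψ, fun hψ => (cont_mul_le _ _).trans (mul_le_mul' (cont_sform_le g) hψ)⟩
  rw [h2, h.span_ev_pol_one, (finrank_pol_one (hx'.mul hW)).2, (finrank_pol_one hW).2] at h1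
  rw [h1]
  push_cast
  ring

/-- Sketch: by `finrank_pol`, `ev_pol_pow` and `finrank_sc_mul`, the rank of `pol (s^l) V` is at
most `finrank (phi V)` plus the rank of `pol (s^(l+1)) V`. So `pol (s^j) V` contains `ψ ≠ 0`;
take a nonzero coefficient `q` of `ψ` and use `pd_dep`. -/
theorem IsSl.siu [CharZero k] (h : IsSl k g) {V : Submodule k K} (hV : V.FG) {j : ℕ}
    (hj : j * finrank (kk k σ) (h.phi V) < finrank k V) :
    ∃ q : K, q ≠ 0 ∧ Dep (sc k q * span k (Set.range g) ^ j) V := by
  have hs := sform_ne_zero h.ne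
  have hg0 : algebraMap K (KK K σ) (g none) ≠ 0 := (map_ne_zero _).2 h.ne
  have : Module.Finite (kk k σ) (h.phi V) := Module.Finite.iff_fg.2 (h.phi_fg hV)
  have key : ∀ l : ℕ, finrank k V ≤ l * finrank (kk k σ) (h.phi V) +
      finrank (MvPolynomial (Option σ) k) (pol (sform g ^ l) V) := by
    intro l
    induction l with
    | zero => rw [pow_zero, (finrank_pol_one hV).2, zero_mul, zero_add]
    | succ l ih =>
      have h1 : finrank (kk k σ) (span (kk k σ) (ev g '' (pol (sform g ^ l) V :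
          Set (MvPolynomial (Option σ) K)))) ≤ finrank (kk k σ) (h.phi V) := by
        rw [← finrank_sc_mul (pow_ne_zero l hg0)]
        refine Submodule.finrank_mono ?_
        rw [sc, span_mul_span, span_le]
        rintro _ ⟨_, rfl, _, ⟨ψ, hψ, rfl⟩, rfl⟩
        exact h.ev_pol_pow V l hψ
      rw [h.finrank_pol (pow_ne_zero l hs) hV, ← pow_succ] at ih
      rw [add_mul, one_mul]
      omega
  have h1 : pol (sform g ^ j) V ≠ ⊥ := by
    intro h0
    have := key j
    rw [h0, finrank_bot] at this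
    omega
  obtain ⟨ψ, hψ, hψ0⟩ := (Submodule.ne_bot_iff _).1 h1
  obtain ⟨α, hα⟩ := ne_zero_iff.1 hψ0
  refine ⟨_, hα, ?_⟩
  rw [mul_comm]
  exact ((Dep.of_le (mul_le_mul_right (sc_le.2 (coeff_mem_cont ψ α)) _)).trans
    (pd_dep h.ne ψ j)).trans (Dep.of_le hψ)

end

/-- What is used about the generic member of `x`. -/
structure SliceData {k K : Type} [Field k] [Field K] [Algebra k K] (x : Submodule k K)
    {k' K' : Type} [Field k'] [Field K'] [Algebra k' K']
    (φ : Submodule k K →* Submodule k' K') : Prop where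
  mono : Monotone φ
  fg : ∀ U, U.FG → (φ U).FG
  ne : ∀ U, U ≠ ⊥ → φ U ≠ ⊥
  bir : ∀ U, Bir U → Bir (φ U)
  big : ∀ U, Big U → Big (φ U)
  lemS : ∀ P U : Submodule k K, P.FG → U.FG → x ∣ P → ∀ᶠ r : ℕ in atTop,
    (finrank k (x * (P ^ r * U) : Submodule k K) : ℤ) - finrank k (P ^ r * U : Submodule k K) =
      finrank k' (φ (x * (P ^ r * U)))
  siu : ∀ (V : Submodule k K) (j : ℕ), V.FG → j * finrank k' (φ V) < finrank k V →
    ∃ q : K, q ≠ 0 ∧ Dep (sc k q * x ^ j) V

theorem IsSl.sliceData [CharZero k] {g : Option σ → K} [Algebra (kk k σ) (KK K σ)]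
    (h : IsSl k g) : SliceData (span k (Set.range g)) h.phi :=
  ⟨h.phi_mono, fun _ => h.phi_fg, fun _ => h.phi_ne, fun _ => h.phi_bir, fun _ => h.phi_big,
    fun _ _ hP hU hx => h.lemS hP hU hx, fun _ _ hV hj => h.siu hV hj⟩

theorem exists_gens {x : Submodule k K} (hx : x.FG) (hx' : x ≠ ⊥) :
    ∃ (r : ℕ) (g : Option (Fin r) → K), g none ≠ 0 ∧ span k (Set.range g) = x := by
  obtain ⟨r, s, hs⟩ := fg_iff_exists_fin_generating_family.1 hx
  obtain ⟨a, ha, ha0⟩ := (Submodule.ne_bot_iff x).1 hx'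
  refine ⟨r, fun o => o.elim a s, ha0, le_antisymm ?_ ?_⟩
  · rw [span_le]
    rintro _ ⟨_ | i, rfl⟩
    · exact ha
    · exact hs ▸ subset_span ⟨i, rfl⟩
  · rw [← hs]
    exact span_mono (by rintro _ ⟨i, rfl⟩; exact ⟨some i, rfl⟩)

theorem exists_slice₂ [CharZero k] {K₁ : Type} [Field K₁] [Algebra k K₁] {n : ℕ}
    (h₁ : FF k K₁ (n + 1)) (h : FF k K (n + 1)) (f : K₁ →ₐ[k] K) {x : Submodule k K₁}
    (hx : Big x) :
    ∃ (k' K₁' K' : Type) (_ : Field k') (_ : Field K₁') (_ : Field K') (_ : Algebra k' K₁')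
      (_ : Algebra k' K') (_ : CharZero k') (φ₁ : Submodule k K₁ →* Submodule k' K₁')
      (φ : Submodule k K →* Submodule k' K') (f' : K₁' →ₐ[k'] K'),
      FF k' K₁' n ∧ FF k' K' n ∧ SliceData x φ₁ ∧ SliceData (pb f x) φ ∧
        (∀ U, φ (pb f U) = pb f' (φ₁ U)) ∧ deg f'.toRingHom = deg f.toRingHom := by
  obtain ⟨r, g, hg, rfl⟩ := exists_gens hx.1 hx.2.1
  have e : pb f (span k (Set.range g)) = span k (Set.range fun o => f (g o)) := by
    rw [pb_apply, Submodule.map_span, ← Set.range_comp]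
    rfl
  have hx' := hx.map_pb h₁.dim h.dim f
  rw [e] at hx' ⊢
  obtain ⟨a₁, s₁⟩ := exists_isSl hg hx (by rw [h₁.dim]; exact_mod_cast n.succ_ne_zero)
  obtain ⟨a, s⟩ := exists_isSl (g := fun o => f (g o)) ((map_ne_zero f).2 hg) hx'
    (by rw [h.dim]; exact_mod_cast n.succ_ne_zero)
  obtain ⟨f', hf', hd⟩ := exists_hom f s₁ s
  obtain ⟨B₁, hB₁⟩ := h₁.bir
  obtain ⟨B, hB⟩ := h.bir
  have : CharZero (kk k (Fin r)) := charZero_of_injective_algebraMap (algebraMap k _).injective
  exact ⟨kk k (Fin r), KK K₁ (Fin r), KK K (Fin r), inferInstance, inferInstance, inferInstance,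
    a₁, a, this, s₁.phi, s.phi, f', ⟨s₁.trdeg h₁.dim, _, s₁.phi_bir hB₁⟩,
    ⟨s.trdeg h.dim, _, s.phi_bir hB⟩, s₁.sliceData, s.sliceData, hf', hd⟩

theorem exists_slice [CharZero k] {n : ℕ} (h : FF k K (n + 1)) {x : Submodule k K} (hx : Big x) :
    ∃ (k' K' : Type) (_ : Field k') (_ : Field K') (_ : Algebra k' K') (_ : CharZero k')
      (φ : Submodule k K →* Submodule k' K'), FF k' K' n ∧ SliceData x φ := by
  obtain ⟨k', K', -, i1, i2, -, i3, -, i4, φ, -, -, h1, -, h2, -⟩ :=
    exists_slice₂ h h (AlgHom.id k K) hx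
  exact ⟨k', K', i1, i2, i3, i4, φ, h1, h2⟩

end Pool.Agent.Lib.MP_bc213e_ag.Dyn
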