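import Pool.Agent.Lib.MP_bc213e_ag.Dyn.NefL

/-!
The limit along the iterates.
-/

namespace Pool.Agent.Lib.MP_bc213e_ag.Dyn

open Submodule Module Filter Topology Multiset

variable {k K : Type} [Field k] [Field K] [Algebra k K]

/-- The linear systems `(f^s)^* L`. -/
noncomputable def letters (f : K →ₐ[k] K) (L : Submodule k K) (S : Multiset ℕ) :
    Multiset (Submodule k K) :=
  S.map fun s => pb (f ^ s) L

/-- `((f^t)^* (M - N))^j · S`. -/
noncomputable def ET (n : ℕ) (f : K →ₐ[k] K) (M N L : Submodule k K) (j : ℕ) (S : Multiset ℕ)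
    (t : ℕ) : ℝ :=
  IN n (pb (f ^ t) M) (pb (f ^ t) N) j (letters f L S)

/-- The limit for `t → ∞`. -/
noncomputable def EL (n : ℕ) (f : K →ₐ[k] K) (M N L : Submodule k K) (j : ℕ) (S : Multiset ℕ) :
    ℝ :=
  ⨅ t, ET n f M N L j S t

theorem pb_pow_succ (f : K →ₐ[k] K) (t : ℕ) (U : Submodule k K) :
    pb (f ^ (t + 1)) U = pb f (pb (f ^ t) U) ∧ pb (f ^ (t + 1)) U = pb (f ^ t) (pb f U) := by
  constructor
  · rw [pow_succ', ← pb_comp]
    rfl
  · rw [pow_succ, ← pb_comp]
    rfl

theorem pb_pow_zero (f : K →ₐ[k] K) (U : Submodule k K) : pb (f ^ 0) U = U := by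
  rw [pow_zero]
  exact Submodule.map_id U

theorem EL_zero (n : ℕ) (f : K →ₐ[k] K) (M N L : Submodule k K) (S : Multiset ℕ) :
    EL n f M N L 0 S = D n (letters f L S) := by
  exact ciInf_const (ι := ℕ) (a := (D n (letters f L S) : ℝ))

variable [CharZero k] {n : ℕ} {M N L : Submodule k K} {V : ℕ → Submodule k K} {m κ : ℕ → ℕ}
  {f : K →ₐ[k] K} {c : ℕ}

/-- Sketch: antitone by `NefSeq.le_of_dep` for `(h.map_pb f).map_pb (f^t)` and `(h.mul_pow c).map_pb (f^t)`
(`Dep.map_pb`, `pb_sc`), bounded below by `0`; `tendsto_atTop_ciInf`. -/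
theorem NefSeq.tendsto_EL (hF : FF k K n) (h : NefSeq M N L V m κ)
    (H : ∀ i, ∃ q : K, q ≠ 0 ∧ Dep (sc k q * pb f (V i)) (V i * L ^ (c * κ i))) (j : ℕ)
    (S : Multiset ℕ) : Tendsto (ET n f M N L j S) atTop (𝓝 (EL n f M N L j S)) := by
  refine tendsto_atTop_ciInf (antitone_nat_of_succ_le fun t => ?_) ⟨0, ?_⟩
  · have := ((h.map_pb hF f).map_pb hF (f ^ t)).le_of_dep hF ((h.mul_pow c).map_pb hF (f ^ t))
      (fun i => by
        obtain ⟨q, hq, hd⟩ := H i
        have h1 := hd.map_pb (f ^ t)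
        rw [map_mul (pb (f ^ t)) (sc k q), pb_sc] at h1
        exact ⟨_, (_root_.map_ne_zero _).2 hq, h1⟩) j (letters f L S)
    rw [ET, ET, (pb_pow_succ f t M).2, (pb_pow_succ f t N).2]
    exact_mod_cast this
  · rintro _ ⟨t, rfl⟩
    rw [ET]
    exact_mod_cast (h.map_pb hF (f ^ t)).nonneg hF j _

omit [CharZero k] in
theorem big_letters (hF : FF k K n) (hL : Big L) (f : K →ₐ[k] K) (S : Multiset ℕ) :
    ∀ x ∈ letters f L S, Big x := fun x hx => by
  obtain ⟨s, -, rfl⟩ := mem_map.1 hx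
  exact hL.map_pb hF.dim hF.dim _

theorem deg_pos (hF : FF k K n) (f : K →ₐ[k] K) : 0 < deg f.toRingHom := by
  obtain ⟨B, hB⟩ := hF.bir
  have hrep : ∀ x ∈ replicate n B, Big x := fun x hx => eq_of_mem_replicate hx ▸ hB.big
  have h1 := D_pos hF (T := (replicate n B).map (pb f)) (by simp)
    (big_map (fun x hx => hx.map_pb hF.dim hF.dim f) hrep)
  rw [D_pb hF hF f hrep] at h1
  refine Nat.pos_of_ne_zero fun h0 => ?_
  rw [h0, Nat.cast_zero, zero_mul] at h1
  exact lt_irrefl _ h1

/-- Sketch: downward induction gives `0 < IN n M N j T` for `j ≤ J` and all big `T` with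
`T.card + j = n` (`IN (j+1) T ≤ IN j (M :: T)` by `nonneg`, `pos_of_pos`). `deg (f^t) > 0` because
`D_pb`, `D_pos`. So `IN_pb` and `pos_of_pos` for `h.map_pb (f^t)` show that each `ET` is a positive
integer. -/
theorem NefSeq.one_le_EL (hF : FF k K n) (h : NefSeq M N L V m κ) {J : ℕ} (hJ : J ≤ n)
    (hp : IN n M N J (replicate (n - J) L) ≠ 0) {j : ℕ} (hj : j ≤ J) {S : Multiset ℕ}
    (hS : S.card = n - j) : 1 ≤ EL n f M N L j S := by
  have hrep : ∀ a, ∀ x ∈ replicate a L, Big x := fun a x hx => eq_of_mem_replicate hx ▸ h.bL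
  have key : ∀ d, d ≤ J → 0 < IN n M N (J - d) (replicate (n - (J - d)) L) := by
    intro d
    induction d with
    | zero => exact fun _ => lt_of_le_of_ne (h.nonneg hF _ _) hp.symm
    | succ d ih =>
      intro hd
      have h1 := ih (by omega)
      rw [show J - d = J - (d + 1) + 1 by omega, IN] at h1
      have h2 := h.nonneg hF (J - (d + 1)) (N ::ₘ replicate (n - (J - (d + 1) + 1)) L)
      refine h.pos_of_pos hF _ (big_cons h.bM (hrep (n - (J - (d + 1) + 1)))) (hrep _) ?_ (by omega)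
      rw [card_cons, card_replicate, card_replicate]
      omega
  have h1 := key (J - j) (by omega)
  rw [show J - (J - j) = j by omega] at h1
  refine le_ciInf fun t => ?_
  have h2 := IN_pb hF h.bM h.bN (f ^ t) j (hrep (n - j))
  have h3 : (0 : ℤ) < deg (f ^ t).toRingHom := by exact_mod_cast deg_pos hF (f ^ t)
  have h4 := (h.map_pb hF (f ^ t)).pos_of_pos hF j
    (big_map (fun x hx => hx.map_pb hF.dim hF.dim (f ^ t)) (hrep (n - j)))
    (big_letters hF h.bL f S) (by rw [card_map, card_replicate, letters, card_map, hS])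
    (h2 ▸ mul_pos h3 h1)
  rw [ET]
  exact_mod_cast h4

/-- Sketch: `ET j (S + 1) (t + 1) = deg f * ET j S t` by `IN_pb`; uniqueness of limits. -/
theorem NefSeq.EL_shift (hF : FF k K n) (h : NefSeq M N L V m κ)
    (H : ∀ i, ∃ q : K, q ≠ 0 ∧ Dep (sc k q * pb f (V i)) (V i * L ^ (c * κ i))) (j : ℕ)
    (S : Multiset ℕ) :
    EL n f M N L j (S.map (· + 1)) = deg f.toRingHom * EL n f M N L j S := by
  refine tendsto_nhds_unique ((tendsto_add_atTop_iff_nat 1).2 (h.tendsto_EL hF H j _))
    (((h.tendsto_EL hF H j S).const_mul (deg f.toRingHom : ℝ)).congr fun t => ?_)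
  have e : letters f L (S.map (· + 1)) = (letters f L S).map (pb f) := by
    rw [letters, letters, Multiset.map_map, Multiset.map_map]
    exact Multiset.map_congr rfl fun s _ => (pb_pow_succ f s L).1
  have h1 := h.map_pb hF (f ^ t)
  rw [ET, ET, e, (pb_pow_succ f t M).1, (pb_pow_succ f t N).1,
    IN_pb hF h1.bM h1.bN f j (big_letters hF h.bL f S)]
  push_cast
  rfl

theorem log_aux {a b u v : ℝ} (ha : 0 < a) (hb : 0 < b) (hu : 0 < u) (hv : 0 < v)
    (h : a * b ≤ 2 * (u * v)) :
    Real.log a + Real.log b ≤ Real.log 4 + Real.log u + Real.log v := by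
  rw [← Real.log_mul ha.ne' hb.ne', ← Real.log_mul four_ne_zero hu.ne',
    ← Real.log_mul (by positivity) hv.ne']
  exact Real.log_le_log (by positivity) (by nlinarith [mul_pos hu hv])

theorem log_aux' {a b u v u' v' : ℝ} (ha : 0 < a) (hb : 0 < b) (hu : 0 < u) (hv : 0 < v)
    (hu' : 0 < u') (hv' : 0 < v') (h : a * b ≤ 2 * (u * v + u' * v')) :
    Real.log a + Real.log b ≤
      Real.log 4 + max (Real.log u + Real.log v) (Real.log u' + Real.log v') := by
  rw [← Real.log_mul ha.ne' hb.ne', ← Real.log_mul hu.ne' hv.ne', ← Real.log_mul hu'.ne' hv'.ne']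
  rcases le_total (u * v) (u' * v') with h1 | h1
  · refine le_trans ?_ (add_le_add_right (le_max_right _ _) _)
    rw [← Real.log_mul four_ne_zero (by positivity)]
    exact Real.log_le_log (by positivity) (by linarith)
  · refine le_trans ?_ (add_le_add_right (le_max_left _ _) _)
    rw [← Real.log_mul four_ne_zero (by positivity)]
    exact Real.log_le_log (by positivity) (by linarith)

/-- Sketch: `le_zeros` with `G j S = log (EL j S)`, `γ = log (deg f)`, `c = log 4`; pass to the
limit in `t3`, `ct3`, `ct4` for `h.map_pb (f^t)` with `tendsto_EL`, then take logarithms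
(`a + b ≤ 2 max a b`). `EL_zero` identifies `G 0`. -/
theorem NefSeq.main (hF : FF k K n) (h : NefSeq M N L V m κ)
    (H : ∀ i, ∃ q : K, q ≠ 0 ∧ Dep (sc k q * pb f (V i)) (V i * L ^ (c * κ i))) {J : ℕ}
    (hJ : J ≤ n) (hp : IN n M N J (replicate (n - J) L) ≠ 0) :
    J ≤ {a | a < n ∧ rate n (fun S => Real.log (D n (letters f L S))) (a + 1) =
      rate n (fun S => Real.log (D n (letters f L S))) a}.ncard := by
  have hb : ∀ s : ℕ, Big (pb (f ^ s) L) := fun s => h.bL.map_pb hF.dim hF.dim _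
  have hl := h.tendsto_EL hF H
  have h1 : ∀ j ≤ J, ∀ S : Multiset ℕ, S.card = n - j → 0 < EL n f M N L j S :=
    fun j hj S hS => one_pos.trans_le (h.one_le_EL hF hJ hp hj hS)
  have hd : (0 : ℝ) < deg f.toRingHom := by exact_mod_cast deg_pos hF f
  have := le_zeros (γ := Real.log (deg f.toRingHom)) (c := Real.log 4) J n
    (fun j S => Real.log (EL n f M N L j S)) hJ (fun j hj => ⟨fun S hS =>
      Real.log_nonneg (h.one_le_EL hF hJ hp hj hS), fun S hS => by
        rw [h.EL_shift hF H, Real.log_mul hd.ne' (h1 j hj S hS).ne', add_comm],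
      fun x y P T hT => by
        have hc : ∀ a b : ℕ, (a ::ₘ b ::ₘ T).card = n - j := fun a b => by simpa using hT
        refine log_aux (h1 j hj _ (hc _ _)) (h1 j hj _ (hc _ _)) (h1 j hj _ (hc _ _))
          (h1 j hj _ (hc _ _)) (le_of_tendsto_of_tendsto' ((hl j _).mul (hl j _))
            (((hl j _).mul (hl j _)).const_mul 2) fun t => ?_)
        simp only [ET, letters, map_cons]
        exact_mod_cast (h.map_pb hF (f ^ t)).t3 hF j (hb x) (hb y) (hb P) _⟩)
    (fun j hj => ⟨fun y P T hT => by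
        have hc : ∀ a b : ℕ, (a ::ₘ b ::ₘ T).card = n - j := fun a b => by
          simp only [card_cons]; omega
        have hc' : ∀ a : ℕ, (a ::ₘ T).card = n - (j + 1) := fun a => by simpa using hT
        refine log_aux (h1 _ hj _ (hc' _)) (h1 j hj.le _ (hc _ _)) (h1 _ hj _ (hc' _))
          (h1 j hj.le _ (hc _ _)) (le_of_tendsto_of_tendsto' ((hl _ _).mul (hl j _))
            (((hl _ _).mul (hl j _)).const_mul 2) fun t => ?_)
        simp only [ET, letters, map_cons]
        exact_mod_cast (h.map_pb hF (f ^ t)).ct3 hF j (hb y) (hb P) _,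
      fun y z w T hT => by
        have hc : ∀ a b : ℕ, (a ::ₘ b ::ₘ T).card = n - j := fun a b => by
          simp only [card_cons]; omega
        have hc' : ∀ a : ℕ, (a ::ₘ T).card = n - (j + 1) := fun a => by simpa using hT
        refine log_aux' (h1 _ hj _ (hc' _)) (h1 j hj.le _ (hc _ _)) (h1 _ hj _ (hc' _))
          (h1 j hj.le _ (hc _ _)) (h1 _ hj _ (hc' _)) (h1 j hj.le _ (hc _ _))
          (le_of_tendsto_of_tendsto' ((hl _ _).mul (hl j _))
            ((((hl _ _).mul (hl j _)).add ((hl _ _).mul (hl j _))).const_mul 2) fun t => ?_)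
        simp only [ET, letters, map_cons]
        exact_mod_cast (h.map_pb hF (f ^ t)).ct4 hF j (hb y) (hb z) (hb w) _⟩)
  simpa only [EL_zero] using this

end Pool.Agent.Lib.MP_bc213e_ag.Dyn
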