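import Pool.Agent.Lib.MP_bc213e_ag.Dyn.Geo
import Pool.Agent.Lib.MP_bc213e_ag.Dyn.NefM

/-!
Link between the definitions of the statement and the toolbox.
-/

namespace Pool.Agent.Lib.MP_bc213e_ag.Dyn

open Submodule Filter Topology Multiset

variable {K : Type} [Field K] [Algebra ℂ K] {n : ℕ}

theorem dif_one_iterate (x : Submodule ℂ K) (a : ℕ) (T : Multiset (Submodule ℂ K))
    (h : Submodule ℂ K → ℤ) : (dif x 1)^[a] (difM T h) = difM (replicate a x + T) h := by
  induction a with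
  | zero => simp
  | succ a ih =>
    rw [Function.iterate_succ_apply', ih, replicate_succ, cons_add]
    funext W
    rw [dif, difM_cons, one_mul]

/-- `dif_one_iterate` twice, `isD_D` with `P = x * 1 * L`, `U = 1`; `Filter.Tendsto.limUnder_eq`
(`tendsto_const_nhds.congr'`). -/
theorem inter_eq_D (hF : FF ℂ K n) {x L : Submodule ℂ K} (hx : Big x) (hL : Bir L) {a : ℕ}
    (ha : a ≤ n) : inter n a x 1 L = D n (replicate a x + replicate (n - a) L) := by
  have hT : ∀ z ∈ replicate a x + replicate (n - a) L, z = x ∨ z = L := fun z hz =>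
    (mem_add.1 hz).imp eq_of_mem_replicate eq_of_mem_replicate
  have h := isD_D hF (T := replicate a x + replicate (n - a) L) (by simp [ha])
    (fun z hz => (hT z hz).elim (· ▸ hx) (· ▸ hL.big)) (x * 1 * L) 1
    (by rw [mul_one, mul_comm]; exact hL.mul hx.1 hx.2.1)
    (fun z hz => (hT z hz).elim (· ▸ (dvd_mul_right _ _).mul_right _) (· ▸ dvd_mul_left _ _))
    fg_one' one_ne_bot'
  refine (tendsto_const_nhds.congr' (h.mono fun r hr => ?_)).limUnder_eq
  have e1 := dif_one_iterate L (n - a) 0 (hf (k := ℂ) (K := K))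
  rw [difM_zero, add_zero] at e1
  rw [mul_one (_ ^ r), ← dif_one_iterate, ← e1] at hr
  exact hr.symm

theorem dif_iterate_shift (x y L : Submodule ℂ K) (j : ℕ) (h : Submodule ℂ K → ℤ)
    (W : Submodule ℂ K) : (dif x y)^[j] h (L ^ j * W) = (dif (x * L) (y * L))^[j] h W := by
  induction j generalizing W with
  | zero => simp
  | succ j ih =>
    rw [Function.iterate_succ_apply', Function.iterate_succ_apply', dif, dif, ← ih, ← ih]
    rw [show x * (L ^ (j + 1) * W) = L ^ j * (x * L * W) by ring,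
      show y * (L ^ (j + 1) * W) = L ^ j * (y * L * W) by ring]

theorem dif_iterate_sub (x y : Submodule ℂ K) (j : ℕ) (h h' : Submodule ℂ K → ℤ) :
    (dif x y)^[j] (h - h') = (dif x y)^[j] h - (dif x y)^[j] h' := by
  induction j with
  | zero => rfl
  | succ j ih =>
    funext W
    simp only [Function.iterate_succ_apply', ih, dif, Pi.sub_apply]
    ring

/-- Induction on `j` generalizing `T`: `dif x y (difM T h) = difM (x :: T) h - difM (y :: T) h`
and iterates of `dif x y` commute with differences. -/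
theorem dif_iterate_eventually (hF : FF ℂ K n) {x y P U : Submodule ℂ K} (hx : Big x) (hy : Big y)
    (hP : Bir P) (hxP : x ∣ P) (hyP : y ∣ P) (hU : U.FG) (hU' : U ≠ ⊥) (j : ℕ)
    {T : Multiset (Submodule ℂ K)} (hc : T.card + j = n) (hT : ∀ z ∈ T, Big z ∧ z ∣ P) :
    ∀ᶠ r : ℕ in atTop, (dif x y)^[j] (difM T hf) (P ^ r * U) = IN n x y j T := by
  induction j generalizing T with
  | zero => exact isD_D hF hc (fun z hz => (hT z hz).1) P U hP (fun z hz => (hT z hz).2) hU hU'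
  | succ j ih =>
    have hc' : ∀ z : Submodule ℂ K, (z ::ₘ T).card + j = n := fun z => by
      rw [card_cons]
      omega
    have hT' : ∀ {a : Submodule ℂ K}, Big a → a ∣ P → ∀ z ∈ a ::ₘ T, Big z ∧ z ∣ P :=
      fun ha ha' z hz => (mem_cons.1 hz).elim (· ▸ ⟨ha, ha'⟩) (hT z)
    filter_upwards [ih (hc' x) (hT' hx hxP), ih (hc' y) (hT' hy hyP)] with r h1 h2
    have e : dif x y (difM T hf) = difM (x ::ₘ T) hf - difM (y ::ₘ T) hf := by
      funext W
      rw [Pi.sub_apply, dif, difM_cons, difM_cons]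
      ring
    rw [Function.iterate_succ_apply, e, dif_iterate_sub, Pi.sub_apply, h1, h2, IN]

/-- Sketch: `P = M * N * L`, `P^(r+j) = L^j * (P^r * L^j)` for `L = M * N`
(`Filter.tendsto_add_atTop_iff_nat` or `eventually_atTop`). -/
theorem inter_eq_IN (hF : FF ℂ K n) {M N : Submodule ℂ K} (hM : M.FG) (hM' : M ≠ ⊥) (hN : N.FG)
    (hN' : N ≠ ⊥) (hL : Bir (M * N)) {j : ℕ} (hj : j ≤ n) :
    inter n j M N (M * N) =
      IN n (M * (M * N)) (N * (M * N)) j (replicate (n - j) (M * N)) := by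
  have hb : ∀ {x : Submodule ℂ K}, x.FG → x ≠ ⊥ → Bir (x * (M * N)) := fun hx hx' =>
    mul_comm (M * N) _ ▸ hL.mul hx hx'
  have h := dif_iterate_eventually hF (hb hM hM').big (hb hN hN').big (hb hL.1 hL.2.1)
    ⟨N, by ring⟩ ⟨M, by ring⟩ (hL.1.pow j) (pow_ne_bot' hL.2.1 j) j
    (T := replicate (n - j) (M * N)) (by simp [hj])
    fun z hz => by
      rw [eq_of_mem_replicate hz]
      exact ⟨hL.big, dvd_mul_left _ _⟩
  refine ((tendsto_add_atTop_iff_nat j).1
    (tendsto_const_nhds.congr' (h.mono fun r hr => ?_))).limUnder_eq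
  have e1 := dif_one_iterate (M * N) (n - j) 0 (hf (k := ℂ) (K := K))
  rw [difM_zero, add_zero] at e1
  rw [← dif_iterate_shift, ← e1, show (M * N) ^ j * ((M * N * (M * N)) ^ r * (M * N) ^ j) =
    (M * N * (M * N)) ^ (r + j) by ring] at hr
  exact hr.symm

/-- Sketch: choose `m i, k i, V i` for `ε = 1 / (i+1)`; `dep_of_pole_le` in both directions for
`V * N^m` and `M^m * L^k`; take `V' = V^(i+1) * L`, `m' = (i+1) m`, `κ' = (i+1) k + 1`. -/
theorem exists_nefSeq (dim : Algebra.trdeg ℂ K = n) (δ : Fin n → Derivation ℂ K K)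
    {M N : Submodule ℂ K} (hM : M.FG) (hM' : M ≠ ⊥) (hN : N.FG) (hN' : N ≠ ⊥) (hL : Bir (M * N))
    (h : Nef M N) : ∃ (V : ℕ → Submodule ℂ K) (m κ : ℕ → ℕ),
      NefSeq (M * (M * N)) (N * (M * N)) (M * N) V m κ ∧
        (∀ i, Dep (V i * N ^ m i) (M ^ m i * (M * N) ^ κ i)) ∧
        ∀ i, Dep (M ^ m i * (M * N) ^ κ i) (V i * N ^ m i) := by
  choose m κ V hm hκ hV hV' hp using fun i : ℕ => h (1 / ((i : ℝ) + 1)) (by positivity)
  have hfg1 : ∀ i, (V i * N ^ m i).FG := fun i => (hV i).mul (hN.pow _)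
  have hne1 : ∀ i, V i * N ^ m i ≠ ⊥ := fun i => mul_ne_bot' (hV' i) (pow_ne_bot' hN' _)
  have hfg2 : ∀ i, (M ^ m i * (M * N) ^ κ i).FG := fun i => (hM.pow _).mul (hL.1.pow _)
  have hne2 : ∀ i, M ^ m i * (M * N) ^ κ i ≠ ⊥ := fun i =>
    mul_ne_bot' (pow_ne_bot' hM' _) (pow_ne_bot' hL.2.1 _)
  have he : ∀ i (w : Valuation K (WithZero (Multiplicative ℤ))),
      (∀ c : ℂ, w (algebraMap ℂ K c) ≤ 1) →
        pole (V i * N ^ m i) w = pole (M ^ m i * (M * N) ^ κ i) w := fun i w hw => by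
    rw [pole_mul hw (hV i) (hV' i) (hN.pow _) (pow_ne_bot' hN' _),
      pole_mul hw (hM.pow _) (pow_ne_bot' hM' _) (hL.1.pow _) (pow_ne_bot' hL.2.1 _),
      pole_pow hw hN hN', pole_pow hw hM hM', pole_pow hw hL.1 hL.2.1, hp i w hw]
    ring
  have hle : ∀ i, Dep ((V i ^ (i + 1) * (M * N)) * N ^ ((i + 1) * m i))
      (M ^ ((i + 1) * m i) * (M * N) ^ ((i + 1) * κ i + 1)) := fun i => by
    have := ((dep_of_pole_le dim δ hL (hfg1 i) (hne1 i) (hfg2 i) (hne2 i)
      fun w hw => (he i w hw).le).pow (i + 1)).mul (Dep.rfl (U := M * N))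
    convert this using 1 <;> ring
  have hge : ∀ i, Dep (M ^ ((i + 1) * m i) * (M * N) ^ ((i + 1) * κ i + 1))
      ((V i ^ (i + 1) * (M * N)) * N ^ ((i + 1) * m i)) := fun i => by
    have := ((dep_of_pole_le dim δ hL (hfg2 i) (hne2 i) (hfg1 i) (hne1 i)
      fun w hw => (he i w hw).ge).pow (i + 1)).mul (Dep.rfl (U := M * N))
    convert this using 1 <;> ring
  have hb : ∀ {x : Submodule ℂ K}, x.FG → x ≠ ⊥ → Big (x * (M * N)) := fun hx hx' =>
    mul_comm (M * N) _ ▸ hL.big.mul hx hx'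
  refine ⟨fun i => V i ^ (i + 1) * (M * N), fun i => (i + 1) * m i, fun i => (i + 1) * κ i + 1,
    ⟨hb hM hM', hb hN hN', hL.big, fun i => hb ((hV i).pow _) (pow_ne_bot' (hV' i) _),
      fun i => Nat.mul_pos i.succ_pos (hm i), fun i => ?_, fun i => ?_, ?_⟩, hle, hge⟩
  · have := (hle i).mul (Dep.rfl (U := (M * N) ^ ((i + 1) * m i)))
    convert this using 1 <;> ring
  · have := (hge i).mul (Dep.rfl (U := (M * N) ^ ((i + 1) * m i)))
    convert this using 1 <;> ring
  · have h1 := tendsto_one_div_add_atTop_nhds_zero_nat (𝕜 := ℝ).const_mul 2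
    rw [mul_zero] at h1
    refine squeeze_zero (fun i => by positivity) (fun i => ?_) h1
    have h2 : (1 : ℝ) ≤ m i := by exact_mod_cast hm i
    have h3 := hκ i
    have h4 : (0 : ℝ) < (i : ℝ) + 1 := by positivity
    rw [one_div_mul_eq_div, le_div_iff₀ h4] at h3
    push_cast
    rw [mul_one_div, div_le_div_iff₀ (by positivity) h4]
    nlinarith

theorem ldeg_eq_rate (hF : FF ℂ K n) (f : K →ₐ[ℂ] K) {L : Submodule ℂ K} (hL : Bir L) {a : ℕ}
    (ha : a ≤ n) : ldeg n f L a = rate n (fun S => Real.log (D n (letters f L S))) a := by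
  unfold ldeg rate
  congr 1
  funext t
  rw [← pb_apply, inter_eq_D hF (hL.big.map_pb hF.dim hF.dim _) hL ha]
  simp only [letters, Multiset.map_add, map_replicate, pb_pow_zero]

theorem main (dim : Algebra.trdeg ℂ K = n) (M N : Submodule ℂ K) (hM : M.FG) (hN : N.FG)
    (bir : Birational (M * N)) (nef : Nef M N) (δ : Fin n → Derivation ℂ K K)
    (hδ : LinearIndependent K δ) (q : ℕ) (f : K →ₐ[ℂ] K)
    (dyn : ∀ w, OnModel n (M * N) w → logDisc δ q M N w ≤ logDisc δ q M N (w.comap f))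
    (j : ℕ) (hj : j ≤ n)
    (hs : {a | a < n ∧ ldeg n f (M * N) (a + 1) = ldeg n f (M * N) a}.ncard < j) :
    inter n j M N (M * N) = 0 := by
  have hL' : M * N ≠ ⊥ := by
    intro h0
    have h1 : Algebra.IsAlgebraic ℂ K := ⟨fun a => by
      have ha : a ∈ (⊥ : IntermediateField ℂ K) := by
        have h2 : (⊤ : IntermediateField ℂ K) ≤ ⊥ := by
          rw [← bir, IntermediateField.adjoin_le_iff]
          rintro _ ⟨a, ha, b, -, rfl⟩
          rw [h0, Submodule.mem_bot] at ha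
          rw [ha, zero_div]
          exact zero_mem _
        exact h2 IntermediateField.mem_top
      obtain ⟨c, rfl⟩ := IntermediateField.mem_bot.1 ha
      exact isAlgebraic_algebraMap c⟩
    rw [trdeg_eq_zero] at dim
    have : n = 0 := by exact_mod_cast dim.symm
    omega
  have hM' : M ≠ ⊥ := fun h => hL' (by rw [h, Submodule.bot_mul])
  have hN' : N ≠ ⊥ := fun h => hL' (by rw [h, Submodule.mul_bot])
  have hL : Bir (M * N) := bir_of_adjoin (hM.mul hN) hL' bir
  have hF : FF ℂ K n := ⟨dim, _, hL⟩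
  obtain ⟨V, m, κ, h, hle, hge⟩ := exists_nefSeq dim δ hM hM' hN hN' hL nef
  obtain ⟨c, hc⟩ := dep_pb dim hδ hM hM' hN hN' hL q f dyn
  obtain ⟨g, hg, hg0⟩ := (Submodule.ne_bot_iff _).1 hL'
  have H : ∀ i, ∃ q : K, q ≠ 0 ∧ Dep (sc ℂ q * pb f (V i)) (V i * (M * N) ^ (c * κ i)) := by
    intro i
    obtain ⟨ψ, hψ, h1⟩ := hc (V i) (m i) (κ i) (h.big i).1 (h.big i).2.1 (hle i)
    refine ⟨ψ * g ^ κ i, mul_ne_zero hψ (pow_ne_zero _ hg0),
      Dep.cancel (Y := N ^ m i) ?_ (hN.pow _) (pow_ne_bot' hN' _)⟩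
    have h2 := h1.mul (Dep.of_le (sc_le.2 (Submodule.pow_mem_pow _ hg (κ i))))
    have h3 := (hge i).mul (Dep.rfl (U := (M * N) ^ (c * κ i)))
    have e1 : sc ℂ (ψ * g ^ κ i) * pb f (V i) * N ^ m i =
        sc ℂ ψ * pb f (V i) * N ^ m i * sc ℂ (g ^ κ i) := by
      rw [sc_mul]
      ring
    have e2 : V i * (M * N) ^ (c * κ i) * N ^ m i = V i * N ^ m i * (M * N) ^ (c * κ i) := by ring
    rw [e1, e2]
    refine h2.trans ?_
    rwa [mul_right_comm]
  by_contra hne
  rw [inter_eq_IN hF hM hM' hN hN' hL hj] at hne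
  refine absurd (h.main hF H hj hne) (not_le.2 (lt_of_eq_of_lt ?_ hs))
  congr 1
  ext a
  refine and_congr_right fun ha => ?_
  rw [ldeg_eq_rate hF f hL (Nat.succ_le_of_lt ha), ldeg_eq_rate hF f hL ha.le]

end Pool.Agent.Lib.MP_bc213e_ag.Dyn
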