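import Mathlib

/-!
Growth rates of systems of mixed degrees: interlacing and loss of one neutral multiplier.
-/

namespace Pool.Agent.Lib.MP_bc213e_ag.Dyn

open Filter Topology Multiset

/-- Logarithms of mixed degrees. -/
structure Sys (n : ℕ) (γ c : ℝ) (G : Multiset ℕ → ℝ) : Prop where
  nonneg : ∀ S, S.card = n → 0 ≤ G S
  shift : ∀ S, S.card = n → G (S.map (· + 1)) = G S + γ
  t3 : ∀ x y M T, T.card + 2 = n →
    G (x ::ₘ y ::ₘ T) + G (M ::ₘ M ::ₘ T) ≤ c + G (x ::ₘ M ::ₘ T) + G (M ::ₘ y ::ₘ T)

/-- Inequalities between a system `G` of dimension `n + 1` and a system `G'` of dimension `n`. -/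
structure Cross (n : ℕ) (c : ℝ) (G G' : Multiset ℕ → ℝ) : Prop where
  t3 : ∀ y M T, T.card + 1 = n →
    G' (y ::ₘ T) + G (M ::ₘ M ::ₘ T) ≤ c + G' (M ::ₘ T) + G (M ::ₘ y ::ₘ T)
  t4 : ∀ y z w T, T.card + 1 = n → G' (z ::ₘ T) + G (y ::ₘ w ::ₘ T) ≤
    c + max (G' (w ::ₘ T) + G (z ::ₘ y ::ₘ T)) (G' (y ::ₘ T) + G (z ::ₘ w ::ₘ T))

/-- The growth rates. -/
noncomputable def rate (n : ℕ) (G : Multiset ℕ → ℝ) (a : ℕ) : ℝ :=
  limUnder atTop fun t : ℕ => G (replicate a t + replicate (n - a) 0) / t

variable {n : ℕ} {γ c : ℝ} {G G' : Multiset ℕ → ℝ}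

theorem Sys.shift_add (h : Sys n γ c G) (S : Multiset ℕ) (hS : S.card = n) (t : ℕ) :
    G (S.map (· + t)) = G S + t * γ := by
  induction t with
  | zero => simp
  | succ t ih =>
    have e : S.map (· + (t + 1)) = (S.map (· + t)).map (· + 1) := by
      rw [Multiset.map_map]
      rfl
    rw [e, h.shift _ (by rw [card_map, hS]), ih]
    push_cast
    ring

/-- Induction on `Y` generalizing `R` (apply the hypothesis to `M ::ₘ R`). -/
theorem Sys.swap_one (h : Sys n γ c G) (x M : ℕ) (Y R : Multiset ℕ)
    (hc : 1 + Y.card + R.card = n) :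
    G (x ::ₘ (Y + R)) - G (M ::ₘ (Y + R)) ≤
      G (x ::ₘ (replicate Y.card M + R)) - G (M ::ₘ (replicate Y.card M + R)) + Y.card * c := by
  induction Y using Multiset.induction_on generalizing R with
  | empty => simp
  | cons y Y ih =>
    have h1 := h.t3 x y M (Y + R) (by simp only [card_cons, card_add] at hc ⊢; omega)
    have h2 := ih (M ::ₘ R) (by simp only [card_cons] at hc ⊢; omega)
    rw [add_cons, add_cons] at h2
    rw [card_cons, replicate_succ, cons_add, cons_add]
    push_cast
    linarith

/-- Induction on `a` generalizing `R`; telescoping sum of `swap_one`. -/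
theorem Sys.swap (h : Sys n γ c G) (x M a : ℕ) (Y R : Multiset ℕ)
    (hc : a + Y.card + R.card = n) :
    G (replicate a x + (Y + R)) - G (replicate a M + (Y + R)) ≤
      G (replicate a x + (replicate Y.card M + R)) - G (replicate a M + (replicate Y.card M + R)) +
        a * Y.card * c := by
  induction a generalizing R with
  | zero => simp
  | succ a ih =>
    have h1 := h.swap_one x M Y (replicate a x + R)
      (by simp only [card_replicate, card_add]; omega)
    have h2 := ih (M ::ₘ R) (by simp only [card_cons]; omega)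
    simp only [add_cons] at h2
    rw [add_left_comm Y, add_left_comm (replicate Y.card M)] at h1
    simp only [replicate_succ, cons_add]
    push_cast
    linarith

/-- Fekete. Sketch: `φ t = G (t^a, 0^b)`; `swap` with `x = s + t`, `M = s`, `Y = 0^b`, `R = 0` and
`shift_add` give `φ (s + t) ≤ φ s + φ t + C`; apply `Subadditive.tendsto_lim` to `φ + |C|`. -/
theorem Sys.tendsto_rate (h : Sys n γ c G) {a b : ℕ} (hab : a + b = n) :
    Tendsto (fun t : ℕ => G (replicate a t + replicate b 0) / t) atTop (𝓝 (rate n G a)) := by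
  obtain ⟨C, hC⟩ : ∃ C : ℝ, C = |(a * b * c - G (replicate a 0 + replicate b 0))| := ⟨_, rfl⟩
  have hsub : Subadditive fun t : ℕ => G (replicate a t + replicate b 0) + C := by
    intro s t
    have h1 := h.swap (t + s) s a (replicate b 0) 0 (by simpa using hab)
    have h2 := h.shift_add (replicate a t + replicate b 0) (by simpa using hab) s
    have h3 := h.shift_add (replicate a 0 + replicate b 0) (by simpa using hab) s
    simp only [Multiset.map_add, map_replicate, zero_add, add_zero, card_replicate] at h1 h2 h3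
    have h4 := le_abs_self (a * b * c - G (replicate a 0 + replicate b 0))
    rw [add_comm s t]
    linarith
  have h1 := hsub.tendsto_lim ⟨0, by
    rintro _ ⟨t, rfl⟩
    refine div_nonneg (add_nonneg (h.nonneg _ (by simpa using hab)) ?_) (Nat.cast_nonneg t)
    rw [hC]
    exact abs_nonneg _⟩
  have h2 : Tendsto (fun t : ℕ => G (replicate a t + replicate b 0) / t) atTop (𝓝 hsub.lim) := by
    have h3 := h1.sub (tendsto_const_div_atTop_nhds_zero_nat C)
    rw [sub_zero] at h3
    exact h3.congr fun t => by ring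
  have e : rate n G a = hsub.lim := by
    rw [rate, show n - a = b by omega]
    exact h2.limUnder_eq
  rwa [e]

theorem Sys.rate_zero (h : Sys n γ c G) : rate n G 0 = 0 := by
  refine tendsto_nhds_unique (h.tendsto_rate (a := 0) (b := n) (zero_add n)) ?_
  exact tendsto_const_div_atTop_nhds_zero_nat (G (replicate 0 0 + replicate n 0))

theorem Sys.rate_top (h : Sys n γ c G) : rate n G n = γ := by
  refine tendsto_nhds_unique (h.tendsto_rate (a := n) (b := 0) rfl) ?_
  have h1 := (tendsto_const_div_atTop_nhds_zero_nat (G (replicate n 0))).add_const γ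
  rw [zero_add] at h1
  refine h1.congr' ?_
  filter_upwards [eventually_gt_atTop 0] with t ht
  have h2 := h.shift_add (replicate n 0) (card_replicate _ _) t
  have h3 : (t : ℝ) ≠ 0 := by exact_mod_cast ht.ne'
  rw [map_replicate, zero_add] at h2
  rw [replicate_zero, add_zero, h2]
  field_simp

/-- Three levels. Sketch: write `φ_a t = G (t^a, 0^(n-a))`. Upper bound: `swap` with `x = 2t`,
`M = t`, `Y = 0^d`, `R = t^b` bounds it by `φ_(a+b) t + φ_a t + C`. Lower bound: `swap` with
`Y = 0^b`, `R = 0^d` bounds it below by `φ_(a+b) t + φ_a (2t) - φ_a t - C`. -/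
theorem Sys.tendsto_three (h : Sys n γ c G) {a b d : ℕ} (hab : a + b + d = n) :
    Tendsto (fun t : ℕ => G (replicate a (2 * t) + replicate b t + replicate d 0) / t) atTop
      (𝓝 (rate n G a + rate n G (a + b))) := by
  have t1 := h.tendsto_rate (a := a) (b := b + d) (by omega)
  have t2 := h.tendsto_rate (a := a + b) (b := d) hab
  have t3 : Tendsto (fun t : ℕ => G (replicate a (2 * t) + replicate (b + d) 0) / t) atTop
      (𝓝 (2 * rate n G a)) := by
    have h1 := (t1.comp (tendsto_id.const_mul_atTop' zero_lt_two)).const_mul 2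
    refine h1.congr' ?_
    filter_upwards [eventually_gt_atTop 0] with t ht
    have h3 : (t : ℝ) ≠ 0 := by exact_mod_cast ht.ne'
    simp only [Function.comp_apply, id]
    push_cast
    field_simp
  have lo := ((t2.add t3).sub t1).sub (tendsto_const_div_atTop_nhds_zero_nat (a * b * c))
  have up := (t2.add t1).add
    (tendsto_const_div_atTop_nhds_zero_nat (a * d * c - G (replicate a 0 + replicate (b + d) 0)))
  rw [show rate n G (a + b) + 2 * rate n G a - rate n G a - 0 =
    rate n G a + rate n G (a + b) by ring] at lo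
  rw [add_zero, add_comm (rate n G (a + b))] at up
  refine tendsto_of_tendsto_of_tendsto_of_le_of_le lo up (fun t => ?_) fun t => ?_
  · have h1 := h.swap (2 * t) t a (replicate b 0) (replicate d 0) (by simpa using hab)
    simp only [card_replicate] at h1
    simp only [← sub_div, ← add_div, replicate_add, add_assoc]
    exact div_le_div_of_nonneg_right (by linarith) (Nat.cast_nonneg t)
  · have h1 := h.swap (2 * t) t a (replicate d 0) (replicate b t)
      (by simp only [card_replicate]; omega)
    have h2 := h.shift_add (replicate a t + replicate (b + d) 0)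
      (by simp only [card_replicate, card_add]; omega) t
    have h3 := h.shift_add (replicate a 0 + replicate (b + d) 0)
      (by simp only [card_replicate, card_add]; omega) t
    simp only [Multiset.map_add, map_replicate, zero_add, ← two_mul] at h2 h3
    rw [card_replicate, add_comm (replicate d 0), add_comm (replicate d t), ← replicate_add b d,
      h2, h3] at h1
    simp only [← add_div, replicate_add a b, add_assoc]
    exact div_le_div_of_nonneg_right (by linarith) (Nat.cast_nonneg t)

/-- Interlacing. Sketch: `Cross.t3` with `T = (t^a, 0^(n-1-a))`, and `(y, M) = (t, 0)`, resp.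
`(y, M) = (0, t)`; divide by `t`. -/
theorem Cross.interlace (h : Sys (n + 1) γ c G) (h' : Sys n γ c G') (hc : Cross n c G G') {a : ℕ}
    (ha : a < n) :
    rate n G' (a + 1) - rate n G' a ≤ rate (n + 1) G (a + 1) - rate (n + 1) G a ∧
      rate (n + 1) G (a + 2) - rate (n + 1) G (a + 1) ≤ rate n G' (a + 1) - rate n G' a := by
  obtain ⟨b, rfl⟩ : ∃ b, n = a + b + 1 := ⟨n - a - 1, by omega⟩
  have s0 := h'.tendsto_rate (a := a) (b := b + 1) (by omega)
  have s1 := h'.tendsto_rate (a := a + 1) (b := b) (by omega)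
  have t0 := h.tendsto_rate (a := a) (b := b + 1 + 1) (by omega)
  have t1 := h.tendsto_rate (a := a + 1) (b := b + 1) (by omega)
  have t2 := h.tendsto_rate (a := a + 1 + 1) (b := b) (by omega)
  have tc := tendsto_const_div_atTop_nhds_zero_nat c
  constructor
  · have := le_of_tendsto_of_tendsto' (s1.add t0) ((tc.add s0).add t1) fun t => by
      have h1 := hc.t3 t 0 (replicate a t + replicate b 0) (by simp)
      simp only [← add_div, replicate_succ, cons_add, add_cons]
      rw [cons_swap 0 t] at h1
      rw [cons_swap 0 t]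
      exact div_le_div_of_nonneg_right h1 (Nat.cast_nonneg t)
    linarith
  · have := le_of_tendsto_of_tendsto' (s0.add t2) ((tc.add s1).add t1) fun t => by
      have h1 := hc.t3 0 t (replicate a t + replicate b 0) (by simp)
      simp only [← add_div, replicate_succ, cons_add, add_cons]
      rw [cons_swap 0 t]
      exact div_le_div_of_nonneg_right h1 (Nat.cast_nonneg t)
    linarith

/-- Sketch: `Cross.t4` with `T = ((2t)^a, t^(l-a), 0^(n-1-l))`, `z = t`, `y = 2t`, `w = 0`. -/
theorem Cross.exchange (h : Sys (n + 1) γ c G) (h' : Sys n γ c G') (hc : Cross n c G G')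
    {a l : ℕ} (hal : a ≤ l) (hl : l < n) :
    rate (n + 1) G (a + 1) - rate (n + 1) G a ≤ rate n G' (a + 1) - rate n G' a ∨
      rate n G' (l + 1) - rate n G' l ≤ rate (n + 1) G (l + 2) - rate (n + 1) G (l + 1) := by
  obtain ⟨b, rfl⟩ : ∃ b, l = a + b := ⟨l - a, by omega⟩
  obtain ⟨d, rfl⟩ : ∃ d, n = a + b + d + 1 := ⟨n - a - b - 1, by omega⟩
  have s1 := h'.tendsto_three (a := a) (b := b + 1) (d := d) (by omega)
  have s0 := h'.tendsto_three (a := a) (b := b) (d := d + 1) (by omega)
  have s2 := h'.tendsto_three (a := a + 1) (b := b) (d := d) (by omega)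
  have t1 := h.tendsto_three (a := a + 1) (b := b) (d := d + 1) (by omega)
  have t0 := h.tendsto_three (a := a + 1) (b := b + 1) (d := d) (by omega)
  have t2 := h.tendsto_three (a := a) (b := b + 1) (d := d + 1) (by omega)
  have tc := tendsto_const_div_atTop_nhds_zero_nat c
  have := le_of_tendsto_of_tendsto' (s1.add t1) (tc.add ((s0.add t0).max (s2.add t2))) fun t => by
    have h1 := hc.t4 (2 * t) t 0 (replicate a (2 * t) + replicate b t + replicate d 0) (by simp)
    simp only [← add_div, replicate_succ, cons_add, add_cons, max_div_div_right (Nat.cast_nonneg t)]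
    rw [cons_swap (2 * t) 0, cons_swap t 0] at h1
    exact div_le_div_of_nonneg_right h1 (Nat.cast_nonneg t)
  rw [zero_add, le_max_iff, show a + (b + 1) = a + b + 1 by ring,
    show a + 1 + b = a + b + 1 by ring, show a + 1 + (b + 1) = a + b + 2 by ring] at this
  rcases this with h1 | h1
  · right
    linarith
  · left
    linarith

/-- Sketch: put `α i = u (i+1) - u i`, `β i = v (i+1) - v i`. Let `i₀ ≤ n` be minimal with
`i₀ = n` or `β i₀ < α i₀`. Then `β i = α i` for `i < i₀` and `β i = α (i+1)` for `i₀ ≤ i < n`; so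
`v i = u i` for `i ≤ i₀`, `v i = u (i+1) - α i₀` for `i₀ ≤ i ≤ n`, hence `α i₀ = 0`. The left set
with `i₀` removed is the image of the right set under the injective map that skips `i₀`. -/
theorem zeros_succ_aux (u v : ℕ → ℝ) (n : ℕ) (h0 : u 0 = v 0) (h1 : u (n + 1) = v n)
    (hi : ∀ a < n, v (a + 1) - v a ≤ u (a + 1) - u a ∧ u (a + 2) - u (a + 1) ≤ v (a + 1) - v a)
    (he : ∀ a l, a ≤ l → l < n → u (a + 1) - u a ≤ v (a + 1) - v a ∨
      v (l + 1) - v l ≤ u (l + 2) - u (l + 1)) :
    {a | a < n ∧ v (a + 1) = v a}.ncard + 1 ≤ {a | a < n + 1 ∧ u (a + 1) = u a}.ncard := by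
  classical
  have hex : ∃ i, i = n ∨ v (i + 1) - v i < u (i + 1) - u i := ⟨n, Or.inl rfl⟩
  obtain ⟨i₀, hi₀⟩ : ∃ i₀, i₀ = Nat.find hex := ⟨_, rfl⟩
  have hle : i₀ ≤ n := hi₀ ▸ Nat.find_min' hex (Or.inl rfl)
  have e1 : ∀ i < i₀, v (i + 1) - v i = u (i + 1) - u i := fun i hi' =>
    le_antisymm (hi i (by omega)).1 (not_lt.1 fun h => Nat.find_min hex (hi₀ ▸ hi') (Or.inr h))
  have e2 : ∀ i, i₀ ≤ i → i < n → v (i + 1) - v i = u (i + 2) - u (i + 1) := by
    intro i h2 h3
    refine le_antisymm ((he i₀ i h2 h3).resolve_left (not_le.2 ?_)) (hi i h3).2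
    exact (hi₀ ▸ Nat.find_spec hex).resolve_left (by omega)
  have e3 : ∀ i ≤ i₀, v i = u i := by
    intro i
    induction i with
    | zero => exact fun _ => h0.symm
    | succ i ih =>
      intro h2
      have := e1 i h2
      have := ih (by omega)
      linarith
  have e4 : ∀ i, i₀ ≤ i → i ≤ n → v i = u (i + 1) - (u (i₀ + 1) - u i₀) := by
    intro i h2
    induction i, h2 using Nat.le_induction with
    | base =>
      intro _
      rw [e3 i₀ le_rfl]
      ring
    | succ i h2 ih =>
      intro h3
      have := e2 i h2 h3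
      have := ih (by omega)
      linarith
  have e5 : u (i₀ + 1) = u i₀ := by
    have := e4 n hle le_rfl
    linarith
  have hfin : {a | a < n + 1 ∧ u (a + 1) = u a}.Finite :=
    (Set.finite_lt_nat _).subset fun a ha => ha.1
  have hmem : i₀ ∈ {a | a < n + 1 ∧ u (a + 1) = u a} := ⟨by omega, e5⟩
  rw [← Set.ncard_sdiff_singleton_add_one hmem hfin]
  refine Nat.succ_le_succ (Set.ncard_le_ncard_of_injOn (fun a => if a < i₀ then a else a + 1)
    (fun a ha => ?_) (fun a _ b _ hab => ?_) hfin.sdiff)
  · obtain ⟨ha1, ha2⟩ := ha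
    split_ifs with h2
    · have := e1 a h2
      exact ⟨⟨by omega, by linarith⟩, h2.ne⟩
    · have := e2 a (by omega) ha1
      exact ⟨⟨by omega, by linarith⟩, fun h3 => h2 (by rw [← Set.mem_singleton_iff.1 h3]; omega)⟩
  · simp only at hab
    split_ifs at hab <;> omega

theorem Cross.zeros_succ (h : Sys (n + 1) γ c G) (h' : Sys n γ c G') (hc : Cross n c G G') :
    {a | a < n ∧ rate n G' (a + 1) = rate n G' a}.ncard + 1 ≤
      {a | a < n + 1 ∧ rate (n + 1) G (a + 1) = rate (n + 1) G a}.ncard :=
  zeros_succ_aux _ _ n (h.rate_zero.trans h'.rate_zero.symm) (h.rate_top.trans h'.rate_top.symm)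
    (fun _ ha => hc.interlace h h' ha) fun _ _ hal hl => hc.exchange h h' hal hl

theorem le_zeros (J : ℕ) : ∀ (n : ℕ) (G : ℕ → Multiset ℕ → ℝ), J ≤ n →
    (∀ j ≤ J, Sys (n - j) γ c (G j)) → (∀ j < J, Cross (n - (j + 1)) c (G j) (G (j + 1))) →
    J ≤ {a | a < n ∧ rate n (G 0) (a + 1) = rate n (G 0) a}.ncard := by
  induction J with
  | zero => exact fun _ _ _ _ _ => Nat.zero_le _
  | succ J ih =>
    intro n G hJ hs hc
    obtain ⟨n, rfl⟩ : ∃ m, n = m + 1 := ⟨n - 1, by omega⟩
    have h1 := ih n (fun j => G (j + 1)) (by omega)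
      (fun j hj => by simpa using hs (j + 1) (by omega))
      (fun j hj => by simpa using hc (j + 1) (by omega))
    have h2 := Cross.zeros_succ (n := n) (by simpa using hs 0 (by omega))
      (by simpa using hs 1 (by omega)) (by simpa using hc 0 (by omega))
    exact (Nat.succ_le_succ h1).trans h2

end Pool.Agent.Lib.MP_bc213e_ag.Dyn
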