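import Pool.Agent.Lib.MP_bc213e_ag.Dyn.T3
import Pool.Agent.Lib.MP_bc213e_ag.Dyn.Trop

/-!
Intersection numbers with powers of a nef class `M - N`.
-/

namespace Pool.Agent.Lib.MP_bc213e_ag.Dyn

open Submodule Module Filter Topology Multiset

variable {k K : Type} [Field k] [Field K] [Algebra k K]

/-- `V i` represents `m i (M - N) + κ i L` with `κ i / m i → 0`. -/
structure NefSeq (M N L : Submodule k K) (V : ℕ → Submodule k K) (m κ : ℕ → ℕ) : Prop where
  bM : Big M
  bN : Big N
  bL : Big L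
  big : ∀ i, Big (V i)
  pos : ∀ i, 0 < m i
  le : ∀ i, Dep (V i * N ^ m i) (M ^ m i * L ^ κ i)
  ge : ∀ i, Dep (M ^ m i * L ^ κ i) (V i * N ^ m i)
  lim : Tendsto (fun i => (κ i : ℝ) / m i) atTop (𝓝 0)

/-- The intersection number `(M - N)^j · T`. -/
noncomputable def IN (n : ℕ) (M N : Submodule k K) : ℕ → Multiset (Submodule k K) → ℤ
  | 0, T => D n T
  | j + 1, T => IN n M N j (M ::ₘ T) - IN n M N j (N ::ₘ T)

variable [CharZero k] {n : ℕ} {M N L : Submodule k K} {V : ℕ → Submodule k K} {m κ : ℕ → ℕ}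

omit [CharZero k] in
theorem NefSeq.map_pb (hF : FF k K n) (h : NefSeq M N L V m κ) (f : K →ₐ[k] K) :
    NefSeq (pb f M) (pb f N) (pb f L) (fun i => pb f (V i)) m κ := by
  have hb : ∀ {x : Submodule k K}, Big x → Big (pb f x) := fun hx => hx.map_pb hF.dim hF.dim f
  refine ⟨hb h.bM, hb h.bN, hb h.bL, fun i => hb (h.big i), h.pos, fun i => ?_, fun i => ?_, h.lim⟩
  · simpa only [map_mul, map_pow] using (h.le i).map_pb f
  · simpa only [map_mul, map_pow] using (h.ge i).map_pb f

omit [CharZero k] in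
theorem NefSeq.mul_pow (h : NefSeq M N L V m κ) (c : ℕ) :
    NefSeq M N L (fun i => V i * L ^ (c * κ i)) m (fun i => (c + 1) * κ i) := by
  have e : ∀ i, M ^ m i * L ^ ((c + 1) * κ i) = M ^ m i * L ^ κ i * L ^ (c * κ i) := fun i => by
    ring
  refine ⟨h.bM, h.bN, h.bL, fun i => (h.big i).mul (h.bL.1.pow _) (pow_ne_bot' h.bL.2.1 _), h.pos,
    fun i => ?_, fun i => ?_, ?_⟩
  · rw [e, mul_right_comm]
    exact (h.le i).mul Dep.rfl
  · rw [e, mul_right_comm (V i)]
    exact (h.ge i).mul Dep.rfl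
  · have := h.lim.const_mul ((c : ℝ) + 1)
    rw [mul_zero] at this
    refine this.congr fun i => ?_
    push_cast
    ring

/-- `D_dep` with `q = 1` in both directions, `D_mul_pow`, `D_pow`. -/
theorem NefSeq.D_cons (hF : FF k K n) (h : NefSeq M N L V m κ) (i : ℕ)
    (T : Multiset (Submodule k K)) :
    D n (V i ::ₘ T) = m i * (D n (M ::ₘ T) - D n (N ::ₘ T)) + κ i * D n (L ::ₘ T) := by
  have b1 : Big (V i * N ^ m i) := (h.big i).mul (h.bN.1.pow _) (pow_ne_bot' h.bN.2.1 _)
  have b2 : Big (M ^ m i * L ^ κ i) :=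
    (h.bM.pow (h.pos i)).mul (h.bL.1.pow _) (pow_ne_bot' h.bL.2.1 _)
  have h1 := D_dep hF b1 b2 one_ne_zero (by rw [sc_one, one_mul]; exact h.le i) T
  have h2 := D_dep hF b2 b1 one_ne_zero (by rw [sc_one, one_mul]; exact h.ge i) T
  have h3 := le_antisymm h1 h2
  rw [D_mul_pow hF (h.big i) h.bN, D_mul_pow hF (h.bM.pow (h.pos i)) h.bL,
    D_pow hF h.bM (h.pos i)] at h3
  linarith

/-- Induction on `j` generalizing `T`. -/
theorem NefSeq.tendsto (hF : FF k K n) (h : NefSeq M N L V m κ) (j : ℕ)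
    (T : Multiset (Submodule k K)) :
    Tendsto (fun i => (D n (replicate j (V i) + T) : ℝ) / (m i : ℝ) ^ j) atTop
      (𝓝 (IN n M N j T : ℝ)) := by
  induction j generalizing T with
  | zero => simp [IN]
  | succ j ih =>
    have h1 := ((ih (M ::ₘ T)).sub (ih (N ::ₘ T))).add (h.lim.mul (ih (L ::ₘ T)))
    rw [zero_mul, add_zero] at h1
    rw [IN]
    push_cast
    refine h1.congr fun i => ?_
    have h2 : (m i : ℝ) ≠ 0 := by exact_mod_cast (h.pos i).ne'
    rw [replicate_succ, cons_add, h.D_cons hF, add_cons, add_cons, add_cons]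
    push_cast
    field_simp
    ring

theorem NefSeq.nonneg (hF : FF k K n) (h : NefSeq M N L V m κ) (j : ℕ)
    (T : Multiset (Submodule k K)) : 0 ≤ IN n M N j T := by
  exact_mod_cast ge_of_tendsto' (h.tendsto hF j T) fun i =>
    div_nonneg (by exact_mod_cast D_nonneg hF _) (by positivity)

theorem NefSeq.dep (hF : FF k K n) (h : NefSeq M N L V m κ) (j : ℕ) {x y : Submodule k K}
    (hx : Big x) (hy : Big y) {q : K} (hq : q ≠ 0) (hd : Dep (sc k q * x) y)
    (T : Multiset (Submodule k K)) : IN n M N j (x ::ₘ T) ≤ IN n M N j (y ::ₘ T) := by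
  have := le_of_tendsto_of_tendsto' (h.tendsto hF j (x ::ₘ T)) (h.tendsto hF j (y ::ₘ T)) fun i => by
    refine div_le_div_of_nonneg_right ?_ (by positivity)
    rw [add_cons, add_cons]
    exact_mod_cast D_dep hF hx hy hq hd _
  exact_mod_cast this

/-- Induction on `j` generalizing `T`, `Multiset.cons_swap`. -/
theorem IN_pow (hF : FF k K n) (j : ℕ) {y : Submodule k K} (hy : Big y) {c : ℕ} (hc : 0 < c)
    (T : Multiset (Submodule k K)) : IN n M N j ((y ^ c) ::ₘ T) = c * IN n M N j (y ::ₘ T) := by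
  induction j generalizing T with
  | zero => exact D_pow hF hy hc T
  | succ j ih =>
    rw [IN, IN, cons_swap M, cons_swap N, ih, ih, cons_swap M, cons_swap N]
    ring

/-- Sketch: replace one entry at a time: `sc q * x` depends on `y^c`, hence `sc (q g) * x` on
`y^(c+1)`; induction on `T` generalizing `T'` and a common remainder `R`. -/
theorem NefSeq.pos_of_pos (hF : FF k K n) (h : NefSeq M N L V m κ) (j : ℕ)
    {T T' : Multiset (Submodule k K)} (hT : ∀ x ∈ T, Big x) (hT' : ∀ x ∈ T', Big x)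
    (hc : T.card = T'.card) (hp : 0 < IN n M N j T) : 0 < IN n M N j T' := by
  suffices key : ∀ R, 0 < IN n M N j (T + R) → 0 < IN n M N j (T' + R) by
    simpa using key 0 (by simpa using hp)
  clear hp
  induction T using Multiset.induction_on generalizing T' with
  | empty =>
    obtain rfl := card_eq_zero.1 hc.symm
    exact fun R hR => hR
  | cons x T ih =>
    obtain ⟨y, hy⟩ := (card_pos_iff_exists_mem (s := T')).1 (by rw [← hc, card_cons]; omega)
    obtain ⟨T', rfl⟩ := exists_cons_of_mem hy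
    intro R hR
    have hx := hT x (mem_cons_self _ _)
    have hy' := hT' y hy
    obtain ⟨q, hq, c, hd⟩ := hy'.2.2 x hx.1
    obtain ⟨g, hg, hg0⟩ := (Submodule.ne_bot_iff y).1 hy'.2.1
    have h1 := h.dep hF j hx (hy'.pow c.succ_pos) (mul_ne_zero hq hg0) (by
      rw [sc_mul, mul_right_comm, pow_succ]
      exact hd.mul (Dep.of_le (sc_le.2 hg))) (T + R)
    rw [IN_pow hF j hy' c.succ_pos] at h1
    rw [cons_add] at hR
    have h2 : 0 < IN n M N j (y ::ₘ (T + R)) :=
      (mul_pos_iff_of_pos_left (by exact_mod_cast c.succ_pos)).1 (hR.trans_le h1)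
    rw [← add_cons] at h2
    rw [cons_add, ← add_cons]
    exact ih (fun z hz => hT z (mem_cons_of_mem hz)) (fun z hz => hT' z (mem_cons_of_mem hz))
      (by simpa using hc) _ h2

theorem IN_pb (hF : FF k K n) (hM : Big M) (hN : Big N) (f : K →ₐ[k] K) (j : ℕ)
    {T : Multiset (Submodule k K)} (hT : ∀ x ∈ T, Big x) :
    IN n (pb f M) (pb f N) j (T.map (pb f)) = deg f.toRingHom * IN n M N j T := by
  induction j generalizing T with
  | zero => exact D_pb hF hF f hT
  | succ j ih =>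
    rw [IN, IN, ← map_cons, ← map_cons, ih (big_cons hM hT), ih (big_cons hN hT)]
    ring

theorem NefSeq.t3 (hF : FF k K n) (h : NefSeq M N L V m κ) (j : ℕ) {x y P : Submodule k K}
    (hx : Big x) (hy : Big y) (hP : Big P) (T : Multiset (Submodule k K)) :
    IN n M N j (x ::ₘ y ::ₘ T) * IN n M N j (P ::ₘ P ::ₘ T) ≤
      2 * (IN n M N j (x ::ₘ P ::ₘ T) * IN n M N j (P ::ₘ y ::ₘ T)) := by
  have := le_of_tendsto_of_tendsto'
    ((h.tendsto hF j (x ::ₘ y ::ₘ T)).mul (h.tendsto hF j (P ::ₘ P ::ₘ T)))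
    (((h.tendsto hF j (x ::ₘ P ::ₘ T)).mul (h.tendsto hF j (P ::ₘ y ::ₘ T))).const_mul 2)
    fun i => by
      simp only [div_mul_div_comm, add_cons]
      rw [← mul_div_assoc]
      refine div_le_div_of_nonneg_right ?_ (by positivity)
      exact_mod_cast T3 hF hx hy hP _
  exact_mod_cast this

/-- `T3` with `x = V i`. -/
theorem NefSeq.ct3 (hF : FF k K n) (h : NefSeq M N L V m κ) (j : ℕ) {y P : Submodule k K}
    (hy : Big y) (hP : Big P) (T : Multiset (Submodule k K)) :
    IN n M N (j + 1) (y ::ₘ T) * IN n M N j (P ::ₘ P ::ₘ T) ≤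
      2 * (IN n M N (j + 1) (P ::ₘ T) * IN n M N j (P ::ₘ y ::ₘ T)) := by
  have := le_of_tendsto_of_tendsto'
    ((h.tendsto hF (j + 1) (y ::ₘ T)).mul (h.tendsto hF j (P ::ₘ P ::ₘ T)))
    (((h.tendsto hF (j + 1) (P ::ₘ T)).mul (h.tendsto hF j (P ::ₘ y ::ₘ T))).const_mul 2)
    fun i => by
      simp only [div_mul_div_comm, replicate_succ, cons_add, add_cons, cons_swap _ (V i)]
      rw [← mul_div_assoc]
      refine div_le_div_of_nonneg_right ?_ (by positivity)
      exact_mod_cast T3 hF (h.big i) hy hP _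
  exact_mod_cast this

/-- `T4` with `x = V i`. -/
theorem NefSeq.ct4 (hF : FF k K n) (h : NefSeq M N L V m κ) (j : ℕ) {y z w : Submodule k K}
    (hy : Big y) (hz : Big z) (hw : Big w) (T : Multiset (Submodule k K)) :
    IN n M N (j + 1) (z ::ₘ T) * IN n M N j (y ::ₘ w ::ₘ T) ≤
      2 * (IN n M N (j + 1) (w ::ₘ T) * IN n M N j (z ::ₘ y ::ₘ T) +
        IN n M N (j + 1) (y ::ₘ T) * IN n M N j (z ::ₘ w ::ₘ T)) := by
  have := le_of_tendsto_of_tendsto'
    ((h.tendsto hF (j + 1) (z ::ₘ T)).mul (h.tendsto hF j (y ::ₘ w ::ₘ T)))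
    ((((h.tendsto hF (j + 1) (w ::ₘ T)).mul (h.tendsto hF j (z ::ₘ y ::ₘ T))).add
      ((h.tendsto hF (j + 1) (y ::ₘ T)).mul (h.tendsto hF j (z ::ₘ w ::ₘ T)))).const_mul 2)
    fun i => by
      simp only [div_mul_div_comm, replicate_succ, cons_add, add_cons, cons_swap _ (V i)]
      rw [← add_div, ← mul_div_assoc]
      refine div_le_div_of_nonneg_right ?_ (by positivity)
      exact_mod_cast T4 hF (h.big i) hy hz hw _
  exact_mod_cast this

/-- Comparison of two nef classes. Sketch: `D n (replicate j x + T) ≤ D n (replicate j y + T)` by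
induction on `j` generalizing `T` (`D_dep`), then `le_of_tendsto_of_tendsto'`. -/
theorem NefSeq.le_of_dep (hF : FF k K n) (h : NefSeq M N L V m κ) {M' N' L' : Submodule k K}
    {V' : ℕ → Submodule k K} {κ' : ℕ → ℕ} (h' : NefSeq M' N' L' V' m κ')
    (H : ∀ i, ∃ q : K, q ≠ 0 ∧ Dep (sc k q * V i) (V' i)) (j : ℕ)
    (T : Multiset (Submodule k K)) : IN n M N j T ≤ IN n M' N' j T := by
  have := le_of_tendsto_of_tendsto' (h.tendsto hF j T) (h'.tendsto hF j T) fun i => by
    refine div_le_div_of_nonneg_right ?_ (by positivity)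
    obtain ⟨q, hq, hd⟩ := H i
    have key : ∀ (j : ℕ) (T : Multiset (Submodule k K)),
        D n (replicate j (V i) + T) ≤ D n (replicate j (V' i) + T) := by
      intro j
      induction j with
      | zero => exact fun T => le_rfl
      | succ j ih =>
        intro T
        rw [replicate_succ, replicate_succ, cons_add, cons_add]
        refine (D_dep hF (h.big i) (h'.big i) hq hd _).trans ?_
        rw [← add_cons, ← add_cons]
        exact ih _
    exact_mod_cast key j T
  exact_mod_cast this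

end Pool.Agent.Lib.MP_bc213e_ag.Dyn
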