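import Pool.Agent.Lib.MP_bc213e_ag.Dyn.Dep

/-!
Contents of polynomials, division by the generic member of a linear system.
-/

namespace Pool.Agent.Lib.MP_bc213e_ag.Dyn

open Submodule MvPolynomial

variable {k K ι : Type} [Field k] [Field K] [Algebra k K]

/-- The span of the coefficients. -/
def cont (k : Type) {K ι : Type} [Field k] [Field K] [Algebra k K] (F : MvPolynomial ι K) :
    Submodule k K :=
  span k (Set.range fun α => coeff α F)

theorem cont_le {F : MvPolynomial ι K} {V : Submodule k K} :
    cont k F ≤ V ↔ ∀ α, coeff α F ∈ V := by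
  rw [cont, span_le, Set.range_subset_iff]
  rfl

theorem coeff_mem_cont (F : MvPolynomial ι K) (α : ι →₀ ℕ) : coeff α F ∈ cont k F :=
  cont_le.1 le_rfl α

theorem cont_fg (F : MvPolynomial ι K) : (cont k F).FG := by
  refine fg_span ((F.coeffs.finite_toSet.insert 0).subset ?_)
  rintro _ ⟨α, rfl⟩
  by_cases h : coeff α F = 0
  · exact Or.inl h
  · exact Or.inr (coeff_mem_coeffs α h)

theorem cont_add_le (F G : MvPolynomial ι K) : cont k (F + G) ≤ cont k F ⊔ cont k G := by
  refine cont_le.2 fun α => ?_
  rw [coeff_add]
  exact add_mem (mem_sup_left (coeff_mem_cont F α)) (mem_sup_right (coeff_mem_cont G α))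

theorem cont_mul_le (F G : MvPolynomial ι K) : cont k (F * G) ≤ cont k F * cont k G := by
  classical
  refine cont_le.2 fun α => ?_
  rw [coeff_mul]
  exact sum_mem fun p _ => mul_mem_mul (coeff_mem_cont F _) (coeff_mem_cont G _)

theorem cont_C (a : K) : cont k (C a : MvPolynomial ι K) = sc k a := by
  classical
  refine le_antisymm (cont_le.2 fun α => ?_) (sc_le.2 ?_)
  · rw [coeff_C]
    split_ifs
    · exact mem_sc a
    · exact zero_mem _
  · simpa using coeff_mem_cont (k := k) (C a : MvPolynomial ι K) 0

theorem cont_map_le (a : MvPolynomial ι k) : cont k (map (algebraMap k K) a) ≤ 1 := by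
  refine cont_le.2 fun α => ?_
  rw [coeff_map]
  exact Submodule.algebraMap_mem _

theorem cont_pderiv_le (i : ι) (F : MvPolynomial ι K) : cont k (pderiv i F) ≤ cont k F := by
  refine cont_le.2 fun α => ?_
  rw [coeff_pderiv, mul_comm, ← Nat.cast_succ, ← nsmul_eq_mul]
  exact nsmul_mem (coeff_mem_cont F _) _

/-- The generic member of the linear system spanned by `g`. -/
noncomputable def sform [Fintype ι] (g : ι → K) : MvPolynomial ι K := ∑ j, C (g j) * X j

theorem pderiv_sform [Fintype ι] (g : ι → K) (j : ι) : pderiv j (sform g) = C (g j) := by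
  classical
  rw [sform, map_sum, Finset.sum_eq_single j]
  · rw [pderiv_C_mul, pderiv_X_self, mul_one]
  · intro i _ hi
    rw [pderiv_C_mul, pderiv_X_of_ne hi, mul_zero]
  · exact fun h => absurd (Finset.mem_univ j) h

theorem sform_ne_zero [Fintype ι] {g : ι → K} {j : ι} (h : g j ≠ 0) : sform g ≠ 0 := by
  intro h0
  have h1 := pderiv_sform g j
  rw [h0, map_zero] at h1
  exact h (C_eq_zero.1 h1.symm)

theorem cont_sform_le [Fintype ι] (g : ι → K) : cont k (sform g) ≤ span k (Set.range g) := by
  classical
  refine cont_le.2 fun α => ?_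
  rw [sform, coeff_sum]
  refine sum_mem fun j _ => ?_
  rw [coeff_C_mul, coeff_X]
  split_ifs
  · rw [mul_one]
    exact subset_span ⟨j, rfl⟩
  · rw [mul_zero]
    exact zero_mem _

/-- Pseudo-division. Sketch: let `d = degreeOf j G`, `V = cont (sform g * G)`, `x = span (range g)`.
By induction on `m`: for all `α` with `d < α j + m`, `g j ^ (m+1) * coeff α G ∈ V * x ^ m`.
For `m = 0` the coefficient vanishes. The coefficient of `sform g * G` at `α + single j 1` is
`g j * coeff α G` plus the sum over `i ≠ j` of `g i * coeff α' G` (or `0`), where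
`α' = α + single j 1 - single i 1` has `α' j = α j + 1` (`coeff_mul_X'`, `coeff_C_mul`). -/
theorem pd_single [Fintype ι] (g : ι → K) (G : MvPolynomial ι K) (j : ι) :
    ∃ c : ℕ, ∀ c' ≥ c, ∀ α, g j ^ (c' + 1) * coeff α G ∈
      cont k (sform g * G) * span k (Set.range g) ^ c' := by
  classical
  have hg : ∀ i, g i ∈ span k (Set.range g) := fun i => subset_span ⟨i, rfl⟩
  have key : ∀ m : ℕ, ∀ α : ι →₀ ℕ, degreeOf j G < α j + m → g j ^ (m + 1) * coeff α G ∈
      cont k (sform g * G) * span k (Set.range g) ^ m := by
    intro m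
    induction m with
    | zero =>
      intro α hα
      have : coeff α G = 0 := by
        by_contra h0
        exact absurd (monomial_le_degreeOf j (mem_support_iff.2 h0)) (by omega)
      rw [this, mul_zero]
      exact zero_mem _
    | succ m ih =>
      intro α hα
      have h1 : coeff (α + Finsupp.single j 1) (sform g * G) =
          g j * coeff α G + ∑ i ∈ Finset.univ.erase j,
            g i * coeff (α + Finsupp.single j 1) (G * X i) := by
        rw [sform, Finset.sum_mul, coeff_sum, ← Finset.add_sum_erase _ _ (Finset.mem_univ j)]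
        congr 1
        · rw [mul_assoc, coeff_C_mul, mul_comm (X j), coeff_mul_X]
        · refine Finset.sum_congr rfl fun i _ => ?_
          rw [mul_assoc, coeff_C_mul, mul_comm (X i)]
      have h2 : g j ^ (m + 1 + 1) * coeff α G =
          coeff (α + Finsupp.single j 1) (sform g * G) * g j ^ (m + 1) -
            ∑ i ∈ Finset.univ.erase j,
              g j ^ (m + 1) * coeff (α + Finsupp.single j 1) (G * X i) * g i := by
        rw [h1, add_mul, Finset.sum_mul, add_sub_assoc, ← Finset.sum_sub_distrib,
          Finset.sum_eq_zero fun i _ => by ring]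
        ring
      rw [h2]
      refine sub_mem (mul_mem_mul (coeff_mem_cont _ _) (Submodule.pow_mem_pow _ (hg j) _))
        (sum_mem fun i hi => ?_)
      rw [pow_succ (span k (Set.range g)), ← mul_assoc]
      refine mul_mem_mul ?_ (hg i)
      rw [coeff_mul_X']
      split_ifs
      · refine ih _ ?_
        have hij : i ≠ j := Finset.ne_of_mem_erase hi
        rw [Finsupp.tsub_apply, Finsupp.add_apply, Finsupp.single_eq_same,
          Finsupp.single_eq_of_ne hij.symm]
        omega
      · rw [mul_zero]
        exact zero_mem _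
  exact ⟨degreeOf j G + 1, fun c' hc' α => key c' α (by omega)⟩

/-- Sketch: `pd_single` with a common exponent, then `pow_le_span_pow`. -/
theorem pd [Fintype ι] (g : ι → K) (G : MvPolynomial ι K) :
    ∃ N : ℕ, span k (Set.range g) ^ (N + 1) * cont k G ≤
      cont k (sform g * G) * span k (Set.range g) ^ N := by
  classical
  choose c hc using fun j => pd_single (k := k) g G j
  obtain ⟨N, hN⟩ := pow_le_span_pow (k := k) (Finset.univ.image g)
    (Nat.succ_pos (Finset.univ.sup c))
  rw [Finset.coe_image, Finset.coe_univ, Set.image_univ] at hN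
  refine ⟨N + Finset.univ.sup c, ?_⟩
  have h1 : span k ((fun a => a ^ (Finset.univ.sup c).succ) '' Set.range g) * cont k G ≤
      cont k (sform g * G) * span k (Set.range g) ^ Finset.univ.sup c := by
    rw [cont, span_mul_span, span_le]
    rintro _ ⟨_, ⟨_, ⟨j, rfl⟩, rfl⟩, _, ⟨α, rfl⟩, rfl⟩
    exact hc j _ (Finset.le_sup (f := c) (Finset.mem_univ j)) α
  calc span k (Set.range g) ^ (N + Finset.univ.sup c + 1) * cont k G
      ≤ span k ((fun a => a ^ (Finset.univ.sup c).succ) '' Set.range g) *
          span k (Set.range g) ^ N * cont k G := mul_le_mul_left hN _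
    _ = span k ((fun a => a ^ (Finset.univ.sup c).succ) '' Set.range g) * cont k G *
          span k (Set.range g) ^ N := by ring
    _ ≤ cont k (sform g * G) * span k (Set.range g) ^ Finset.univ.sup c *
          span k (Set.range g) ^ N := mul_le_mul_left h1 _
    _ = _ := by ring

/-- Sketch: induction on `l` with `pd`, `Dep.mul`, `Dep.trans`. -/
theorem pd_dep [Fintype ι] {g : ι → K} {j : ι} (h : g j ≠ 0) (G : MvPolynomial ι K) (l : ℕ) :
    Dep (span k (Set.range g) ^ l * cont k G) (cont k (sform g ^ l * G)) := by
  have hx : span k (Set.range g) ≠ ⊥ :=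
    (Submodule.ne_bot_iff _).2 ⟨g j, subset_span ⟨j, rfl⟩, h⟩
  induction l with
  | zero => rw [pow_zero, pow_zero, one_mul, one_mul]; exact Dep.rfl
  | succ l ih =>
    obtain ⟨N, hN⟩ := pd (k := k) g (sform g ^ l * G)
    rw [pow_succ', mul_assoc, pow_succ' (sform g), mul_assoc]
    refine (Dep.rfl.mul ih).trans ⟨span k (Set.range g) ^ N,
      (fg_span (Set.finite_range g)).pow N, pow_ne_bot' hx N, ?_⟩
    rwa [mul_right_comm, ← pow_succ']

theorem cont_zero_le (V : Submodule k K) : cont k (0 : MvPolynomial ι K) ≤ V :=
  cont_le.2 fun _ => V.zero_mem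

theorem cont_sum_le {α : Type} {s : Finset α} {F : α → MvPolynomial ι K} {V : Submodule k K}
    (h : ∀ a ∈ s, cont k (F a) ≤ V) : cont k (∑ a ∈ s, F a) ≤ V := by
  refine cont_le.2 fun β => ?_
  rw [coeff_sum]
  exact sum_mem fun a ha => cont_le.1 (h a ha) β

theorem smul_C_aux (c : k) (p : K) : c • (C p : MvPolynomial ι K) = C (c • p) := by
  rw [Algebra.smul_def, Algebra.smul_def, map_mul, MvPolynomial.algebraMap_apply]

/-- Saturation is reached in large degree (Hilbert basis theorem). Sketch: `Ω = MvPolynomial ι K`,
`s = sform g`, `x = span (range g)`, `P = x * P₀`. Let `R` be the `k`-subalgebra of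
`Polynomial Ω` generated by the `C (X j)` and the `monomial 1 (C p)`, `p` in a finite generating
set of `P`; it is noetherian. Let `𝓜` be the `R`-span of the `C (C u)`, `u` in a finite generating
set of `x * U`. (a) `F ∈ R → cont (F.coeff r) ≤ P^r`; (b) `F ∈ 𝓜 → cont (F.coeff r) ≤ x * (P^r * U)`;
(c) `cont G ≤ x * (P^r * U) → monomial r G ∈ 𝓜` (write `G` as a sum of monomials, induction on
`r` with `Submodule.mul_induction_on`). The submodule `J` of the elements of `𝓜` divisible by `C s` is
generated by finitely many `C s * H i`. Call `H` good if `P^γ * cont (H.coeff β) ≤ P^(γ+β) * U`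
whenever `r₀ ≤ β + γ`. By (b) and `pd` the `H i` are good for some `r₀`; good elements are stable
under sums and under multiplication by `R` (by (a), `Polynomial.coeff_mul`). So every element of
`J` is `C s * H` with `H` good; apply this to `monomial r (s * ψ)` and cancel `C s`. -/
theorem sat_eventually [Fintype ι] {g : ι → K} {j : ι} (h : g j ≠ 0) {P U : Submodule k K}
    (hP : P.FG) (hU : U.FG) (hx : span k (Set.range g) ∣ P) :
    ∀ᶠ r : ℕ in Filter.atTop, ∀ ψ : MvPolynomial ι K,
      cont k (sform g * ψ) ≤ span k (Set.range g) * (P ^ r * U) → cont k ψ ≤ P ^ r * U := by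
  classical
  obtain ⟨P₀, hP₀⟩ := hx
  obtain ⟨sP, hsP⟩ := hP
  obtain ⟨sU, hsU⟩ := (fg_span (Set.finite_range g)).mul hU
  let R : Subalgebra k (Polynomial (MvPolynomial ι K)) := Algebra.adjoin k
    (Set.range (fun j => Polynomial.C (X j : MvPolynomial ι K)) ∪
      (fun p => Polynomial.monomial 1 (C p : MvPolynomial ι K)) '' (sP : Set K))
  have : IsNoetherianRing R := isNoetherianRing_of_fg
    (Subalgebra.fg_def.2 ⟨_, (Set.finite_range _).union (sP.finite_toSet.image _), rfl⟩)
  let 𝓜 : Submodule R (Polynomial (MvPolynomial ι K)) :=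
    span R ((fun u => Polynomial.C (C u : MvPolynomial ι K)) '' (sU : Set K))
  have : IsNoetherian R 𝓜 :=
    isNoetherian_of_fg_of_noetherian (R := R) 𝓜 (fg_span (R := R) (sU.finite_toSet.image _))
  have ha : ∀ F ∈ R, ∀ r, cont k (F.coeff r) ≤ P ^ r := by
    intro F hF
    induction hF using Algebra.adjoin_induction with
    | mem F hF =>
      intro r
      rcases hF with ⟨i, rfl⟩ | ⟨p, hp, rfl⟩
      · rw [Polynomial.coeff_C]
        split_ifs with hr
        · rw [hr, pow_zero, ← map_X (algebraMap k K)]
          exact cont_map_le _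
        · exact cont_zero_le _
      · rw [Polynomial.coeff_monomial]
        split_ifs with hr
        · rw [← hr, pow_one, cont_C, sc_le, ← hsP]
          exact subset_span hp
        · exact cont_zero_le _
    | algebraMap c =>
      intro r
      rw [Polynomial.algebraMap_apply, Polynomial.coeff_C]
      split_ifs with hr
      · rw [hr, pow_zero, MvPolynomial.algebraMap_apply, cont_C, sc_le]
        exact Submodule.algebraMap_mem c
      · exact cont_zero_le _
    | add F G _ _ hF hG =>
      intro r
      rw [Polynomial.coeff_add]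
      exact (cont_add_le _ _).trans (sup_le (hF r) (hG r))
    | mul F G _ _ hF hG =>
      intro r
      rw [Polynomial.coeff_mul]
      refine cont_sum_le fun p hp => (cont_mul_le _ _).trans ?_
      rw [← Finset.HasAntidiagonal.mem_antidiagonal.1 hp, pow_add]
      exact mul_le_mul' (hF _) (hG _)
  have hb : ∀ F ∈ 𝓜, ∀ r, cont k (F.coeff r) ≤ P ^ r * (span k (Set.range g) * U) := by
    intro F hF
    induction hF using span_induction with
    | mem F hF =>
      intro r
      obtain ⟨u, hu, rfl⟩ := hF
      rw [Polynomial.coeff_C]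
      split_ifs with hr
      · rw [hr, pow_zero, one_mul, cont_C, sc_le, ← hsU]
        exact subset_span hu
      · exact cont_zero_le _
    | zero => exact fun r => cont_zero_le _
    | add F G _ _ hF hG =>
      intro r
      rw [Polynomial.coeff_add]
      exact (cont_add_le _ _).trans (sup_le (hF r) (hG r))
    | smul a F _ hF =>
      intro r
      change cont k (((a : Polynomial (MvPolynomial ι K)) * F).coeff r) ≤ _
      rw [Polynomial.coeff_mul]
      refine cont_sum_le fun p hp => (cont_mul_le _ _).trans ?_
      rw [← Finset.HasAntidiagonal.mem_antidiagonal.1 hp, pow_add, mul_assoc]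
      exact mul_le_mul' (ha _ a.2 _) (hF _)
  have hR1 : ∀ p ∈ P, Polynomial.monomial 1 (C p : MvPolynomial ι K) ∈ R := by
    intro p hp
    rw [← hsP] at hp
    induction hp using span_induction with
    | mem p hp => exact Algebra.subset_adjoin (Or.inr ⟨p, hp, rfl⟩)
    | zero => rw [map_zero, map_zero]; exact zero_mem _
    | add p q _ _ hp hq => rw [map_add, map_add]; exact add_mem hp hq
    | smul c p _ hp =>
      rw [← smul_C_aux, ← Polynomial.smul_monomial]
      exact R.smul_mem hp c
  have hR2 : ∀ b : MvPolynomial ι k, Polynomial.C (map (algebraMap k K) b) ∈ R := by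
    intro b
    induction b using MvPolynomial.induction_on with
    | C c =>
      rw [map_C]
      exact R.algebraMap_mem c
    | add p q hp hq => rw [map_add, map_add]; exact add_mem hp hq
    | mul_X p i hp =>
      rw [map_mul, map_mul, map_X]
      exact mul_mem hp (Algebra.subset_adjoin (Or.inl ⟨i, rfl⟩))
  have hc1 : ∀ r, ∀ a ∈ P ^ r * (span k (Set.range g) * U),
      Polynomial.monomial r (C a : MvPolynomial ι K) ∈ 𝓜 := by
    intro r
    induction r with
    | zero =>
      intro a ha
      rw [pow_zero, one_mul, ← hsU] at ha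
      induction ha using span_induction with
      | mem p hp => exact subset_span ⟨p, hp, rfl⟩
      | zero => rw [map_zero, map_zero]; exact zero_mem _
      | add p q _ _ hp hq => rw [map_add, map_add]; exact add_mem hp hq
      | smul c p _ hp =>
        rw [← smul_C_aux, ← Polynomial.smul_monomial, ← algebraMap_smul R c]
        exact 𝓜.smul_mem _ hp
    | succ r ih =>
      intro a ha
      rw [pow_succ', mul_assoc] at ha
      refine Submodule.mul_induction_on ha (fun p hp a ha => ?_) fun a b ha hb => ?_
      · have e : Polynomial.monomial (r + 1) (C (p * a) : MvPolynomial ι K) =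
            (⟨_, hR1 p hp⟩ : R) • Polynomial.monomial r (C a : MvPolynomial ι K) := by
          change _ = Polynomial.monomial 1 (C p) * _
          rw [Polynomial.monomial_mul_monomial, add_comm, map_mul]
        rw [e]
        exact 𝓜.smul_mem _ (ih a ha)
      · rw [map_add, map_add]
        exact add_mem ha hb
  have hc : ∀ r (G : MvPolynomial ι K), cont k G ≤ P ^ r * (span k (Set.range g) * U) →
      Polynomial.monomial r G ∈ 𝓜 := by
    intro r G hG
    rw [G.as_sum, map_sum]
    refine sum_mem fun α _ => ?_
    have e : Polynomial.monomial r (monomial α (coeff α G)) =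
        (⟨_, hR2 (monomial α 1)⟩ : R) •
          Polynomial.monomial r (C (coeff α G) : MvPolynomial ι K) := by
      change _ = Polynomial.C (map (algebraMap k K) (monomial α 1)) * _
      rw [Polynomial.C_mul_monomial, map_monomial, map_one, mul_comm, C_mul_monomial, mul_one]
    rw [e]
    exact 𝓜.smul_mem _ (hc1 r _ (cont_le.1 hG α))
  let J : Submodule R (Polynomial (MvPolynomial ι K)) :=
    𝓜.comap (LinearMap.mulLeft R (Polynomial.C (sform g)))
  have hJ : J.FG := by
    let φ : J →ₗ[R] 𝓜 :=
      ((LinearMap.mulLeft R (Polynomial.C (sform g))).domRestrict J).codRestrict _ fun ψ => ψ.2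
    exact Module.Finite.iff_fg.1 (Module.Finite.of_injective φ fun a b hab => Subtype.ext
      (mul_left_cancel₀ (Polynomial.C_ne_zero.2 (sform_ne_zero h)) (congrArg Subtype.val hab)))
  have hgood : ∀ H ∈ J, ∃ r₀ : ℕ, ∀ β γ, r₀ ≤ β + γ →
      P ^ γ * cont k (H.coeff β) ≤ P ^ (γ + β) * U := by
    intro H hH
    choose N hN using fun β => pd (k := k) g (H.coeff β)
    refine ⟨H.natDegree + (Finset.range (H.natDegree + 1)).sup N + 1, fun β γ hβ => ?_⟩
    rcases Nat.lt_or_ge H.natDegree β with h1 | h1
    · rw [Polynomial.coeff_eq_zero_of_natDegree_lt h1, le_bot_iff.1 (cont_zero_le ⊥),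
        Submodule.mul_bot]
      exact bot_le
    · have h2 : N β ≤ (Finset.range (H.natDegree + 1)).sup N :=
        Finset.le_sup (f := N) (Finset.mem_range.2 (Nat.lt_succ_of_le h1))
      obtain ⟨d, rfl⟩ : ∃ d, γ = d + (N β + 1) := ⟨γ - (N β + 1), by omega⟩
      have h3 := hb _ hH β
      rw [LinearMap.mulLeft_apply, Polynomial.coeff_C_mul] at h3
      calc P ^ (d + (N β + 1)) * cont k (H.coeff β)
          = P ^ d * P₀ ^ (N β + 1) * (span k (Set.range g) ^ (N β + 1) * cont k (H.coeff β)) := by
            rw [pow_add P d, hP₀]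
            ring
        _ ≤ P ^ d * P₀ ^ (N β + 1) * (P ^ β * (span k (Set.range g) * U) *
              span k (Set.range g) ^ N β) :=
            mul_le_mul_right ((hN β).trans (mul_le_mul_left h3 _)) _
        _ = _ := by
            rw [pow_add P _ β, pow_add P d, hP₀]
            ring
  obtain ⟨t, ht⟩ := hJ
  choose! r₀ hr₀ using hgood
  have hall : ∀ H ∈ span R (t : Set (Polynomial (MvPolynomial ι K))), ∀ β γ, t.sup r₀ ≤ β + γ →
      P ^ γ * cont k (H.coeff β) ≤ P ^ (γ + β) * U := by
    intro H hH
    induction hH using span_induction with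
    | mem H hH =>
      exact fun β γ hβ => hr₀ H (ht ▸ subset_span hH) β γ ((Finset.le_sup (f := r₀) hH).trans hβ)
    | zero =>
      intro β γ _
      rw [Polynomial.coeff_zero, le_bot_iff.1 (cont_zero_le ⊥), Submodule.mul_bot]
      exact bot_le
    | add F G _ _ hF hG =>
      intro β γ hβ
      rw [Polynomial.coeff_add]
      refine (mul_le_mul_right (cont_add_le _ _) _).trans ?_
      rw [Submodule.mul_sup]
      exact sup_le (hF β γ hβ) (hG β γ hβ)
    | smul a F _ hF =>
      intro β γ hβ
      change P ^ γ * cont k (((a : Polynomial (MvPolynomial ι K)) * F).coeff β) ≤ _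
      rw [Polynomial.coeff_mul, mul_comm, ← Submodule.le_div_iff_mul_le]
      refine cont_sum_le fun p hp => ?_
      rw [Submodule.le_div_iff_mul_le]
      have hp' := Finset.HasAntidiagonal.mem_antidiagonal.1 hp
      calc cont k ((a : Polynomial (MvPolynomial ι K)).coeff p.1 * F.coeff p.2) * P ^ γ
          ≤ P ^ p.1 * cont k (F.coeff p.2) * P ^ γ :=
            mul_le_mul_left ((cont_mul_le _ _).trans (mul_le_mul_left (ha _ a.2 _) _)) _
        _ = P ^ (γ + p.1) * cont k (F.coeff p.2) := by ring
        _ ≤ P ^ (γ + p.1 + p.2) * U := hF _ _ (by omega)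
        _ = _ := by rw [add_assoc, hp']
  refine Filter.eventually_atTop.2 ⟨t.sup r₀, fun r hr ψ hψ => ?_⟩
  have h1 : Polynomial.monomial r ψ ∈ J := by
    change Polynomial.C (sform g) * Polynomial.monomial r ψ ∈ 𝓜
    rw [Polynomial.C_mul_monomial]
    exact hc r _ (by rwa [mul_left_comm])
  have h2 := hall _ (ht ▸ h1) r 0 hr
  rwa [pow_zero, one_mul, zero_add, Polynomial.coeff_monomial, if_pos rfl] at h2

attribute [local instance] MvPolynomial.algebraMvPolynomial

/-- Polynomials `ψ` such that `s * ψ` has coefficients in `V`. -/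
def pol (s : MvPolynomial ι K) (V : Submodule k K) :
    Submodule (MvPolynomial ι k) (MvPolynomial ι K) where
  carrier := {ψ | cont k (s * ψ) ≤ V}
  add_mem' := fun {a b} ha hb => by
    change cont k (s * (a + b)) ≤ V
    rw [mul_add]
    exact (cont_add_le _ _).trans (sup_le ha hb)
  zero_mem' := by
    change cont k (s * 0) ≤ V
    rw [mul_zero, cont_le]
    exact fun α => V.zero_mem
  smul_mem' := fun c a ha => by
    change cont k (s * (map (algebraMap k K) c * a)) ≤ V
    rw [mul_left_comm]
    refine (cont_mul_le _ _).trans ?_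
    calc cont k (map (algebraMap k K) c) * cont k (s * a) ≤ 1 * V :=
          mul_le_mul' (cont_map_le c) ha
      _ = V := one_mul V

theorem mem_pol {s ψ : MvPolynomial ι K} {V : Submodule k K} :
    ψ ∈ pol s V ↔ cont k (s * ψ) ≤ V := Iff.rfl

/-- Sketch: for a basis `b` of `V`, `pol 1 V` is the span of the `C (b i)`, which are linearly
independent over `MvPolynomial ι k` (compare coefficients); `finrank_span_eq_card`. -/
theorem finrank_pol_one {V : Submodule k K} (hV : V.FG) :
    Module.Finite (MvPolynomial ι k) (pol (1 : MvPolynomial ι K) V) ∧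
      Module.finrank (MvPolynomial ι k) (pol (1 : MvPolynomial ι K) V) = Module.finrank k V := by
  have : Module.Finite k V := Module.Finite.iff_fg.2 hV
  let b := Module.finBasis k V
  have hli : LinearIndependent (MvPolynomial ι k) fun i => (C (b i : K) : MvPolynomial ι K) := by
    rw [Fintype.linearIndependent_iff]
    intro a ha i
    ext α
    have h1 := congrArg (coeff α) ha
    rw [coeff_sum, coeff_zero] at h1
    have h2 : ∑ i, coeff α (a i) • b i = 0 := by
      apply Subtype.ext
      rw [Submodule.coe_sum, ZeroMemClass.coe_zero, ← h1]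
      refine Finset.sum_congr rfl fun i _ => ?_
      change _ = coeff α (map (algebraMap k K) (a i) * C (b i : K))
      rw [mul_comm, coeff_C_mul, coeff_map, Submodule.coe_smul, Algebra.smul_def, mul_comm]
    exact Fintype.linearIndependent_iff.1 b.linearIndependent _ h2 i
  have he : pol (1 : MvPolynomial ι K) V =
      span (MvPolynomial ι k) (Set.range fun i => (C (b i : K) : MvPolynomial ι K)) := by
    refine le_antisymm (fun ψ hψ => ?_) (span_le.2 ?_)
    · rw [mem_pol, one_mul, cont_le] at hψ
      rw [ψ.as_sum]
      refine sum_mem fun α _ => ?_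
      have h1 := congrArg Subtype.val (b.sum_repr ⟨_, hψ α⟩)
      rw [Submodule.coe_sum] at h1
      change _ = coeff α ψ at h1
      rw [← h1, map_sum]
      refine sum_mem fun i _ => ?_
      have h2 : monomial α ((b.repr ⟨_, hψ α⟩ i • b i : V) : K) =
          (monomial α (b.repr ⟨_, hψ α⟩ i) : MvPolynomial ι k) •
            (C (b i : K) : MvPolynomial ι K) := by
        change _ = map (algebraMap k K) _ * _
        rw [map_monomial, mul_comm, C_mul_monomial, Submodule.coe_smul, Algebra.smul_def, mul_comm]
      rw [h2]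
      exact smul_mem _ _ (subset_span ⟨i, rfl⟩)
    · rintro _ ⟨i, rfl⟩
      change cont k (1 * C (b i : K)) ≤ V
      rw [one_mul, cont_C, sc_le]
      exact (b i).2
  rw [he]
  exact ⟨Module.Finite.iff_fg.2 (fg_span (Set.finite_range _)),
    by rw [finrank_span_eq_card hli, Fintype.card_fin]⟩

/-- Sketch: multiplication by `s` embeds it in `pol 1 V`; the ring is noetherian. -/
theorem finite_pol [Finite ι] {s : MvPolynomial ι K} (hs : s ≠ 0) {V : Submodule k K} (hV : V.FG) :
    Module.Finite (MvPolynomial ι k) (pol s V) := by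
  have := (finrank_pol_one (ι := ι) hV).1
  let φ : pol s V →ₗ[MvPolynomial ι k] pol (1 : MvPolynomial ι K) V :=
    ((LinearMap.mulLeft (MvPolynomial ι k) s).domRestrict (pol s V)).codRestrict _ fun ψ => by
      rw [mem_pol, one_mul]
      exact ψ.2
  exact Module.Finite.of_injective φ fun a b hab =>
    Subtype.ext (mul_left_cancel₀ hs (congrArg Subtype.val hab))

end Pool.Agent.Lib.MP_bc213e_ag.Dyn
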