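import Pool.Agent.Lib.MP_bc213e_ag.Dyn.PD

/-!
The generic hyperplane section.
-/

namespace Pool.Agent.Lib.MP_bc213e_ag.Dyn

open Submodule MvPolynomial

variable {k K σ : Type} [Field k] [Field K] [Algebra k K] [Fintype σ]

/-- The new base field. -/
abbrev kk (k σ : Type) [Field k] : Type := FractionRing (MvPolynomial (Option σ) k)

/-- The function field of the generic hyperplane section. -/
abbrev KK (K σ : Type) [Field K] : Type := FractionRing (MvPolynomial σ K)

/-- Solve the equation of the generic member for the first variable. -/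
noncomputable def evB (g : Option σ → K) : MvPolynomial (Option σ) K →ₐ[K] MvPolynomial σ K :=
  aeval fun o => o.elim (-(C (g none)⁻¹ * sform fun j => g (some j))) X

/-- Restriction to the generic hyperplane section. -/
noncomputable def ev (g : Option σ → K) : MvPolynomial (Option σ) K →ₐ[K] KK K σ :=
  (IsScalarTower.toAlgHom K (MvPolynomial σ K) (KK K σ)).comp (evB g)

theorem ev_C (g : Option σ → K) (a : K) : ev g (C a) = algebraMap K (KK K σ) a :=
  (ev g).commutes a

theorem ev_rename (g : Option σ → K) (F : MvPolynomial σ K) :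
    ev g (rename some F) = algebraMap (MvPolynomial σ K) (KK K σ) F := by
  have : evB g (rename some F) = F := by
    rw [evB, aeval_rename]
    exact aeval_X_left_apply F
  change algebraMap _ _ (evB g (rename some F)) = _
  rw [this]

/-- Sketch: `evB g (sform g) = 0` (`Fintype.sum_option`); conversely `sform g` divides
`F - rename some (evB g F)` by `MvPolynomial.induction_on`. -/
theorem ev_eq_zero_iff {g : Option σ → K} (hg : g none ≠ 0) (F : MvPolynomial (Option σ) K) :
    ev g F = 0 ↔ sform g ∣ F := by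
  have e : sform g = C (g none) * X none + rename some (sform fun j => g (some j)) := by
    rw [sform, Fintype.sum_option, sform, map_sum]
    simp only [map_mul, rename_C, rename_X]
  have h0 : evB g (sform g) = 0 := by
    have h1 : evB g (rename some (sform fun j => g (some j))) = sform fun j => g (some j) := by
      rw [evB, aeval_rename]
      exact aeval_X_left_apply _
    rw [e, map_add, h1, map_mul, evB, aeval_X, aeval_C, algebraMap_eq, Option.elim_none, mul_neg,
      ← mul_assoc, ← map_mul, mul_inv_cancel₀ hg, map_one, one_mul, neg_add_cancel]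
  have h1 : ∀ F : MvPolynomial (Option σ) K, sform g ∣ F - rename some (evB g F) := by
    intro F
    induction F using MvPolynomial.induction_on with
    | C a =>
      rw [evB, aeval_C, algebraMap_eq, rename_C, sub_self]
      exact dvd_zero _
    | add p q hp hq =>
      rw [map_add, map_add, add_sub_add_comm]
      exact dvd_add hp hq
    | mul_X p o hp =>
      have h2 : sform g ∣ X o - rename some (evB g (X o)) := by
        rw [evB, aeval_X]
        cases o with
        | none =>
          refine ⟨C (g none)⁻¹, ?_⟩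
          rw [e, Option.elim_none, map_neg, map_mul, rename_C, add_mul, mul_right_comm, ← map_mul,
            mul_inv_cancel₀ hg, map_one]
          ring
        | some j =>
          rw [Option.elim_some, rename_X, sub_self]
          exact dvd_zero _
      rw [map_mul, map_mul, show p * X o - rename some (evB g p) * rename some (evB g (X o)) =
        (p - rename some (evB g p)) * X o +
          rename some (evB g p) * (X o - rename some (evB g (X o))) by ring]
      exact dvd_add (hp.mul_right _) (h2.mul_left _)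
  change algebraMap (MvPolynomial σ K) (KK K σ) (evB g F) = 0 ↔ _
  rw [IsFractionRing.to_map_eq_zero_iff]
  constructor
  · intro h
    have h2 := h1 F
    rwa [h, map_zero, sub_zero] at h2
  · rintro ⟨G, rfl⟩
    rw [map_mul, h0, zero_mul]

/-- Sketch: if `map a = sform g * G` with `a ≠ 0`, then `G ≠ 0` has a coefficient `q ≠ 0`, and
`pd_dep` with `l = 1`, `cont_map_le` give `Dep (sc q * x) 1`, against `Big.not_dep_one`. -/
theorem rho_injective {g : Option σ → K} (hg : g none ≠ 0) (hx : Big (span k (Set.range g)))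
    (hK : Algebra.trdeg k K ≠ 0) :
    Function.Injective ((ev g).toRingHom.comp (map (algebraMap k K))) := by
  rw [injective_iff_map_eq_zero]
  intro a ha
  obtain ⟨G, hG⟩ := (ev_eq_zero_iff hg _).1 ha
  by_contra h0
  have hG0 : G ≠ 0 := by
    rintro rfl
    rw [mul_zero] at hG
    exact h0 (map_injective _ (algebraMap k K).injective (hG.trans (map_zero _).symm))
  obtain ⟨α, hα⟩ := ne_zero_iff.1 hG0
  refine hx.not_dep_one hK hα ?_
  have h1 := pd_dep (k := k) hg G 1
  rw [pow_one, pow_one, ← hG, mul_comm] at h1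
  exact ((Dep.of_le (mul_le_mul_left (sc_le.2 (coeff_mem_cont G α)) _)).trans h1).trans
    (Dep.of_le (cont_map_le a))

/-- The algebra structure comes from the restriction map. -/
structure IsSl (k : Type) {K σ : Type} [Field k] [Field K] [Algebra k K] [Fintype σ]
    (g : Option σ → K) [Algebra (kk k σ) (KK K σ)] : Prop where
  ne : g none ≠ 0
  comm : ∀ a : MvPolynomial (Option σ) k,
    algebraMap (kk k σ) (KK K σ) (algebraMap _ (kk k σ) a) = ev g (map (algebraMap k K) a)

/-- `IsFractionRing.lift` of `rho_injective`. -/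
theorem exists_isSl {g : Option σ → K} (hg : g none ≠ 0) (hx : Big (span k (Set.range g)))
    (hK : Algebra.trdeg k K ≠ 0) : ∃ _ : Algebra (kk k σ) (KK K σ), IsSl k g := by
  let i : Algebra (kk k σ) (KK K σ) :=
    (IsFractionRing.lift (K := kk k σ) (rho_injective hg hx hK)).toAlgebra
  exact ⟨i, hg, fun a => IsFractionRing.lift_algebraMap (rho_injective hg hx hK) a⟩

section

variable {g : Option σ → K} [Algebra (kk k σ) (KK K σ)]

theorem IsSl.comm_C (h : IsSl k g) (c : k) :
    algebraMap (kk k σ) (KK K σ) (algebraMap k (kk k σ) c) =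
      algebraMap K (KK K σ) (algebraMap k K c) := by
  rw [IsScalarTower.algebraMap_apply k (MvPolynomial (Option σ) k) (kk k σ), h.comm,
    algebraMap_eq, map_C, ev_C]

theorem IsSl.phi_one (h : IsSl k g) :
    span (kk k σ) (algebraMap K (KK K σ) '' ((1 : Submodule k K) : Set K)) = 1 := by
  refine le_antisymm (span_le.2 ?_) (Submodule.one_le.2 (subset_span
    ⟨1, Submodule.one_le.1 le_rfl, map_one _⟩))
  rintro _ ⟨_, ha, rfl⟩
  obtain ⟨c, rfl⟩ := Submodule.mem_one.1 ha
  rw [← h.comm_C]
  exact Submodule.algebraMap_mem _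

omit [Fintype σ] in
theorem phi_mul (U W : Submodule k K) :
    span (kk k σ) (algebraMap K (KK K σ) '' ((U * W : Submodule k K) : Set K)) =
      span (kk k σ) (algebraMap K (KK K σ) '' (U : Set K)) *
        span (kk k σ) (algebraMap K (KK K σ) '' (W : Set K)) := by
  refine le_antisymm (span_le.2 ?_) ?_
  · rintro _ ⟨a, ha, rfl⟩
    refine Submodule.mul_induction_on ha (fun u hu w hw => ?_) fun a b ha hb => ?_
    · rw [map_mul]
      exact mul_mem_mul (subset_span ⟨u, hu, rfl⟩) (subset_span ⟨w, hw, rfl⟩)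
    · rw [map_add]
      exact add_mem ha hb
  · rw [span_mul_span, span_le]
    rintro _ ⟨_, ⟨u, hu, rfl⟩, _, ⟨w, hw, rfl⟩, rfl⟩
    exact subset_span ⟨u * w, mul_mem_mul hu hw, map_mul _ _ _⟩

/-- Restriction of linear systems. -/
noncomputable def IsSl.phi (h : IsSl k g) : Submodule k K →* Submodule (kk k σ) (KK K σ) where
  toFun U := span (kk k σ) (algebraMap K (KK K σ) '' (U : Set K))
  map_one' := h.phi_one
  map_mul' := phi_mul

theorem IsSl.phi_apply (h : IsSl k g) (U : Submodule k K) :
    h.phi U = span (kk k σ) (algebraMap K (KK K σ) '' (U : Set K)) := rfl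

theorem IsSl.phi_mono (h : IsSl k g) : Monotone h.phi := fun _ _ hU =>
  span_mono (Set.image_mono hU)

/-- Sketch: `span_induction`; a scalar `c : k` acts through `algebraMap _ _ (C c)` (`h.comm`). -/
theorem IsSl.phi_span (h : IsSl k g) (s : Set K) :
    h.phi (span k s) = span (kk k σ) (algebraMap K (KK K σ) '' s) := by
  refine le_antisymm (span_le.2 ?_) (span_mono (Set.image_mono subset_span))
  rintro _ ⟨a, ha, rfl⟩
  induction ha using span_induction with
  | mem a ha => exact subset_span ⟨a, ha, rfl⟩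
  | zero => rw [map_zero]; exact zero_mem _
  | add a b _ _ ha hb => rw [map_add]; exact add_mem ha hb
  | smul c a _ ha =>
    rw [Algebra.smul_def, map_mul, ← h.comm_C, ← Algebra.smul_def]
    exact smul_mem _ _ ha

theorem IsSl.phi_fg (h : IsSl k g) {U : Submodule k K} (hU : U.FG) : (h.phi U).FG := by
  obtain ⟨s, rfl⟩ := hU
  rw [h.phi_span]
  exact fg_span (s.finite_toSet.image _)

theorem IsSl.phi_ne (h : IsSl k g) {U : Submodule k K} (hU : U ≠ ⊥) : h.phi U ≠ ⊥ := by
  obtain ⟨a, ha, ha0⟩ := (Submodule.ne_bot_iff U).1 hU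
  exact (Submodule.ne_bot_iff _).2 ⟨_, subset_span ⟨a, ha, rfl⟩, (map_ne_zero _).2 ha0⟩

theorem IsSl.phi_sc (h : IsSl k g) (q : K) :
    h.phi (sc k q) = sc (kk k σ) (algebraMap K (KK K σ) q) := by
  rw [sc, h.phi_span, Set.image_singleton, sc]

/-- Sketch: write `F` as the sum of the `map (monomial α 1) * C (coeff α F)`. -/
theorem IsSl.ev_mem (h : IsSl k g) (F : MvPolynomial (Option σ) K) :
    ev g F ∈ h.phi (cont k F) := by
  have : ev g F = ∑ α ∈ F.support, algebraMap (MvPolynomial (Option σ) k) (kk k σ)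
      (monomial α 1) • algebraMap K (KK K σ) (coeff α F) := by
    conv_lhs => rw [F.as_sum, map_sum]
    refine Finset.sum_congr rfl fun α _ => ?_
    rw [Algebra.smul_def, h.comm, ← ev_C g, ← map_mul, map_monomial, map_one, mul_comm,
      C_mul_monomial, mul_one]
  rw [this]
  exact sum_mem fun α _ => smul_mem _ _ (subset_span ⟨_, coeff_mem_cont F α, rfl⟩)

/-- Sketch: common denominator `G` of a finite generating set
(`IsLocalization.exist_integer_multiples_of_finset`); `z` is the sum of the contents of
`rename some` of `G` and of the numerators; `ev_rename`, `ev_mem`. -/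
theorem IsSl.exists_denom (h : IsSl k g) {z' : Submodule (kk k σ) (KK K σ)} (hz : z'.FG) :
    ∃ z : Submodule k K, z.FG ∧ ∃ G ∈ h.phi z, G ≠ 0 ∧ sc (kk k σ) G * z' ≤ h.phi z := by
  classical
  obtain ⟨s, rfl⟩ := hz
  obtain ⟨b, hb⟩ := IsLocalization.exist_integer_multiples_of_finset
    (nonZeroDivisors (MvPolynomial σ K)) s
  choose! F hF using hb
  have key : ∀ G : MvPolynomial σ K, algebraMap _ (KK K σ) G ∈
      h.phi (cont k (rename (some : σ → Option σ) G)) := fun G => ev_rename g G ▸ h.ev_mem _
  refine ⟨cont k (rename some (b : MvPolynomial σ K)) ⊔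
    s.sup fun a => cont k (rename some (F a)), (cont_fg _).sup (fg_finset_sup _ _
      fun _ _ => cont_fg _), algebraMap (MvPolynomial σ K) _ b, h.phi_mono le_sup_left (key _),
      IsFractionRing.to_map_ne_zero_of_mem_nonZeroDivisors b.2, ?_⟩
  rw [sc, span_mul_span, span_le]
  rintro _ ⟨_, rfl, a, ha, rfl⟩
  change algebraMap (MvPolynomial σ K) _ b * a ∈ _
  rw [← Algebra.smul_def, ← hF a ha]
  exact h.phi_mono (le_sup_of_le_right
    (Finset.le_sup (f := fun a => cont k (rename some (F a))) ha)) (key _)

theorem IsSl.phi_dep (h : IsSl k g) {U W : Submodule k K} (hd : Dep U W) :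
    Dep (h.phi U) (h.phi W) := by
  obtain ⟨Z, hZ, hZ', hd⟩ := hd
  refine ⟨h.phi Z, h.phi_fg hZ, h.phi_ne hZ', ?_⟩
  rw [← map_mul, ← map_mul]
  exact h.phi_mono hd

theorem IsSl.phi_bir (h : IsSl k g) {U : Submodule k K} (hU : Bir U) : Bir (h.phi U) := by
  refine ⟨h.phi_fg hU.1, h.phi_ne hU.2.1, fun z' hz' => ?_⟩
  obtain ⟨z, hz, G, hG, hG0, hle⟩ := h.exists_denom hz'
  obtain ⟨c, q, -, hq0, hc⟩ := hU.2.2 z hz
  have h1 := h.phi_mono hc
  rw [map_mul, map_pow, h.phi_sc] at h1
  refine ⟨c, algebraMap K _ q * G, h1 (mul_mem_mul (mem_sc _) hG),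
    mul_ne_zero ((map_ne_zero _).2 hq0) hG0, ?_⟩
  rw [sc_mul, mul_assoc]
  exact (mul_le_mul_right hle _).trans h1

theorem IsSl.phi_big (h : IsSl k g) {U : Submodule k K} (hU : Big U) : Big (h.phi U) := by
  refine ⟨h.phi_fg hU.1, h.phi_ne hU.2.1, fun z' hz' => ?_⟩
  obtain ⟨z, hz, G, -, hG0, hle⟩ := h.exists_denom hz'
  obtain ⟨q, hq0, c, hc⟩ := hU.2.2 z hz
  have h1 := h.phi_dep hc
  rw [map_mul, map_pow, h.phi_sc] at h1
  refine ⟨algebraMap K _ q * G, mul_ne_zero ((map_ne_zero _).2 hq0) hG0, c, ?_⟩
  rw [sc_mul, mul_assoc]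
  exact (Dep.of_le (mul_le_mul_right hle _)).trans h1

theorem trdeg_frac (F ι : Type) [Field F] [Fintype ι] :
    Algebra.trdeg F (FractionRing (MvPolynomial ι F)) = Fintype.card ι := by
  have := IsLocalization.isAlgebraic (FractionRing (MvPolynomial ι F))
    (nonZeroDivisors (MvPolynomial ι F))
  rw [← trdeg_add_eq F (MvPolynomial ι F), trdeg_eq_zero (R := MvPolynomial ι F), add_zero,
    MvPolynomial.trdeg_of_isDomain, Cardinal.lift_id, Cardinal.mk_fintype]

/-- Sketch: `IsScalarTower k (kk k σ) (KK K σ)` from `h.comm (C c)`; `trdeg_add_eq` for the towers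
`k, K, KK` and `k, kk, KK`, and for `K, MvPolynomial σ K, KK` (`MvPolynomial.trdeg_of_isDomain`,
`IsLocalization.isAlgebraic`, `trdeg_eq_zero`). -/
theorem IsSl.trdeg (h : IsSl k g) {n : ℕ} (hK : Algebra.trdeg k K = (n + 1 : ℕ)) :
    Algebra.trdeg (kk k σ) (KK K σ) = n := by
  have : IsScalarTower k (kk k σ) (KK K σ) := IsScalarTower.of_algebraMap_eq fun c => by
    rw [h.comm_C, ← IsScalarTower.algebraMap_apply]
  have h1 := trdeg_add_eq k K (A := KK K σ)
  have h2 := trdeg_add_eq k (kk k σ) (A := KK K σ)
  rw [trdeg_frac, hK] at h1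
  rw [trdeg_frac, ← h1, Fintype.card_option] at h2
  refine Cardinal.eq_of_add_eq_add_left (a := ((Fintype.card σ + 1 : ℕ) : Cardinal)) ?_
    Cardinal.natCast_lt_aleph0
  rw [h2]
  push_cast
  ring

end

section Hom

variable {K₁ : Type} [Field K₁] [Algebra k K₁]

/-- Sketch: `f' = IsFractionRing.map`-like lift of `MvPolynomial.map f` (use
`IsFractionRing.lift`); `f' (ev g F) = ev (f ∘ g) (map f F)` by `MvPolynomial.induction_on` or
`ringHom_ext`; so `f'` commutes with the maps from `kk k σ` (`IsFractionRing.ringHom_ext` or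
`IsLocalization.ringHom_ext`). The degree: with `f.toAlgebra`, `algebraMvPolynomial` and
`f'.toAlgebra`, use `IsFractionRing.finrank_eq` and `rank_mvPolynomial_mvPolynomial`. -/
theorem exists_hom (f : K₁ →ₐ[k] K) {g : Option σ → K₁} [Algebra (kk k σ) (KK K₁ σ)]
    [Algebra (kk k σ) (KK K σ)]
    (h₁ : IsSl k g) (h : IsSl k (fun o => f (g o))) :
    ∃ f' : KK K₁ σ →ₐ[kk k σ] KK K σ, (∀ U, h.phi (pb f U) = pb f' (h₁.phi U)) ∧
      deg f'.toRingHom = deg f.toRingHom := by
  have hinj : Function.Injective ((algebraMap (MvPolynomial σ K) (KK K σ)).comp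
      (map f.toRingHom)) :=
    (IsFractionRing.injective _ _).comp (map_injective _ f.toRingHom.injective)
  let f₀ : KK K₁ σ →+* KK K σ := IsFractionRing.lift hinj
  have e0 : ∀ F : MvPolynomial σ K₁, f₀ (algebraMap _ _ F) =
      algebraMap (MvPolynomial σ K) _ (map f.toRingHom F) := fun F =>
    IsFractionRing.lift_algebraMap hinj F
  have e1 : ∀ F, map f.toRingHom (evB g F) = evB (fun o => f (g o)) (map f.toRingHom F) := by
    intro F
    induction F using MvPolynomial.induction_on with
    | C a => simp [evB]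
    | add p q hp hq => simp only [map_add, hp, hq]
    | mul_X p o hp =>
      rw [map_mul, map_mul, map_mul, map_mul, hp, map_X]
      congr 1
      rw [evB, evB, aeval_X, aeval_X]
      cases o with
      | none => simp [sform]
      | some j => simp
  have e2 : ∀ F, f₀ (ev g F) = ev (fun o => f (g o)) (map f.toRingHom F) := fun F => by
    change f₀ (algebraMap (MvPolynomial σ K₁) _ (evB g F)) =
      algebraMap (MvPolynomial σ K) _ (evB (fun o => f (g o)) (map f.toRingHom F))
    rw [e0, e1]
  have e5 : f.toRingHom.comp (algebraMap k K₁) = algebraMap k K := RingHom.ext f.commutes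
  have e3 : f₀.comp (algebraMap (kk k σ) (KK K₁ σ)) = algebraMap (kk k σ) (KK K σ) := by
    refine IsLocalization.ringHom_ext (nonZeroDivisors (MvPolynomial (Option σ) k))
      (RingHom.ext fun a => ?_)
    change f₀ (algebraMap _ _ (algebraMap _ _ a)) = algebraMap _ _ (algebraMap _ _ a)
    rw [h₁.comm, h.comm, e2, map_map, e5]
  have e4 : ∀ a : K₁, f₀ (algebraMap K₁ _ a) = algebraMap K _ (f a) := fun a => by
    rw [← ev_C g, e2, map_C, ev_C]
    rfl
  refine ⟨{ f₀ with commutes' := fun c => congrArg (· c) e3 }, fun U => ?_, ?_⟩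
  · rw [h₁.phi_apply, pb_apply, pb_apply, Submodule.map_span, h.phi_apply, Submodule.map_coe,
      Set.image_image, Set.image_image]
    congr 2
    funext a
    exact (e4 a).symm
  · change deg f₀ = deg f.toRingHom
    let _ : Algebra K₁ K := f.toRingHom.toAlgebra
    let _ : Algebra (MvPolynomial σ K₁) (MvPolynomial σ K) := algebraMvPolynomial
    let _ : Algebra (KK K₁ σ) (KK K σ) := f₀.toAlgebra
    have : IsScalarTower (MvPolynomial σ K₁) (KK K₁ σ) (KK K σ) :=
      IsScalarTower.of_algebraMap_eq fun F => by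
        rw [IsScalarTower.algebraMap_apply (MvPolynomial σ K₁) (MvPolynomial σ K) (KK K σ)]
        exact (e0 F).symm
    change Module.finrank (KK K₁ σ) (KK K σ) = Module.finrank K₁ K
    rw [IsFractionRing.finrank_eq (MvPolynomial σ K₁) (KK K₁ σ) (MvPolynomial σ K) (KK K σ),
      Module.finrank, rank_mvPolynomial_mvPolynomial, Cardinal.lift_id, Module.finrank]

end Hom

end Pool.Agent.Lib.MP_bc213e_ag.Dyn
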