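import Pool.Agent.Lib.MP_bc213e_ag.Dyn.Inter

/-!
Inequalities of reverse Khovanskii-Teissier type.
-/

namespace Pool.Agent.Lib.MP_bc213e_ag.Dyn

open Submodule Module Filter

theorem growth_one (a : ℕ → ℤ) (d : ℤ) (h : ∀ᶠ r in atTop, a (r + 1) - a r = d) :
    ∃ C : ℕ, ∀ r : ℕ, a r ≤ d * r + C := by
  obtain ⟨r₀, h⟩ := eventually_atTop.1 h
  obtain ⟨C, hC⟩ := ((Set.finite_Iic r₀).image fun r : ℕ => a r - d * r).bddAbove
  refine ⟨C.toNat, fun r => ?_⟩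
  have h1 : a r - d * r ≤ C := by
    induction r with
    | zero => exact hC ⟨0, Nat.zero_le _, rfl⟩
    | succ r ih =>
      rcases Nat.lt_or_ge r r₀ with hr | hr
      · exact hC ⟨r + 1, hr, rfl⟩
      · have := h r hr
        push_cast
        linarith
  have := Int.self_le_toNat C
  linarith

theorem growth_two (a : ℕ → ℤ) (d : ℤ)
    (h : ∀ᶠ r in atTop, a (r + 2) - a (r + 1) - (a (r + 1) - a r) = d) :
    ∃ C : ℕ, ∀ r : ℕ, d * r ^ 2 - C * r - C ≤ 2 * a r := by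
  obtain ⟨C, hC⟩ := growth_one (fun r => a r - a (r + 1)) (-d) (h.mono fun r hr => by linarith)
  refine ⟨2 * C + d.natAbs + 2 * (a 0).natAbs, fun r => ?_⟩
  have h1 : d * r ^ 2 - d * r - 2 * C * r + 2 * a 0 ≤ 2 * a r := by
    induction r with
    | zero => simp
    | succ r ih =>
      have := hC r
      push_cast
      linarith
  have h2 : d ≤ d.natAbs := Int.le_natAbs
  have h3 : -a 0 ≤ (a 0).natAbs := by omega
  have h4 : (0 : ℤ) ≤ r := Int.natCast_nonneg r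
  have h5 : (0 : ℤ) ≤ d.natAbs := Int.natCast_nonneg _
  have h6 : (0 : ℤ) ≤ (a 0).natAbs := Int.natCast_nonneg _
  have h7 : (0 : ℤ) ≤ C := Int.natCast_nonneg _
  push_cast [-Int.natCast_natAbs]
  nlinarith [mul_le_mul_of_nonneg_right h2 h4, mul_nonneg h6 h4]

variable {k K : Type} [Field k] [Field K] [Algebra k K] [CharZero k]

/-- Siu's criterion on a surface. Sketch: slice by `x`. With `isD_D` for `{M, M}` and `P = M`,
`U = 1`, and for `{φ M}` and `P = φ M`, the growth lemmas give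
`2 dim M^i ≥ (MM) i^2 - C i - C` and `dim (φ M)^i ≤ (xM) i + C` (`D_slice`). For `i = a r`,
`j = b r` with `r` large the hypothesis of `SliceData.siu` holds, so `sc q * x^(b r)` depends on
`M^(a r)`; `D_dep`, `D_pow`. -/
theorem siu_two (hF : FF k K 2) {x y M : Submodule k K} (hx : Big x) (hy : Big y) (hM : Bir M)
    {a b : ℕ} (hb : 0 < b) (h : 2 * b * D 2 (x ::ₘ M ::ₘ 0) < a * D 2 (M ::ₘ M ::ₘ 0)) :
    b * D 2 (x ::ₘ y ::ₘ 0) ≤ a * D 2 (M ::ₘ y ::ₘ 0) := by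
  obtain ⟨k', K', _, _, _, _, φ, hF', hs⟩ := exists_slice (n := 1) hF hx
  have hM0 : ∀ z ∈ M ::ₘ (0 : Multiset (Submodule k K)), Big z := big_cons hM.big (by simp)
  have e := D_slice hF hF' hs hx hM0
  obtain ⟨C, hC⟩ := growth_two (fun r => hf (M ^ r)) (D 2 (M ::ₘ M ::ₘ 0)) (by
    filter_upwards [isD_D hF (T := M ::ₘ M ::ₘ 0) (by simp) (big_cons hM.big hM0) M 1 hM (by simp)
      fg_one' one_ne_bot'] with r hr
    simp only [difM_cons, difM_zero, mul_one, ← pow_succ'] at hr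
    exact hr)
  obtain ⟨C', hC'⟩ := growth_one (fun r => hf (φ M ^ r)) (D 2 (x ::ₘ M ::ₘ 0)) (by
    filter_upwards [isD_D hF' (T := (M ::ₘ 0).map φ) (by simp) (big_map hs.big hM0) (φ M) 1
      (hs.bir _ hM) (by simp) fg_one' one_ne_bot'] with r hr
    rw [← e] at hr
    simp only [Multiset.map_cons, Multiset.map_zero, difM_cons, difM_zero, mul_one,
      ← pow_succ'] at hr
    exact hr)
  have p1 := D_nonneg hF (x ::ₘ M ::ₘ 0)
  have p2 := D_nonneg hF (M ::ₘ M ::ₘ 0)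
  have ha : 0 < a := by
    refine Nat.pos_of_ne_zero fun h0 => ?_
    rw [h0, Nat.cast_zero, zero_mul] at h
    have : (0 : ℤ) ≤ 2 * b * D 2 (x ::ₘ M ::ₘ 0) := by positivity
    omega
  obtain ⟨r, hr⟩ : ∃ r : ℕ, r = 2 * b * C' + C * a + C + 1 := ⟨_, rfl⟩
  have hr0 : 0 < r := by omega
  obtain ⟨q, hq, hd⟩ := hs.siu (M ^ (a * r)) (b * r) (hM.1.pow _) (by
    have h1 := hC (a * r)
    have h2 := hC' (a * r)
    rw [hf, ← map_pow] at h2
    rw [hf] at h1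
    have h3 : (1 : ℤ) ≤ a := by exact_mod_cast ha
    have h4 : (1 : ℤ) ≤ r := by exact_mod_cast hr0
    have h5 : (r : ℤ) = 2 * b * C' + C * a + C + 1 := by exact_mod_cast hr
    have h6 : (0 : ℤ) ≤ b * r := by positivity
    have h7 : (0 : ℤ) ≤ C := Int.natCast_nonneg _
    have h8 : (a : ℤ) * r * r * (2 * b * D 2 (x ::ₘ M ::ₘ 0) + 1) ≤
        a * r * r * (a * D 2 (M ::ₘ M ::ₘ 0)) := mul_le_mul_of_nonneg_left h (by positivity)
    have h9 := mul_le_mul_of_nonneg_left h2 h6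
    have h10 : (r : ℤ) * r ≤ a * r * r := by nlinarith
    have h11 : (C : ℤ) ≤ C * r := by nlinarith
    have h12 : (r : ℤ) * r = r * (2 * b * C' + C * a + C + 1) := by rw [← h5]
    zify
    push_cast at h1 h9
    nlinarith)
  have h1 := D_dep hF (hx.pow (Nat.mul_pos hb hr0)) (hM.big.pow (Nat.mul_pos ha hr0)) hq hd
    (y ::ₘ 0)
  rw [D_pow hF hx (Nat.mul_pos hb hr0), D_pow hF hM.big (Nat.mul_pos ha hr0)] at h1
  push_cast at h1
  refine le_of_mul_le_mul_left (a := (r : ℤ)) ?_ (by exact_mod_cast hr0)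
  linarith

/-- Sketch: `b = N (MM)`, `a = 2 N (xM) + 1`, `N` large. -/
theorem T3_bir (hF : FF k K 2) {x y M : Submodule k K} (hx : Big x) (hy : Big y) (hM : Bir M) :
    D 2 (x ::ₘ y ::ₘ 0) * D 2 (M ::ₘ M ::ₘ 0) ≤
      2 * (D 2 (x ::ₘ M ::ₘ 0) * D 2 (M ::ₘ y ::ₘ 0)) := by
  have p1 := D_nonneg hF (x ::ₘ M ::ₘ 0)
  have p2 := D_pos hF (T := M ::ₘ M ::ₘ 0) (by simp) (big_cons hM.big (big_cons hM.big (by simp)))
  have p3 := D_nonneg hF (M ::ₘ y ::ₘ 0)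
  obtain ⟨u, hu⟩ := Int.eq_ofNat_of_zero_le p1
  obtain ⟨v, hv⟩ := Int.eq_ofNat_of_zero_le p2.le
  obtain ⟨w, hw⟩ := Int.eq_ofNat_of_zero_le p3
  have hv0 : 0 < v := by omega
  have h1 := siu_two hF hx hy hM (a := 2 * (w + 1) * u + 1) (b := (w + 1) * v) (by positivity) (by
    rw [hu, hv]
    push_cast
    nlinarith)
  rw [hw] at h1
  rw [hu, hv, hw]
  by_contra h2
  push_cast at h1
  have h3 : (0 : ℤ) ≤ w := Int.natCast_nonneg _
  nlinarith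

/-- Sketch: apply `T3_bir` to `B * M^N`, expand with `D_mul_pow` and `Multiset.cons_swap`,
`N` large. -/
theorem T3_two (hF : FF k K 2) {x y M : Submodule k K} (hx : Big x) (hy : Big y) (hM : Big M) :
    D 2 (x ::ₘ y ::ₘ 0) * D 2 (M ::ₘ M ::ₘ 0) ≤
      2 * (D 2 (x ::ₘ M ::ₘ 0) * D 2 (M ::ₘ y ::ₘ 0)) := by
  obtain ⟨B, hB⟩ := hF.bir
  have key : ∀ N : ℕ, (N : ℤ) ^ 2 * (D 2 (x ::ₘ y ::ₘ 0) * D 2 (M ::ₘ M ::ₘ 0)) ≤
      2 * ((D 2 (B ::ₘ x ::ₘ 0) + N * D 2 (x ::ₘ M ::ₘ 0)) *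
        (D 2 (B ::ₘ y ::ₘ 0) + N * D 2 (M ::ₘ y ::ₘ 0))) := by
    intro N
    have h := T3_bir hF hx hy (hB.mul (hM.1.pow N) (pow_ne_bot' hM.2.1 N))
    rw [Multiset.cons_swap x (B * M ^ N), D_mul_pow hF hB.big hM, D_mul_pow hF hB.big hM,
      D_mul_pow hF hB.big hM, Multiset.cons_swap M (B * M ^ N), D_mul_pow hF hB.big hM,
      Multiset.cons_swap M x] at h
    refine le_trans ?_ h
    have p1 := D_nonneg hF (x ::ₘ y ::ₘ 0)
    have p2 := D_nonneg hF (B ::ₘ (B * M ^ N) ::ₘ 0)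
    have p3 := D_nonneg hF (B ::ₘ M ::ₘ 0)
    have p4 : (0 : ℤ) ≤ N := Int.natCast_nonneg _
    nlinarith [mul_nonneg p1 p2, mul_nonneg p1 (mul_nonneg p4 p3)]
  have p1 := D_nonneg hF (B ::ₘ x ::ₘ 0)
  have p2 := D_nonneg hF (B ::ₘ y ::ₘ 0)
  have p3 := D_nonneg hF (x ::ₘ M ::ₘ 0)
  have p4 := D_nonneg hF (M ::ₘ y ::ₘ 0)
  generalize D 2 (B ::ₘ x ::ₘ 0) = a, D 2 (B ::ₘ y ::ₘ 0) = b, D 2 (x ::ₘ M ::ₘ 0) = c,
    D 2 (M ::ₘ y ::ₘ 0) = d, D 2 (x ::ₘ y ::ₘ 0) * D 2 (M ::ₘ M ::ₘ 0) = e at *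
  by_contra h
  obtain ⟨N, hN⟩ := Int.eq_ofNat_of_zero_le
    (show 0 ≤ 2 * (a * d + b * c) + 2 * (a * b) + 1 by positivity)
  have h1 := key N
  have h2 : (1 : ℤ) ≤ N := by
    rw [← hN]
    have : 0 ≤ 2 * (a * d + b * c) + 2 * (a * b) := by positivity
    linarith
  have h3 : (N : ℤ) ^ 2 * (2 * (c * d) + 1) ≤ N ^ 2 * e :=
    mul_le_mul_of_nonneg_left (by omega) (by positivity)
  have h4 : (N : ℤ) ^ 2 = N * (2 * (a * d + b * c) + 2 * (a * b) + 1) := by rw [hN, sq]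
  nlinarith [mul_nonneg p1 p2]

/-- Sketch: `exists_multislice`; both sides vanish if `T` is not admissible. -/
theorem T3 {n : ℕ} (hF : FF k K n) {x y M : Submodule k K} (hx : Big x) (hy : Big y) (hM : Big M)
    (T : Multiset (Submodule k K)) :
    D n (x ::ₘ y ::ₘ T) * D n (M ::ₘ M ::ₘ T) ≤
      2 * (D n (x ::ₘ M ::ₘ T) * D n (M ::ₘ y ::ₘ T)) := by
  by_cases hT : T.card + 2 = n ∧ ∀ y ∈ T, Big y
  swap
  · rw [D_of_not (T := x ::ₘ y ::ₘ T) fun h => hT ⟨by simpa using h.1, fun z hz =>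
      h.2 z (Multiset.mem_cons_of_mem (Multiset.mem_cons_of_mem hz))⟩, zero_mul]
    exact mul_nonneg zero_le_two (mul_nonneg (D_nonneg hF _) (D_nonneg hF _))
  obtain ⟨rfl, hT⟩ := hT
  rw [add_comm] at hF ⊢
  obtain ⟨k', K', _, _, _, _, φ, hF', -, h2, h3⟩ := exists_multislice hF rfl hT
  have e : ∀ {a b : Submodule k K}, Big a → Big b →
      D (2 + T.card) (a ::ₘ b ::ₘ T) = D 2 (φ a ::ₘ φ b ::ₘ 0) := fun {a b} ha hb => by
    have := h3 (a ::ₘ b ::ₘ 0) (big_cons ha (big_cons hb (by simp)))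
    simpa only [Multiset.cons_add, zero_add, Multiset.map_cons, Multiset.map_zero] using this
  rw [e hx hy, e hM hM, e hx hM, e hM hy]
  exact T3_two hF' (h2 _ hx) (h2 _ hy) (h2 _ hM)

/-- Sketch: `T3` for `x, z` with pivot `y^α w^β`, `α = (xw)`, `β = (xy)`. -/
theorem T4 {n : ℕ} (hF : FF k K n) {x y z w : Submodule k K} (hx : Big x) (hy : Big y)
    (hz : Big z) (hw : Big w) (T : Multiset (Submodule k K)) :
    D n (x ::ₘ z ::ₘ T) * D n (y ::ₘ w ::ₘ T) ≤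
      2 * (D n (x ::ₘ w ::ₘ T) * D n (z ::ₘ y ::ₘ T) +
        D n (x ::ₘ y ::ₘ T) * D n (z ::ₘ w ::ₘ T)) := by
  by_cases hT : T.card + 2 = n ∧ ∀ y ∈ T, Big y
  swap
  · rw [D_of_not (T := x ::ₘ z ::ₘ T) fun h => hT ⟨by simpa using h.1, fun z hz =>
      h.2 z (Multiset.mem_cons_of_mem (Multiset.mem_cons_of_mem hz))⟩, zero_mul]
    exact mul_nonneg zero_le_two (add_nonneg (mul_nonneg (D_nonneg hF _) (D_nonneg hF _))
      (mul_nonneg (D_nonneg hF _) (D_nonneg hF _)))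
  have p : ∀ {a b : Submodule k K}, Big a → Big b → 0 < D n (a ::ₘ b ::ₘ T) := fun ha hb =>
    D_pos hF (by simpa using hT.1) (big_cons ha (big_cons hb hT.2))
  obtain ⟨α, hα⟩ := Int.eq_ofNat_of_zero_le (p hx hw).le
  obtain ⟨β, hβ⟩ := Int.eq_ofNat_of_zero_le (p hx hy).le
  have hα0 : 0 < α := by have := p hx hw; omega
  have hM : Big (y ^ α * w ^ β) := (hy.pow hα0).mul (hw.1.pow β) (pow_ne_bot' hw.2.1 β)
  have e : ∀ R, D n ((y ^ α * w ^ β) ::ₘ R) = α * D n (y ::ₘ R) + β * D n (w ::ₘ R) := fun R => by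
    rw [D_mul_pow hF (hy.pow hα0) hw, D_pow hF hy hα0]
  have h := T3 hF hx hz hM T
  rw [Multiset.cons_swap x (y ^ α * w ^ β), e, e, e, Multiset.cons_swap y (y ^ α * w ^ β),
    Multiset.cons_swap w (y ^ α * w ^ β), e, e, Multiset.cons_swap y x, Multiset.cons_swap w x,
    Multiset.cons_swap y z, Multiset.cons_swap w z, Multiset.cons_swap w y, ← hα, ← hβ] at h
  have p1 := p hx hw
  have p2 := p hx hy
  have p3 := p hx hz
  have p4 := p hy hy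
  have p5 := p hw hw
  generalize D n (x ::ₘ w ::ₘ T) = a, D n (x ::ₘ y ::ₘ T) = b, D n (x ::ₘ z ::ₘ T) = c,
    D n (y ::ₘ y ::ₘ T) = d, D n (w ::ₘ w ::ₘ T) = d', D n (y ::ₘ w ::ₘ T) = u,
    D n (z ::ₘ y ::ₘ T) = v, D n (z ::ₘ w ::ₘ T) = v' at *
  refine le_of_mul_le_mul_left (a := 2 * a * b) ?_ (by positivity)
  have q1 : 0 ≤ c * (a * (a * d)) := by positivity
  have q2 : 0 ≤ c * (b * (b * d')) := by positivity
  linarith

end Pool.Agent.Lib.MP_bc213e_ag.Dyn
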